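import Pool.Agent.Lib.Rbc.Defs

namespace Rbc

open Finset Filter

/-- Numerical part of Maker's win, 1. Here `g = ⌊log n⌋`, `k = ⌊c log n / 1024⌋`,
`L = ⌊log n / log (8 k)⌋ + 1`. -/
theorem asymM1 (a d c : ℝ) (ha : 0 < a) (hd : 0 < d) (hd1 : d ≤ 1) (hc : 0 < c) (hc1 : c ≤ 1) :
    ∀ᶠ n : ℕ in atTop, ∃ g k L : ℕ, (g : ℝ) ≤ Real.log n ∧ Real.log n ≤ 2 * g ∧ 96 ≤ g ∧ g ≤ n ∧
      1 ≤ k ∧ 1 / a ^ 2 ≤ k ∧ (1024 * k : ℝ) ≤ c * Real.log n ∧ (16 * k : ℝ) ≤ a * n / 2 ∧
      1 ≤ L ∧ n < (8 * k) ^ L ∧ 2 * (L : ℝ) / (g * d) < 1 ∧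
      (n : ℝ) * 2 ^ g * (2 ^ (1024 * k) * (2 * L / (g * d)) ^ k) ≤ 1 / 4 := by
  have hcast : Tendsto (fun n : ℕ => (n : ℝ)) atTop atTop := tendsto_natCast_atTop_atTop
  have hlog : Tendsto (fun n : ℕ => Real.log n) atTop atTop := Real.tendsto_log_atTop.comp hcast
  have hk0 : Tendsto (fun n : ℕ => c * Real.log n / 1024) atTop atTop :=
    (hlog.const_mul_atTop hc).atTop_div_const (by norm_num)
  have hk : Tendsto (fun n : ℕ => ((⌊c * Real.log n / 1024⌋₊ : ℕ) : ℝ)) atTop atTop :=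
    tendsto_natCast_atTop_atTop.comp (tendsto_nat_floor_atTop.comp hk0)
  have h8k : Tendsto (fun n : ℕ => Real.log (8 * ((⌊c * Real.log n / 1024⌋₊ : ℕ) : ℝ)))
      atTop atTop := Real.tendsto_log_atTop.comp (hk.const_mul_atTop (by norm_num))
  set B : ℝ := Real.exp (-(4096 / c + 1026)) with hB
  have hBpos : 0 < B := Real.exp_pos _
  have hBlt : B < 1 := by
    rw [hB, Real.exp_lt_one_iff]
    have : 0 < 4096 / c := by positivity
    linarith
  have hq0 : Tendsto (fun n : ℕ => 4 / d *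
      ((Real.log (8 * ((⌊c * Real.log n / 1024⌋₊ : ℕ) : ℝ)))⁻¹ + (Real.log n)⁻¹))
      atTop (nhds 0) := by
    have := (((tendsto_inv_atTop_zero.comp h8k).add (tendsto_inv_atTop_zero.comp hlog)).const_mul
      (4 / d))
    simpa using this
  have hq1 := hq0.eventually (Iio_mem_nhds hBpos)
  have hlo : ∀ᶠ n : ℕ in atTop, Real.log n ≤ min 1 a * n := by
    have := Real.isLittleO_log_id_atTop.comp_tendsto hcast
    have h3 := this.bound (lt_min one_pos ha)
    filter_upwards [h3, eventually_ge_atTop 1] with n hn hn1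
    simp only [Function.comp, id] at hn
    rw [Real.norm_of_nonneg (Real.log_nonneg (by exact_mod_cast hn1)),
      Real.norm_of_nonneg (Nat.cast_nonneg n)] at hn
    exact hn
  filter_upwards [hq1, hlo, hlog.eventually_ge_atTop 100, hk.eventually_ge_atTop 1,
    hk.eventually_ge_atTop (1 / a ^ 2), h8k.eventually_ge_atTop 1,
    hlog.eventually_ge_atTop (2048 / c), eventually_ge_atTop 1]
    with n hq1 hlo hl100 hk1 hka h8k1 hlc hn1
  have hnpos : (0 : ℝ) < n := by exact_mod_cast hn1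
  set x : ℝ := Real.log n with hx
  set k : ℕ := ⌊c * x / 1024⌋₊ with hkdef
  set g : ℕ := ⌊x⌋₊ with hgdef
  have hx0 : 0 ≤ x := by linarith
  have hgle : (g : ℝ) ≤ x := Nat.floor_le hx0
  have hglt : x < (g : ℝ) + 1 := Nat.lt_floor_add_one x
  have hg96 : 96 ≤ g := Nat.le_floor (by push_cast; linarith)
  have hg96' : (96 : ℝ) ≤ g := by exact_mod_cast hg96
  have hkle : (k : ℝ) ≤ c * x / 1024 := Nat.floor_le (by positivity)
  have hklt : c * x / 1024 < (k : ℝ) + 1 := Nat.lt_floor_add_one _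
  have hkpos : (0 : ℝ) < k := by linarith
  set l8 : ℝ := Real.log (8 * (k : ℝ)) with hl8
  set L : ℕ := ⌊x / l8⌋₊ + 1 with hL
  have hl8pos : 0 < l8 := by linarith
  have hLlt : x / l8 < (L : ℝ) := by
    rw [hL]; push_cast; exact Nat.lt_floor_add_one _
  have hLle : (L : ℝ) ≤ x / l8 + 1 := by
    rw [hL]; push_cast
    have := Nat.floor_le (show 0 ≤ x / l8 by positivity)
    linarith
  have hL1 : (1 : ℝ) ≤ L := by rw [hL]; push_cast; linarith [Nat.cast_nonneg (α := ℝ) ⌊x / l8⌋₊]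
  have hgx : x ≤ 2 * g := by linarith
  have hqle : 2 * (L : ℝ) / (g * d) ≤ 4 / d * (l8⁻¹ + x⁻¹) := by
    have hgpos : (0 : ℝ) < g := by linarith
    have hxpos : 0 < x := by linarith
    rw [div_le_iff₀ (by positivity)]
    have h1 : 4 / d * (l8⁻¹ + x⁻¹) * (g * d) = 4 * g * (l8⁻¹ + x⁻¹) := by
      field_simp
    rw [h1]
    have h2 : 2 * x * (l8⁻¹ + x⁻¹) ≤ 4 * g * (l8⁻¹ + x⁻¹) := by
      apply mul_le_mul_of_nonneg_right
      · linarith
      · positivity
    have h3 : 2 * x * (l8⁻¹ + x⁻¹) = 2 * (x / l8 + 1) := by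
      field_simp
    linarith
  have hqB : 2 * (L : ℝ) / (g * d) ≤ B := hqle.trans hq1.le
  have hqpos : 0 < 2 * (L : ℝ) / (g * d) := by
    have hgpos : (0 : ℝ) < g := by linarith
    have : (0 : ℝ) < L := by linarith
    positivity
  refine ⟨g, k, L, hgle, hgx, hg96, ?_, ?_, hka, ?_, ?_, ?_, ?_, ?_, ?_⟩
  · have : (g : ℝ) ≤ n := by
      have h1 : min 1 a * n ≤ 1 * n := mul_le_mul_of_nonneg_right (min_le_left _ _) hnpos.le
      linarith
    exact_mod_cast this
  · exact_mod_cast hk1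
  · linarith
  · have h1 : min 1 a * n ≤ a * n := mul_le_mul_of_nonneg_right (min_le_right _ _) hnpos.le
    have h2 : c * x ≤ 1 * x := mul_le_mul_of_nonneg_right hc1 hx0
    linarith
  · exact_mod_cast hL1
  · have h8 : (0 : ℝ) < 8 * k := by linarith
    have h1 : (n : ℝ) < (8 * (k : ℝ)) ^ L := by
      rw [← Real.log_lt_log_iff hnpos (by positivity), Real.log_pow]
      rw [div_lt_iff₀ hl8pos] at hLlt
      exact hLlt
    exact_mod_cast h1
  · linarith
  · have hlogq : Real.log (2 * (L : ℝ) / (g * d)) ≤ -(4096 / c + 1026) := by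
      have := Real.log_le_log hqpos hqB
      rwa [hB, Real.log_exp] at this
    have hpos : (0 : ℝ) < (n : ℝ) * 2 ^ g * (2 ^ (1024 * k) * (2 * L / (g * d)) ^ k) := by
      positivity
    rw [← Real.log_le_log_iff hpos (by norm_num)]
    have hexp : Real.log ((n : ℝ) * 2 ^ g * (2 ^ (1024 * k) * (2 * L / (g * d)) ^ k)) =
        x + g * Real.log 2 + (1024 * k * Real.log 2 +
          k * Real.log (2 * (L : ℝ) / (g * d))) := by
      rw [Real.log_mul (by positivity) (by positivity), Real.log_mul (by positivity)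
        (by positivity), Real.log_mul (by positivity) (by positivity), Real.log_pow,
        Real.log_pow, Real.log_pow]
      push_cast
      ring
    rw [hexp]
    have hl2 : Real.log 2 < 1 := by
      have := Real.log_two_lt_d9
      linarith
    have hl2' : 0 < Real.log 2 := Real.log_pos (by norm_num)
    have hl4 : Real.log (1 / 4) = -(2 * Real.log 2) := by
      rw [show (1 / 4 : ℝ) = (2 ^ 2)⁻¹ by norm_num, Real.log_inv, Real.log_pow]
      push_cast; ring
    rw [hl4]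
    -- x ≤ (2048 / c) k
    have hxk : x ≤ 2048 / c * k := by
      have h1 : 1 ≤ c * x / 2048 := by
        rw [div_le_iff₀ hc] at hlc
        rw [le_div_iff₀ (by norm_num)]
        linarith
      have h2 : c * x / 2048 ≤ k := by linarith
      rw [div_mul_eq_mul_div, le_div_iff₀ hc]
      rw [div_le_iff₀ (by norm_num)] at h2
      linarith
    have h3 : (g : ℝ) * Real.log 2 ≤ x := by
      calc (g : ℝ) * Real.log 2 ≤ g * 1 := by
            apply mul_le_mul_of_nonneg_left hl2.le; linarith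
        _ ≤ x := by linarith
    have h4 : 1024 * (k : ℝ) * Real.log 2 ≤ 1024 * k := by nlinarith
    have h5 : (k : ℝ) * Real.log (2 * (L : ℝ) / (g * d)) ≤ k * (-(4096 / c + 1026)) :=
      mul_le_mul_of_nonneg_left hlogq hkpos.le
    have h6 : (k : ℝ) * (-(4096 / c + 1026)) = -(2 * (2048 / c * k)) - 1026 * k := by ring
    have hk1' : (1 : ℝ) ≤ k := hk1
    linarith

end Rbc
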