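import Pool.Agent.Lib.Rbc.Defs

/-! Asymptotic inequalities for Maker, part 2. -/

namespace Rbc

open Finset Filter

private theorem asymM2_one {ε l N S m0 K B c E : ℝ} (h0 : 0 < ε) (hN0 : 0 < N)
    (hS0 : 0 ≤ S) (hB0 : 0 ≤ B) (hca : c ≤ ε / 16)
    (hlM : 16 * (1 + E) ≤ l * ε) (hn1 : 32 ≤ N * ε)
    (hm2 : m0 ≤ ε / 16 * N + 1) (hBl : B * l ≤ (1 - ε) * (S * N)) (hBl' : B * l ≤ S * N)
    (e1 : B * (1024 * K) ≤ c * (S * N)) (e5 : 1024 * K * N ≤ ε / 16 * (S * N)) {F : ℝ}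
    (hF : F ≤ E) :
    ε / 2 * (S * N) ≤ S * (N - 1) - (2 * B * (1024 * K) +
          (B * (1 + l) + B * F + S * m0)) - 1024 * K * N := by
  have hSN : 0 ≤ S * N := mul_nonneg hS0 hN0.le
  have f2 : B * F ≤ B * E := mul_le_mul_of_nonneg_left hF hB0
  have f3 : B * (1 + E) ≤ ε / 16 * (S * N) := by
    have f4 : 1 + E ≤ ε / 16 * l := by linarith
    calc B * (1 + E) ≤ B * (ε / 16 * l) := mul_le_mul_of_nonneg_left f4 hB0
      _ = ε / 16 * (B * l) := by ring
      _ ≤ ε / 16 * (S * N) := mul_le_mul_of_nonneg_left hBl' (by positivity)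
  have f5 : S * m0 ≤ S * (ε / 16 * N + 1) := mul_le_mul_of_nonneg_left hm2 hS0
  have f6 : S * 32 ≤ S * (N * ε) := mul_le_mul_of_nonneg_left hn1 hS0
  have f7 : c * (S * N) ≤ ε / 16 * (S * N) := mul_le_mul_of_nonneg_right hca hSN
  have g1 : S * (N * ε) = ε * (S * N) := by ring
  have g2 : S * (ε / 16 * N + 1) = ε / 16 * (S * N) + S := by ring
  have g3 : B * (1 + E) = B + B * E := by ring
  have g4 : B * (1 + l) = B + B * l := by ring
  have g5 : (1 - ε) * (S * N) = S * N - ε * (S * N) := by ring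
  have g6 : 2 * B * (1024 * K) = 2 * (B * (1024 * K)) := by ring
  have g7 : S * (N - 1) = S * N - S := by ring
  rw [g1] at f6
  rw [g2] at f5
  rw [g3] at f3
  rw [g5] at hBl
  rw [g4, g6, g7]
  linarith

private theorem asymM2_three {a β N S G K : ℝ}
    (hβ : β = a / 64) (hn2 : 16 ≤ N * a) (hS0 : 0 ≤ S) (hG0 : 0 < G) (hGS : 2 * G ≤ S)
    (e4 : 1024 * K * N ≤ a / 128 * (S * N)) :
    a / 32 * (S * N) ≤ (a * N / 2 - 1) * (G / 4 * (S / G - 1)) - β * (S * N) -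
          1024 * K * N := by
  have f1 : G / 4 * (S / G - 1) = (S - G) / 4 := by field_simp
  rw [f1]
  have f3 : 0 ≤ a * N / 2 - 1 := by linarith
  have f4 : (a * N / 2 - 1) * (S / 8) ≤ (a * N / 2 - 1) * ((S - G) / 4) :=
    mul_le_mul_of_nonneg_left (by linarith) f3
  have f5 : S * 16 ≤ S * (N * a) := mul_le_mul_of_nonneg_left hn2 hS0
  have g1 : S * (N * a) = a * (S * N) := by ring
  have g2 : (a * N / 2 - 1) * (S / 8) = a / 16 * (S * N) - S / 8 := by ring
  have g3 : a / 64 * (S * N) = a * (S * N) / 64 := by ring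
  have g4 : a / 32 * (S * N) = a * (S * N) / 32 := by ring
  have g5 : a / 16 * (S * N) = a * (S * N) / 16 := by ring
  have g6 : a / 128 * (S * N) = a * (S * N) / 128 := by ring
  rw [g1] at f5
  rw [g2, g5] at f4
  rw [hβ, g3, g4]
  rw [g6] at e4
  linarith

/-- Numerical part of Maker's win, 2. -/
theorem asymM2 (ε : ℝ) (h0 : 0 < ε) (h1 : ε < 1) (a β c : ℝ) (ha : 0 < a) (ha1 : a ≤ 1 / 64)
    (hβ : β = a / 64) (hc : c = a * β / 8) (hca : c ≤ ε / 16) (s : ℕ → ℕ)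
    (hs : Tendsto (fun n : ℕ => (s n : ℝ) / Real.log n) atTop atTop) :
    ∀ᶠ n : ℕ in atTop, ∃ m0 : ℕ, 1 ≤ m0 ∧ m0 ≤ n ∧
      ∀ g k b : ℕ, (g : ℝ) ≤ Real.log n → 1 ≤ g → (1024 * k : ℝ) ≤ c * Real.log n →
        (b : ℝ) ≤ (1 - ε) * (s n * n / Real.log n) →
        ε / 2 * (s n * n) ≤ s n * (n - 1) - (2 * b * (1024 * k) +
          (b * (1 + Real.log n) + b * Real.log ((n : ℝ) / m0) + s n * m0)) - 1024 * k * n ∧
        2 * (b * (1024 * k * n)) ≤ a * n / 4 * (β * (s n * n)) ∧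
        a / 32 * (s n * n) ≤ (a * n / 2 - 1) * (g / 4 * (s n / g - 1)) - β * (s n * n) -
          1024 * k * n ∧
        (s n : ℝ) / g + 1 ≤ 2 * s n / g := by
  have hc0 : 0 < c := by rw [hc, hβ]; positivity
  have hlog : Tendsto (fun n : ℕ => Real.log n) atTop atTop :=
    Real.tendsto_log_atTop.comp tendsto_natCast_atTop_atTop
  have _ := ha1
  filter_upwards [hlog.eventually_ge_atTop 1,
    hlog.eventually_ge_atTop (16 * (1 + Real.log (16 / ε)) / ε),
    tendsto_natCast_atTop_atTop.eventually_ge_atTop (32 / ε),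
    tendsto_natCast_atTop_atTop.eventually_ge_atTop (16 / a),
    hs.eventually_ge_atTop 2, hs.eventually_ge_atTop (16 * c / ε),
    hs.eventually_ge_atTop (128 * c / a), eventually_ge_atTop 1] with n hl1 hlM hn1 hn2 hs1 hs2
      hs3 hn
  have hl0 : 0 < Real.log n := by linarith
  have hN0 : (0 : ℝ) < n := by exact_mod_cast hn
  have hS0 : (0 : ℝ) ≤ s n := Nat.cast_nonneg _
  have hSN : (0 : ℝ) ≤ s n * n := by positivity
  rw [div_le_iff₀ h0] at hlM hn1
  rw [div_le_iff₀ ha] at hn2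
  rw [le_div_iff₀ hl0] at hs1 hs2 hs3
  have hs2' : c * Real.log n ≤ ε / 16 * s n := by
    have h2 := mul_le_mul_of_nonneg_left hs2 (by positivity : 0 ≤ ε / 16)
    have h3 : ε / 16 * (16 * c / ε * Real.log n) = c * Real.log n := by field_simp
    linarith
  have hs3' : c * Real.log n ≤ a / 128 * s n := by
    have h2 := mul_le_mul_of_nonneg_left hs3 (by positivity : 0 ≤ a / 128)
    have h3 : a / 128 * (128 * c / a * Real.log n) = c * Real.log n := by field_simp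
    linarith
  -- the number `m0`
  have hm0 : 0 < ε / 16 * (n : ℝ) := by positivity
  refine ⟨⌈ε / 16 * (n : ℝ)⌉₊, Nat.one_le_iff_ne_zero.2 (Nat.ceil_pos.2 hm0).ne', ?_, ?_⟩
  · rw [Nat.ceil_le]
    have := mul_le_mul_of_nonneg_right (by linarith : ε / 16 ≤ 1) hN0.le
    linarith
  have hm1 : ε / 16 * (n : ℝ) ≤ ⌈ε / 16 * (n : ℝ)⌉₊ := Nat.le_ceil _
  have hm2 : (⌈ε / 16 * (n : ℝ)⌉₊ : ℝ) ≤ ε / 16 * n + 1 := (Nat.ceil_lt_add_one hm0.le).le
  have hm3 : (0 : ℝ) < ⌈ε / 16 * (n : ℝ)⌉₊ := lt_of_lt_of_le hm0 hm1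
  intro g k b hg hg1 hk hb
  have hG1 : (1 : ℝ) ≤ g := by exact_mod_cast hg1
  have hB0 : (0 : ℝ) ≤ b := Nat.cast_nonneg _
  have hBl : b * Real.log n ≤ (1 - ε) * (s n * n) := by
    have h2 := mul_le_mul_of_nonneg_right hb hl0.le
    have h3 : (1 - ε) * (s n * n / Real.log n) * Real.log n = (1 - ε) * (s n * n) := by
      rw [mul_assoc, div_mul_cancel₀ _ hl0.ne']
    linarith
  have hBl' : b * Real.log n ≤ s n * n := by
    have : (1 - ε) * ((s n : ℝ) * n) ≤ 1 * ((s n : ℝ) * n) :=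
      mul_le_mul_of_nonneg_right (by linarith) hSN
    linarith
  have e1 : b * (1024 * (k : ℝ)) ≤ c * (s n * n) := by
    calc b * (1024 * (k : ℝ)) ≤ b * (c * Real.log n) := mul_le_mul_of_nonneg_left hk hB0
      _ = c * (b * Real.log n) := by ring
      _ ≤ c * (s n * n) := mul_le_mul_of_nonneg_left hBl' hc0.le
  have e2 : 1024 * (k : ℝ) * n ≤ c * Real.log n * n := mul_le_mul_of_nonneg_right hk hN0.le
  have e3 : c * Real.log n * n ≤ ε / 16 * (s n * n) := by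
    have := mul_le_mul_of_nonneg_right hs2' hN0.le
    linarith
  have e4 : c * Real.log n * n ≤ a / 128 * (s n * n) := by
    have := mul_le_mul_of_nonneg_right hs3' hN0.le
    linarith
  refine ⟨?_, ?_, ?_, ?_⟩
  · have f1 : Real.log (n / ⌈ε / 16 * (n : ℝ)⌉₊) ≤ Real.log (16 / ε) := by
      apply Real.log_le_log (by positivity)
      rw [div_le_div_iff₀ hm3 h0]
      linarith
    exact asymM2_one h0 hN0 hS0 hB0 hca hlM hn1 hm2 hBl hBl' e1 (e2.trans e3) f1
  · have f1 := mul_le_mul_of_nonneg_right e1 hN0.le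
    have f2 : c * ((s n : ℝ) * n) * n = a * n / 8 * (β * (s n * n)) := by rw [hc]; ring
    have f3 : 2 * (b * (1024 * (k : ℝ) * n)) = 2 * (b * (1024 * (k : ℝ)) * n) := by ring
    have f4 : a * n / 4 * (β * ((s n : ℝ) * n)) = 2 * (a * n / 8 * (β * (s n * n))) := by ring
    rw [f3, f4, ← f2]
    linarith
  · exact asymM2_three hβ hn2 hS0 (by linarith) (by linarith) (e2.trans e4)
  · have hG0 : (0 : ℝ) < g := by linarith
    have f1 : 2 * (s n : ℝ) / g = s n / g + s n / g := by ring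
    rw [f1]
    have f2 : 1 ≤ (s n : ℝ) / g := by
      rw [le_div_iff₀ hG0]
      linarith
    linarith

end Rbc
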