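import Pool.Agent.Lib.Rbc.AsymB
import Pool.Agent.Lib.Rbc.AsymM1
import Pool.Agent.Lib.Rbc.AsymM2

/-! Asymptotic inequalities (collected). -/
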