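import Pool.Agent.Lib.Rbc.Defs

namespace Rbc

open Finset Filter

theorem sum_div_ge (b m : ℕ) :
    (b : ℝ) * Real.log ((m : ℝ) + 1) - m ≤ ((∑ i ∈ Finset.Icc 1 m, b / i : ℕ) : ℝ) := by
  have h1 : ∀ i ∈ Finset.Icc 1 m, (b : ℝ) * ((i : ℝ))⁻¹ - 1 ≤ ((b / i : ℕ) : ℝ) := by
    intro i _
    have := Nat.sub_one_lt_floor ((b : ℝ) / (i : ℝ))
    rw [Nat.floor_div_eq_div] at this
    rw [div_eq_mul_inv] at this
    exact this.le
  have h2 : ∑ i ∈ Finset.Icc 1 m, ((b : ℝ) * ((i : ℝ))⁻¹ - 1) ≤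
      ((∑ i ∈ Finset.Icc 1 m, b / i : ℕ) : ℝ) := by
    push_cast
    exact Finset.sum_le_sum h1
  have h3 : ∑ i ∈ Finset.Icc 1 m, ((b : ℝ) * ((i : ℝ))⁻¹ - 1) =
      (b : ℝ) * (harmonic m : ℝ) - m := by
    rw [Finset.sum_sub_distrib, ← Finset.mul_sum, harmonic_eq_sum_Icc]
    push_cast
    simp
  have h4 : Real.log ((m : ℝ) + 1) ≤ (harmonic m : ℝ) := by
    have := log_add_one_le_harmonic m
    push_cast at this
    exact this
  have h5 : (b : ℝ) * Real.log ((m : ℝ) + 1) ≤ (b : ℝ) * (harmonic m : ℝ) :=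
    mul_le_mul_of_nonneg_left h4 (Nat.cast_nonneg b)
  linarith

/-- Numerical part of Breaker's win. -/
theorem asymB (ε : ℝ) (h0 : 0 < ε) (h1 : ε < 1) :
    ∀ᶠ n : ℕ in atTop, ∀ s b : ℕ, 1 ≤ s → (1 + ε) * (s * n / Real.log n) ≤ b →
      ∃ m : ℕ, 1 ≤ m ∧ 3 * m + 4 ≤ n ∧ s * (2 * m + 1) ≤ b ∧
        s * n ≤ ∑ i ∈ Finset.Icc 1 m, b / i := by
  have hcast : Tendsto (fun n : ℕ => (n : ℝ)) atTop atTop := tendsto_natCast_atTop_atTop
  -- n ^ (-(ε/4)) → 0
  have hneg : Tendsto (fun n : ℕ => (n : ℝ) ^ (-(ε / 4))) atTop (nhds 0) :=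
    (tendsto_rpow_neg_atTop (by linarith : 0 < ε / 4)).comp hcast
  have hlo : ∀ᶠ n : ℕ in atTop, 3 * Real.log n ≤ (n : ℝ) ^ (ε / 4) := by
    have := (isLittleO_log_rpow_atTop (by linarith : 0 < ε / 4)).comp_tendsto hcast
    have h3 := this.bound (by norm_num : (0 : ℝ) < 1 / 3)
    filter_upwards [h3, eventually_ge_atTop 1] with n hn hn1
    simp only [Function.comp] at hn
    rw [Real.norm_of_nonneg (Real.log_nonneg (by exact_mod_cast hn1)),
      Real.norm_of_nonneg (Real.rpow_nonneg (Nat.cast_nonneg n) _)] at hn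
    linarith
  have hlogpos : ∀ᶠ n : ℕ in atTop, 1 ≤ Real.log n :=
    (Real.tendsto_log_atTop.comp hcast).eventually_ge_atTop 1
  have hsmall : ∀ᶠ n : ℕ in atTop, (n : ℝ) ^ (-(ε / 4)) ≤ ε / 8 := by
    have := hneg.eventually (Iio_mem_nhds (by linarith : (0 : ℝ) < ε / 8))
    filter_upwards [this] with n hn
    exact hn.le
  filter_upwards [hlo, hlogpos, hsmall, eventually_ge_atTop 8] with n hn1 hn2 hn3 hn4 s b hs hb
  have hnpos : (0 : ℝ) < n := by
    have : (8 : ℝ) ≤ n := by exact_mod_cast hn4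
    linarith
  have hn8 : (8 : ℝ) ≤ n := by exact_mod_cast hn4
  set y : ℝ := (n : ℝ) ^ (1 - ε / 4) with hy
  have hy1 : y = n * (n : ℝ) ^ (-(ε / 4)) := by
    rw [hy, sub_eq_add_neg, Real.rpow_add hnpos, Real.rpow_one]
  have hy2 : y * (n : ℝ) ^ (ε / 4) = n := by
    rw [hy, ← Real.rpow_add hnpos]
    simp
  have hyge : 1 ≤ y := Real.one_le_rpow (by linarith) (by linarith)
  have hyle : y ≤ ε / 8 * n := by
    rw [hy1]
    calc (n : ℝ) * (n : ℝ) ^ (-(ε / 4)) ≤ n * (ε / 8) :=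
          mul_le_mul_of_nonneg_left hn3 hnpos.le
      _ = ε / 8 * n := by ring
  have hlogy : Real.log y = (1 - ε / 4) * Real.log n := by
    rw [hy, Real.log_rpow hnpos]
  refine ⟨⌊y⌋₊, ?_, ?_, ?_, ?_⟩
  · exact Nat.le_floor (by simpa using hyge)
  · have hm : (⌊y⌋₊ : ℝ) ≤ y := Nat.floor_le (by linarith)
    have : (3 * (⌊y⌋₊ : ℝ) + 4) ≤ n := by
      have h8 : ε / 8 * n ≤ 1 / 8 * n := by
        apply mul_le_mul_of_nonneg_right _ hnpos.le
        linarith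
      nlinarith
    exact_mod_cast this
  · have hm : (⌊y⌋₊ : ℝ) ≤ y := Nat.floor_le (by linarith)
    have hm1 : (1 : ℝ) ≤ ⌊y⌋₊ := by
      have : 1 ≤ ⌊y⌋₊ := Nat.le_floor (by simpa using hyge)
      exact_mod_cast this
    have hspos : (1 : ℝ) ≤ s := by exact_mod_cast hs
    have hy3 : 3 * y ≤ n / Real.log n := by
      rw [le_div_iff₀ (by linarith)]
      calc 3 * y * Real.log n = y * (3 * Real.log n) := by ring
        _ ≤ y * (n : ℝ) ^ (ε / 4) := mul_le_mul_of_nonneg_left hn1 (by linarith)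
        _ = n := hy2
    have hd : (0 : ℝ) ≤ s * n / Real.log n := by positivity
    have : (s : ℝ) * (2 * ⌊y⌋₊ + 1) ≤ b := by
      calc (s : ℝ) * (2 * ⌊y⌋₊ + 1) ≤ s * (3 * y) := by
            apply mul_le_mul_of_nonneg_left _ (by linarith)
            linarith
        _ ≤ s * (n / Real.log n) := mul_le_mul_of_nonneg_left hy3 (by linarith)
        _ = s * n / Real.log n := by ring
        _ ≤ (1 + ε) * (s * n / Real.log n) := by nlinarith
        _ ≤ b := hb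
    exact_mod_cast this
  · have hm : (⌊y⌋₊ : ℝ) ≤ y := Nat.floor_le (by linarith)
    have hmlt : y < (⌊y⌋₊ : ℝ) + 1 := Nat.lt_floor_add_one y
    have hspos : (1 : ℝ) ≤ s := by exact_mod_cast hs
    have key := sum_div_ge b ⌊y⌋₊
    have hlog1 : (1 - ε / 4) * Real.log n ≤ Real.log ((⌊y⌋₊ : ℝ) + 1) := by
      rw [← hlogy]
      exact Real.log_le_log (by linarith) hmlt.le
    have hb0 : (0 : ℝ) ≤ b := Nat.cast_nonneg b
    have h2 : (b : ℝ) * ((1 - ε / 4) * Real.log n) ≤ b * Real.log ((⌊y⌋₊ : ℝ) + 1) :=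
      mul_le_mul_of_nonneg_left hlog1 hb0
    have h3 : (1 + ε) * (1 - ε / 4) * (s * n) ≤ b * ((1 - ε / 4) * Real.log n) := by
      have h4 : (1 + ε) * (s * n / Real.log n) * ((1 - ε / 4) * Real.log n) ≤
          b * ((1 - ε / 4) * Real.log n) := by
        apply mul_le_mul_of_nonneg_right hb
        have : (0 : ℝ) ≤ 1 - ε / 4 := by linarith
        positivity
      have h5 : (1 + ε) * (s * n / Real.log n) * ((1 - ε / 4) * Real.log n) =
          (1 + ε) * (1 - ε / 4) * (s * n) := by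
        have : Real.log n ≠ 0 := by linarith
        field_simp
      linarith
    have hsn : (n : ℝ) ≤ s * n := by nlinarith
    have h6 : (s : ℝ) * n + ε / 2 * (s * n) ≤ (1 + ε) * (1 - ε / 4) * (s * n) := by
      have : 1 + ε / 2 ≤ (1 + ε) * (1 - ε / 4) := by nlinarith
      have h7 : (0 : ℝ) ≤ s * n := by positivity
      nlinarith
    have h8 : (s : ℝ) * n ≤ ((∑ i ∈ Finset.Icc 1 ⌊y⌋₊, b / i : ℕ) : ℝ) := by
      have : y ≤ ε / 2 * (s * n) := by nlinarith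
      linarith
    exact_mod_cast h8

end Rbc
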