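import Pool.Agent.Lib.Rbc.Game

/-! JOB BREAKER: Breaker's strategy (clique of untouched vertices, then the box game). -/

namespace Rbc

open Finset

section brk

variable {α : Type*} [DecidableEq α]

/-- Breaker only has to tell which elements he wants to claim; he claims further elements
arbitrarily. -/
theorem brk_step {W : Finset α → Prop} {b : ℕ} {M R : Finset α} (hR : R.Nonempty)
    (h : ∀ e ∈ R, ∃ T0 ⊆ R.erase e, T0.card ≤ b ∧
      ∀ T, T0 ⊆ T → T ⊆ R.erase e → BreakerWins W b (insert e M) (R.erase e \ T)) :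
    BreakerWins W b M R := by
  have h' : ∀ e : α, ∃ T, e ∈ R → (T ⊆ R.erase e ∧ T.card = min b (R.erase e).card ∧
      BreakerWins W b (insert e M) (R.erase e \ T)) := by
    intro e
    by_cases he : e ∈ R
    · obtain ⟨T0, h1, h2, h3⟩ := h e he
      obtain ⟨T, h4, h5, h6⟩ := Finset.exists_subsuperset_card_eq h1
        (le_min h2 (Finset.card_le_card h1)) (min_le_right b (R.erase e).card)
      exact ⟨T, fun _ => ⟨h5, h6, h3 T h4 h5⟩⟩
    · exact ⟨∅, fun h => absurd h he⟩
  choose σ hσ using h'
  exact BreakerWins.step hR σ (fun e he => ⟨(hσ e he).1, (hσ e he).2.1⟩)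
    (fun e he => (hσ e he).2.2)

end brk

variable {n s : ℕ}

/-- If a vertex is isolated for ever, Breaker wins. -/
theorem brk_isolated (hn : 2 ≤ n) (b : ℕ) (v : Fin n) :
    ∀ (c : ℕ) (M R : Finset (Sym2 (Fin n) × Fin s)), R.card ≤ c → (∀ e ∈ M, v ∉ e.1) →
      (∀ e ∈ R, v ∉ e.1) → BreakerWins (RainbowConnected (n := n) (s := s)) b M R := by
  intro c
  induction c with
  | zero =>
    intro M R hc hM _
    have : R = ∅ := Finset.card_eq_zero.1 (Nat.le_zero.1 hc)
    subst this
    exact BreakerWins.done (not_rainbowConnected hn v hM)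
  | succ c ih =>
    intro M R hc hM hR
    rcases R.eq_empty_or_nonempty with rfl | hne
    · exact BreakerWins.done (not_rainbowConnected hn v hM)
    refine brk_step hne fun e he => ⟨∅, Finset.empty_subset _, Nat.zero_le _, ?_⟩
    intro T _ hT
    have hsub : R.erase e \ T ⊆ R := Finset.sdiff_subset.trans (Finset.erase_subset _ _)
    refine ih _ _ ?_ ?_ fun f hf => hR f (hsub hf)
    · have h1 : (R.erase e \ T).card ≤ (R.erase e).card := Finset.card_le_card Finset.sdiff_subset
      have h2 := Finset.card_erase_of_mem he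
      omega
    · intro f hf
      rcases Finset.mem_insert.1 hf with rfl | hf
      · exact hR _ he
      · exact hM f hf

/-- The vertices of `C` are not touched by `M`, and every edge of `R` touches at most one of them. -/
def BrkInv (C : Finset (Fin n)) (M R : Finset (Sym2 (Fin n) × Fin s)) : Prop :=
  (∀ e ∈ M, ∀ v ∈ C, v ∉ e.1) ∧
    ∀ e ∈ R, ∀ u ∈ C, ∀ v ∈ C, u ∈ e.1 → v ∈ e.1 → u = v

theorem brk_touch {C : Finset (Fin n)} {M R : Finset (Sym2 (Fin n) × Fin s)}
    (h : BrkInv C M R) {e : Sym2 (Fin n) × Fin s} (he : e ∈ R) :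
    C.card ≤ (C.filter fun v => v ∉ e.1).card + 1 := by
  have h1 : (C.filter fun v => v ∈ e.1).card ≤ 1 := by
    rw [Finset.card_le_one]
    intro u hu v hv
    rw [Finset.mem_filter] at hu hv
    exact h.2 e he u hu.1 v hv.1 hu.2 hv.2
  have h2 := Finset.card_filter_add_card_filter_not (s := C) (fun v => v ∈ e.1)
  omega

/-- The box game. -/
theorem brk_box (hn : 2 ≤ n) (b : ℕ) :
    ∀ (j : ℕ) (C : Finset (Fin n)) (M R : Finset (Sym2 (Fin n) × Fin s)), C.card = j + 1 →
      BrkInv C M R →
      (∀ v ∈ C, (R.filter fun e => v ∈ e.1).card ≤ ∑ i ∈ Finset.Icc 1 j, b / i) →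
      BreakerWins (RainbowConnected (n := n) (s := s)) b M R := by
  intro j
  induction j with
  | zero =>
    intro C M R hC hI hd
    obtain ⟨v, rfl⟩ := Finset.card_eq_one.1 hC
    refine brk_isolated hn b v _ M R le_rfl (fun e he => hI.1 e he v (Finset.mem_singleton_self v))
      ?_
    intro e he hv
    have h1 := hd v (Finset.mem_singleton_self v)
    have h2 : (R.filter fun e => v ∈ e.1).card = 0 := by simpa using h1
    have h3 := Finset.card_eq_zero.1 h2
    have h4 : e ∈ R.filter fun e => v ∈ e.1 := Finset.mem_filter.2 ⟨he, hv⟩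
    rw [h3] at h4
    exact absurd h4 (Finset.notMem_empty e)
  | succ j ih =>
    intro C M R hC hI hd
    rcases R.eq_empty_or_nonempty with rfl | hne
    · obtain ⟨v, hv⟩ : C.Nonempty := by
        rw [← Finset.card_pos]
        omega
      exact BreakerWins.done (not_rainbowConnected hn v fun e he => hI.1 e he v hv)
    refine brk_step hne fun e he => ?_
    have h1 := brk_touch hI he
    obtain ⟨C', hC'1, hC'2⟩ := Finset.exists_subset_card_eq
      (show j + 1 ≤ (C.filter fun v => v ∉ e.1).card by omega)
    have hS : ∀ v : Fin n, ∃ S ⊆ (R.erase e).filter fun f => v ∈ f.1,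
        S.card = min (b / (j + 1)) ((R.erase e).filter fun f => v ∈ f.1).card := fun v =>
      Finset.exists_subset_card_eq (min_le_right _ _)
    choose S hS1 hS2 using hS
    refine ⟨C'.biUnion S, ?_, ?_, ?_⟩
    · intro f hf
      obtain ⟨v, _, hfv⟩ := Finset.mem_biUnion.1 hf
      exact (Finset.mem_filter.1 (hS1 v hfv)).1
    · have h2 : (C'.biUnion S).card ≤ C'.card * (b / (j + 1)) :=
        Finset.card_biUnion_le_card_mul _ _ _ fun v _ => by
          rw [hS2]
          exact min_le_left _ _
      rw [hC'2] at h2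
      exact h2.trans (Nat.mul_div_le b (j + 1))
    · intro T hT0 hT
      have hsub : R.erase e \ T ⊆ R := Finset.sdiff_subset.trans (Finset.erase_subset _ _)
      refine ih C' _ _ hC'2 ⟨?_, ?_⟩ ?_
      · intro f hf v hv
        have hv' := Finset.mem_filter.1 (hC'1 hv)
        rcases Finset.mem_insert.1 hf with rfl | hf
        · exact hv'.2
        · exact hI.1 f hf v hv'.1
      · intro f hf u hu v hv
        exact hI.2 f (hsub hf) u (Finset.mem_filter.1 (hC'1 hu)).1 v
          (Finset.mem_filter.1 (hC'1 hv)).1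
      · intro v hv
        have hvC := (Finset.mem_filter.1 (hC'1 hv)).1
        have h3 : ((R.erase e \ T).filter fun f => v ∈ f.1) ⊆
            ((R.erase e).filter fun f => v ∈ f.1) \ S v := by
          intro f hf
          rw [Finset.mem_filter, Finset.mem_sdiff] at hf
          rw [Finset.mem_sdiff, Finset.mem_filter]
          refine ⟨⟨hf.1.1, hf.2⟩, fun hfS => hf.1.2 (hT0 (Finset.mem_biUnion.2 ⟨v, hv, hfS⟩))⟩
        have h4 := Finset.card_le_card h3
        rw [Finset.card_sdiff_of_subset (hS1 v), hS2] at h4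
        have h5 : ((R.erase e).filter fun f => v ∈ f.1).card ≤ (R.filter fun f => v ∈ f.1).card :=
          Finset.card_le_card (Finset.filter_subset_filter _ (Finset.erase_subset _ _))
        have h6 := hd v hvC
        rw [Finset.sum_Icc_succ_top (by omega)] at h6
        omega

theorem brk_degree (R : Finset (Sym2 (Fin n) × Fin s)) (v : Fin n) :
    (R.filter fun e => v ∈ e.1).card ≤ s * n := by
  have h1 : (R.filter fun e => v ∈ e.1) ⊆
      (Finset.univ : Finset (Fin n × Fin s)).image fun p => (s(v, p.1), p.2) := by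
    intro e he
    rw [Finset.mem_filter] at he
    obtain ⟨w, hw⟩ := he.2
    rw [Finset.mem_image]
    exact ⟨(w, e.2), Finset.mem_univ _, Prod.ext hw.symm rfl⟩
  refine (Finset.card_le_card h1).trans (Finset.card_image_le.trans ?_)
  rw [Finset.card_univ, Fintype.card_prod, Fintype.card_fin, Fintype.card_fin, Nat.mul_comm]

theorem brk_touched (M : Finset (Sym2 (Fin n) × Fin s)) :
    (M.biUnion fun e => Finset.univ.filter fun v => v ∈ e.1).card ≤ M.card * 2 := by
  refine Finset.card_biUnion_le_card_mul _ _ _ fun e _ => ?_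
  obtain ⟨e1, c⟩ := e
  induction e1 with
  | _ a b =>
    have h1 : (Finset.univ.filter fun v => v ∈ s(a, b)) ⊆ {a, b} := by
      intro v hv
      rw [Finset.mem_filter, Sym2.mem_iff] at hv
      rw [Finset.mem_insert, Finset.mem_singleton]
      exact hv.2
    exact (Finset.card_le_card h1).trans Finset.card_le_two

/-- The first stage: building a set of untouched vertices. -/
theorem brk_build {m b : ℕ} (hn : 3 * m + 4 ≤ n) (h1 : s * (2 * m + 1) ≤ b)
    (h2 : s * n ≤ ∑ i ∈ Finset.Icc 1 m, b / i) :
    ∀ (k t : ℕ) (C : Finset (Fin n)) (M R : Finset (Sym2 (Fin n) × Fin s)), t + k = m + 1 →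
      M.card ≤ t → C.card = t → BrkInv C M R → (t = 0 → R.Nonempty) →
      BreakerWins (RainbowConnected (n := n) (s := s)) b M R := by
  intro k
  induction k with
  | zero =>
    intro t C M R ht _ hC hI _
    exact brk_box (by omega) b m C M R (by omega) hI fun v _ => (brk_degree R v).trans h2
  | succ k ih =>
    intro t C M R ht hM hC hI h0
    rcases R.eq_empty_or_nonempty with rfl | hne
    · have ht0 : t ≠ 0 := fun h => absurd (h0 h) Finset.not_nonempty_empty
      obtain ⟨v, hv⟩ : C.Nonempty := by
        rw [← Finset.card_pos]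
        omega
      exact BreakerWins.done (not_rainbowConnected (by omega) v fun e he => hI.1 e he v hv)
    refine brk_step hne fun e he => ?_
    have h3 := brk_touch hI he
    set C' := C.filter fun v => v ∉ e.1 with hC'
    have h4 : C'.card ≤ t := hC ▸ Finset.card_filter_le _ _
    set U := (insert e M).biUnion fun e => Finset.univ.filter fun v => v ∈ e.1 with hU
    have h5 : U.card ≤ (t + 1) * 2 := by
      refine (brk_touched (insert e M)).trans ?_
      have := Finset.card_insert_le e M
      exact Nat.mul_le_mul_right 2 (by omega)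
    have h6 : 1 < (U ∪ C')ᶜ.card := by
      rw [Finset.card_compl, Fintype.card_fin]
      have := Finset.card_union_le U C'
      omega
    obtain ⟨x, hx, y, hy, hxy⟩ := Finset.one_lt_card.1 h6
    rw [Finset.mem_compl, Finset.mem_union, not_or] at hx hy
    have hU' : ∀ z, z ∉ U → ∀ f ∈ insert e M, z ∉ f.1 := by
      intro z hz f hf hzf
      exact hz (Finset.mem_biUnion.2 ⟨f, hf, Finset.mem_filter.2 ⟨Finset.mem_univ _, hzf⟩⟩)
    have h7 : (insert x (insert y C')).card = C'.card + 2 := by
      rw [Finset.card_insert_of_notMem, Finset.card_insert_of_notMem hy.2]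
      rw [Finset.mem_insert, not_or]
      exact ⟨hxy, hx.2⟩
    obtain ⟨D, hD1, hD2⟩ := Finset.exists_subset_card_eq
      (show t + 1 ≤ (insert x (insert y C')).card by omega)
    set T0 := (R.erase e).filter fun f => ∃ u ∈ D, ∃ v ∈ D, u ≠ v ∧ u ∈ f.1 ∧ v ∈ f.1 with hT0
    refine ⟨T0, Finset.filter_subset _ _, ?_, ?_⟩
    · -- the number of edges which Breaker has to claim
      have h8 : T0 ⊆ ((insert y C').image (fun w => s(x, w)) ∪ C'.image (fun w => s(y, w))) ×ˢ
          (Finset.univ : Finset (Fin s)) := by
        intro f hf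
        rw [hT0, Finset.mem_filter] at hf
        obtain ⟨hf1, u, hu, v, hv, huv, huf, hvf⟩ := hf
        have hfe : f.1 = s(u, v) := ((Sym2.mem_and_mem_iff huv).1 ⟨huf, hvf⟩)
        rw [Finset.mem_product]
        refine ⟨?_, Finset.mem_univ _⟩
        rw [Finset.mem_union, Finset.mem_image, Finset.mem_image, hfe]
        have hu' := hD1 hu
        have hv' := hD1 hv
        rw [Finset.mem_insert, Finset.mem_insert] at hu' hv'
        rcases hu' with rfl | rfl | hu'
        · rcases hv' with rfl | rfl | hv'
          · exact absurd rfl huv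
          · exact Or.inl ⟨v, Finset.mem_insert_self _ _, rfl⟩
          · exact Or.inl ⟨v, Finset.mem_insert_of_mem hv', rfl⟩
        · rcases hv' with rfl | rfl | hv'
          · exact Or.inl ⟨u, Finset.mem_insert_self _ _, Sym2.eq_swap⟩
          · exact absurd rfl huv
          · exact Or.inr ⟨v, hv', rfl⟩
        · rcases hv' with rfl | rfl | hv'
          · exact Or.inl ⟨u, Finset.mem_insert_of_mem hu', Sym2.eq_swap⟩
          · exact Or.inr ⟨u, hu', Sym2.eq_swap⟩
          · exact absurd (hI.2 f (Finset.mem_of_mem_erase hf1) u (Finset.mem_filter.1 hu').1 v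
              (Finset.mem_filter.1 hv').1 huf hvf) huv
      have h9 := Finset.card_le_card h8
      rw [Finset.card_product, Finset.card_univ, Fintype.card_fin] at h9
      have h10 := Finset.card_union_le ((insert y C').image (fun w => s(x, w)))
        (C'.image (fun w => s(y, w)))
      have h11 : ((insert y C').image (fun w => s(x, w))).card ≤ (insert y C').card :=
        Finset.card_image_le
      have h12 : (C'.image (fun w => s(y, w))).card ≤ C'.card := Finset.card_image_le
      have h13 := Finset.card_insert_le y C'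
      refine h9.trans (le_trans ?_ h1)
      rw [Nat.mul_comm]
      exact Nat.mul_le_mul_left s (by omega)
    · intro T hT0T _
      have hsub : R.erase e \ T ⊆ R.erase e := Finset.sdiff_subset
      refine ih (t + 1) D _ _ (by omega) ?_ hD2 ⟨?_, ?_⟩ (fun h => absurd h (Nat.succ_ne_zero t))
      · have := Finset.card_insert_le e M
        omega
      · intro f hf v hv
        have hv' := hD1 hv
        rw [Finset.mem_insert, Finset.mem_insert] at hv'
        rcases hv' with rfl | rfl | hv'
        · exact hU' _ hx.1 f hf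
        · exact hU' _ hy.1 f hf
        · rcases Finset.mem_insert.1 hf with rfl | hf
          · exact (Finset.mem_filter.1 hv').2
          · exact hI.1 f hf v (Finset.mem_filter.1 hv').1
      · intro f hf u hu v hv huf hvf
        by_contra huv
        have : f ∈ T0 := Finset.mem_filter.2 ⟨hsub hf, u, hu, v, hv, huv, huf, hvf⟩
        exact (Finset.mem_sdiff.1 hf).2 (hT0T this)

/-- Breaker wins if `b` is large: he first builds a set `C` of `m + 1` vertices untouched by Maker
all of whose inner edges are his, and then isolates a vertex of `C` (box game). -/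
theorem breaker_wins {n s m b : ℕ} (hm : 1 ≤ m) (hn : 3 * m + 4 ≤ n) (hs : 1 ≤ s)
    (h1 : s * (2 * m + 1) ≤ b) (h2 : s * n ≤ ∑ i ∈ Finset.Icc 1 m, b / i) :
    BreakerWinsGame n s b := by
  refine brk_build hn h1 h2 (m + 1) 0 ∅ ∅ (board n s) (by omega) (by simp) (by simp)
    ⟨by simp, by simp⟩ ?_
  intro _
  have h3 : (⟨0, by omega⟩ : Fin n) ≠ ⟨1, by omega⟩ := by simp
  refine ⟨(s(⟨0, by omega⟩, ⟨1, by omega⟩), ⟨0, by omega⟩), ?_⟩
  rw [board, Finset.mem_filter]
  exact ⟨Finset.mem_univ _, fun h => h3 (Sym2.mk_isDiag_iff.1 h)⟩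

end Rbc
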