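import Pool.Agent.Lib.Rbc.Defs

/-! JOB CHERNOFF: a random partition of the colour groups into three classes. -/

namespace Rbc

open Finset

private theorem exp_neg_le {x : ℝ} (hx : 0 ≤ x) : Real.exp (-x) ≤ 1 - x + x ^ 2 / 2 := by
  have h := Real.quadratic_le_exp_of_nonneg hx
  have hpos : 0 < 1 + x + x ^ 2 / 2 := by positivity
  rw [Real.exp_neg]
  calc (Real.exp x)⁻¹ ≤ (1 + x + x ^ 2 / 2)⁻¹ := inv_anti₀ hpos h
    _ ≤ 1 - x + x ^ 2 / 2 := by
      rw [inv_le_iff_one_le_mul₀ hpos]
      nlinarith [sq_nonneg (x ^ 2)]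

private theorem two_add_le {x : ℝ} (hx : 0 ≤ x) :
    2 + Real.exp (-x) ≤ 3 * Real.exp (-x / 3 + x ^ 2 / 6) := by
  have h := exp_neg_le hx
  have h2 := Real.add_one_le_exp (-x / 3 + x ^ 2 / 6)
  linarith

/-- Chernoff-type bound, by counting. -/
theorem chernoff_count {Γ : Type*} [Fintype Γ] [DecidableEq Γ] (a : Γ → ℝ) (m S t lam : ℝ)
    (ha0 : ∀ f, 0 ≤ a f) (ham : ∀ f, a f ≤ m) (hS : ∑ f, a f = S) (hlam : 0 ≤ lam) (j : Fin 3) :
    (((univ : Finset (Γ → Fin 3)).filter
      fun χ => ∑ f ∈ univ.filter (fun f => χ f = j), a f < t).card : ℝ) ≤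
      3 ^ (Fintype.card Γ) * Real.exp (lam * t - lam * S / 3 + lam ^ 2 * m * S / 6) := by
  have h1 : (((univ : Finset (Γ → Fin 3)).filter
      fun χ => ∑ f ∈ univ.filter (fun f => χ f = j), a f < t).card : ℝ) ≤
      ∑ χ : Γ → Fin 3, Real.exp (lam * (t - ∑ f ∈ univ.filter (fun f => χ f = j), a f)) := by
    rw [card_eq_sum_ones, Nat.cast_sum]
    calc (∑ χ ∈ (univ : Finset (Γ → Fin 3)).filter
          (fun χ => ∑ f ∈ univ.filter (fun f => χ f = j), a f < t), ((1 : ℕ) : ℝ))
        ≤ ∑ χ ∈ (univ : Finset (Γ → Fin 3)).filter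
          (fun χ => ∑ f ∈ univ.filter (fun f => χ f = j), a f < t),
          Real.exp (lam * (t - ∑ f ∈ univ.filter (fun f => χ f = j), a f)) := by
          refine sum_le_sum fun χ hχ => ?_
          rw [mem_filter] at hχ
          rw [Nat.cast_one]
          exact Real.one_le_exp (mul_nonneg hlam (by linarith [hχ.2]))
      _ ≤ _ := sum_le_sum_of_subset_of_nonneg (filter_subset _ _)
          (fun _ _ _ => (Real.exp_pos _).le)
  have h2 : ∑ χ : Γ → Fin 3, Real.exp (lam * (t - ∑ f ∈ univ.filter (fun f => χ f = j), a f)) =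
      Real.exp (lam * t) * ∏ f : Γ, (2 + Real.exp (-(lam * a f))) := by
    have h3 : ∀ f : Γ, (2 + Real.exp (-(lam * a f))) =
        ∑ c : Fin 3, (if c = j then Real.exp (-(lam * a f)) else 1) := by
      intro f
      fin_cases j <;> simp [Fin.sum_univ_three] <;> ring
    simp only [h3]
    rw [Finset.prod_univ_sum, Fintype.piFinset_univ, mul_sum]
    refine sum_congr rfl fun χ _ => ?_
    rw [mul_sub, sub_eq_add_neg, Real.exp_add]
    congr 1
    rw [prod_ite, prod_const_one, mul_one, ← Real.exp_sum]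
    congr 1
    rw [← mul_neg, ← sum_neg_distrib, mul_sum]
    refine sum_congr rfl fun f _ => ?_
    ring
  have h4 : ∏ f : Γ, (2 + Real.exp (-(lam * a f))) ≤
      ∏ f : Γ, (3 * Real.exp (-(lam * a f) / 3 + (lam * a f) ^ 2 / 6)) := by
    refine prod_le_prod (fun f _ => by positivity) fun f _ => ?_
    exact two_add_le (mul_nonneg hlam (ha0 f))
  have h5 : ∏ f : Γ, (3 * Real.exp (-(lam * a f) / 3 + (lam * a f) ^ 2 / 6)) =
      3 ^ (Fintype.card Γ) * Real.exp (∑ f, (-(lam * a f) / 3 + (lam * a f) ^ 2 / 6)) := by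
    rw [prod_mul_distrib, prod_const, card_univ, Real.exp_sum]
  have h6 : ∑ f, (-(lam * a f) / 3 + (lam * a f) ^ 2 / 6) ≤
      - (lam * S / 3) + lam ^ 2 * m * S / 6 := by
    have h7 : ∀ f, (-(lam * a f) / 3 + (lam * a f) ^ 2 / 6) ≤
        (- (lam / 3) + lam ^ 2 * m / 6) * a f := by
      intro f
      have h8 : a f ^ 2 ≤ m * a f := by
        rw [sq]; exact mul_le_mul_of_nonneg_right (ham f) (ha0 f)
      have h9 : lam ^ 2 * a f ^ 2 ≤ lam ^ 2 * (m * a f) :=
        mul_le_mul_of_nonneg_left h8 (sq_nonneg _)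
      nlinarith
    calc _ ≤ ∑ f, (- (lam / 3) + lam ^ 2 * m / 6) * a f := sum_le_sum fun f _ => h7 f
      _ = _ := by rw [← mul_sum, hS]; ring
  calc _ ≤ _ := h1
    _ = Real.exp (lam * t) * ∏ f : Γ, (2 + Real.exp (-(lam * a f))) := h2
    _ ≤ Real.exp (lam * t) * (3 ^ (Fintype.card Γ) *
        Real.exp (- (lam * S / 3) + lam ^ 2 * m * S / 6)) := by
        refine mul_le_mul_of_nonneg_left ?_ (Real.exp_pos _).le
        rw [h5] at h4
        exact h4.trans (mul_le_mul_of_nonneg_left (Real.exp_le_exp.2 h6) (by positivity))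
    _ = _ := by
        have e : lam * t - lam * S / 3 + lam ^ 2 * m * S / 6 =
          lam * t + (- (lam * S / 3) + lam ^ 2 * m * S / 6) := by ring
        rw [e, Real.exp_add (lam * t)]
        exact mul_left_comm _ _ _

variable {n s g D : ℕ}

/-- The end of the walk coded by a list (the head is the last step). -/
def endp (pk : Fin n → Fin D → Fin n × Fin s) (u : Fin n) : List (Fin D) → Fin n
  | [] => u
  | i :: w => (pk (endp pk u w) i).1

/-- The set of colour groups used by the walk coded by a list. -/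
def grps (pk : Fin n → Fin D → Fin n × Fin s) (grp : Fin s → Fin g) (u : Fin n) :
    List (Fin D) → Finset (Fin g)
  | [] => ∅
  | i :: w => insert (grp (pk (endp pk u w) i).2) (grps pk grp u w)

/-- The number of picks at the end of the walk whose group is not used by the walk and belongs to
the class `j` of the partition `χ`. -/
def freeDeg (pk : Fin n → Fin D → Fin n × Fin s) (grp : Fin s → Fin g) (χ : Fin g → Fin 3)
    (j : Fin 3) (u : Fin n) (w : List (Fin D)) : ℕ :=
  ((univ : Finset (Fin D)).filter fun i =>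
    grp (pk (endp pk u w) i).2 ∉ grps pk grp u w ∧ χ (grp (pk (endp pk u w) i).2) = j).card

/-- The number of walks of length `l` with small free degree. -/
noncomputable def unb (k : ℕ) (pk : Fin n → Fin (1024 * k) → Fin n × Fin s) (grp : Fin s → Fin g)
    (χ : Fin g → Fin 3) (j : Fin 3) (u : Fin n) (l : ℕ) : ℕ :=
  ((univ : Finset (List.Vector (Fin (1024 * k)) l)).filter fun w =>
    freeDeg pk grp χ j u w.toList < 256 * k).card

private theorem grps_card_le (pk : Fin n → Fin D → Fin n × Fin s) (grp : Fin s → Fin g)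
    (u : Fin n) (w : List (Fin D)) : (grps pk grp u w).card ≤ w.length := by
  induction w with
  | nil => simp [grps]
  | cons i w ih =>
    rw [grps, List.length_cons]
    exact (card_insert_le _ _).trans (Nat.succ_le_succ ih)

/-- the number of bad partitions for one walk -/
private theorem bad_count {k L : ℕ} (hk : 1 ≤ k) (hL : 1 ≤ L) (grp : Fin s → Fin g)
    (q : Fin (1024 * k) → Fin n × Fin s)
    (Q : ∀ F : Finset (Fin g), F.card ≤ L → (univ.filter fun i => grp (q i).2 ∈ F).card < k)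
    (U : Finset (Fin g)) (hU : U.card ≤ L) (j : Fin 3) :
    (((univ : Finset (Fin g → Fin 3)).filter fun χ =>
      ((univ : Finset (Fin (1024 * k))).filter fun i =>
        grp (q i).2 ∉ U ∧ χ (grp (q i).2) = j).card < 256 * k).card : ℝ) ≤
      3 ^ g * Real.exp (-(21 / 2) * L) := by
  classical
  set cnt : Fin g → ℕ := fun f => (univ.filter fun i => grp (q i).2 = f).card with hcnt
  have hfib : ∀ F : Finset (Fin g),
      (univ.filter fun i => grp (q i).2 ∈ F).card = ∑ f ∈ F, cnt f := by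
    intro F
    rw [card_eq_sum_card_fiberwise (f := fun i => grp (q i).2) (t := F)
      (fun i hi => by simpa using hi)]
    refine sum_congr rfl fun f hf => ?_
    rw [hcnt]
    congr 1
    ext i
    simp only [mem_filter, mem_univ, true_and]
    constructor
    · exact fun h => h.2
    · intro h; exact ⟨h ▸ hf, h⟩
  have htot : ∑ f, cnt f = 1024 * k := by
    rw [← hfib univ]
    simp
  set Big : Finset (Fin g) := univ.filter fun f => k ≤ L * cnt f with hBig
  have hBigc : Big.card ≤ L := by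
    by_contra hcon
    push Not at hcon
    obtain ⟨F, hF, hFc⟩ := exists_subset_card_eq hcon.le
    have h1 := Q F hFc.le
    rw [hfib F] at h1
    have h2 : L * k ≤ L * ∑ f ∈ F, cnt f := by
      rw [mul_sum, ← hFc, ← smul_eq_mul, ← sum_const]
      refine sum_le_sum fun f hf => ?_
      have h3 := (mem_filter.1 (hF hf)).2
      rw [hFc]
      exact h3
    exact absurd (Nat.le_of_mul_le_mul_left h2 hL) (not_le.2 h1)
  have hBs : ∑ f ∈ Big, cnt f < k := by rw [← hfib]; exact Q _ hBigc
  have hUs : ∑ f ∈ U, cnt f < k := by rw [← hfib]; exact Q _ hU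
  set a : Fin g → ℝ := fun f => if f ∈ U ∪ Big then 0 else (cnt f : ℝ) with ha
  have ha0 : ∀ f, 0 ≤ a f := by
    intro f
    rw [ha]
    dsimp only
    split_ifs
    · exact le_rfl
    · exact Nat.cast_nonneg _
  have hLpos : (0 : ℝ) < L := by exact_mod_cast hL
  have hkpos : (0 : ℝ) < k := by exact_mod_cast hk
  have ham : ∀ f, a f ≤ (k : ℝ) / L := by
    intro f
    rw [ha]
    dsimp only
    split_ifs with h
    · positivity
    · have h1 : ¬ k ≤ L * cnt f := fun h2 => h (mem_union_right _ (mem_filter.2 ⟨mem_univ _, h2⟩))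
      push Not at h1
      rw [le_div_iff₀ hLpos, mul_comm]
      exact_mod_cast h1.le
  have hSge : (1022 : ℝ) * k ≤ ∑ f, a f := by
    have h1 : ∑ f, a f + ∑ f ∈ U ∪ Big, (cnt f : ℝ) = 1024 * k := by
      have h2 : (∑ f, (cnt f : ℝ)) = 1024 * k := by exact_mod_cast htot
      rw [← h2, ← sum_compl_add_sum (U ∪ Big) (fun f => (cnt f : ℝ))]
      congr 1
      rw [← sum_compl_add_sum (U ∪ Big) a]
      have h3 : ∑ f ∈ U ∪ Big, a f = 0 := sum_eq_zero fun f hf => by
        rw [ha]; dsimp only; rw [if_pos hf]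
      rw [h3, add_zero]
      refine sum_congr rfl fun f hf => ?_
      rw [ha]
      dsimp only
      rw [if_neg (mem_compl.1 hf)]
    have h2 : ∑ f ∈ U ∪ Big, (cnt f : ℝ) ≤ 2 * k := by
      have h3 : ∑ f ∈ U ∪ Big, cnt f ≤ ∑ f ∈ U, cnt f + ∑ f ∈ Big, cnt f := by
        rw [← sum_union_inter]
        exact Nat.le_add_right _ _
      have h4 : ∑ f ∈ U ∪ Big, cnt f ≤ 2 * k := by omega
      exact_mod_cast h4
    linarith
  have hch := chernoff_count a ((k : ℝ) / L) (∑ f, a f) (256 * k) (L / (4 * k)) ha0 ham rfl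
    (by positivity) j
  rw [Fintype.card_fin] at hch
  have hsub : ((univ : Finset (Fin g → Fin 3)).filter fun χ =>
      ((univ : Finset (Fin (1024 * k))).filter fun i =>
        grp (q i).2 ∉ U ∧ χ (grp (q i).2) = j).card < 256 * k) ⊆
      (univ : Finset (Fin g → Fin 3)).filter
        fun χ => ∑ f ∈ univ.filter (fun f => χ f = j), a f < 256 * k := by
    intro χ hχ
    rw [mem_filter] at hχ ⊢
    refine ⟨mem_univ _, ?_⟩
    have h1 : ((univ : Finset (Fin (1024 * k))).filter fun i =>
        grp (q i).2 ∉ U ∧ χ (grp (q i).2) = j) =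
        (univ.filter fun i => grp (q i).2 ∈ (univ.filter fun f => f ∉ U ∧ χ f = j)) := by
      ext i; simp
    have h2 := hχ.2
    rw [h1, hfib] at h2
    have h3 : ∑ f ∈ univ.filter (fun f => χ f = j), a f ≤
        ((∑ f ∈ univ.filter (fun f => f ∉ U ∧ χ f = j), cnt f : ℕ) : ℝ) := by
      rw [Nat.cast_sum]
      have h4 : univ.filter (fun f => f ∉ U ∧ χ f = j) =
          (univ.filter (fun f => χ f = j)).filter (fun f => f ∉ U) := by
        ext f; simp [and_comm]
      rw [h4, sum_filter (s := univ.filter (fun f => χ f = j))]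
      refine sum_le_sum fun f _ => ?_
      rw [ha]
      dsimp only
      by_cases h6 : f ∈ U
      · rw [if_pos (mem_union_left _ h6), if_neg (not_not.2 h6)]
      · rw [if_pos h6]
        split_ifs with h5
        · exact Nat.cast_nonneg _
        · exact le_rfl
    calc _ ≤ _ := h3
      _ < ((256 * k : ℕ) : ℝ) := by exact_mod_cast h2
      _ = _ := by push_cast; ring
  refine (Nat.cast_le.2 (card_le_card hsub)).trans (hch.trans ?_)
  refine mul_le_mul_of_nonneg_left (Real.exp_le_exp.2 ?_) (by positivity)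
  set S := ∑ f, a f with hS
  have e1 : (L : ℝ) / (4 * k) * (256 * k) = 64 * L := by field_simp; ring
  have e2 : ((L : ℝ) / (4 * k)) ^ 2 * (k / L) * S / 6 = L / (96 * k) * S := by
    field_simp; ring
  rw [e1, e2]
  have e3 : 64 * (L : ℝ) - L / (4 * k) * S / 3 + L / (96 * k) * S =
      64 * L - 7 * L / (96 * k) * S := by field_simp; ring
  rw [e3]
  have e4 : 7 * (L : ℝ) / (96 * k) * (1022 * k) ≤ 7 * L / (96 * k) * S :=
    mul_le_mul_of_nonneg_left hSge (by positivity)
  have e5 : 7 * (L : ℝ) / (96 * k) * (1022 * k) = 7 * 1022 / 96 * L := by field_simp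
  rw [e5] at e4
  linarith

/-- the number of partitions which are bad for the walks of length `l` -/
private theorem bad_count_l {k L : ℕ} (hk : 1 ≤ k) (hL : 1 ≤ L)
    (grp : Fin s → Fin g) (pk : Fin n → Fin (1024 * k) → Fin n × Fin s)
    (Q : ∀ x, ∀ F : Finset (Fin g), F.card ≤ L →
      (univ.filter fun i => grp (pk x i).2 ∈ F).card < k) (u : Fin n) (j : Fin 3) {l : ℕ}
    (hl : l < L) :
    (((univ : Finset (Fin g → Fin 3)).filter fun χ =>
      (8 * k) ^ l < 2 * unb k pk grp χ j u l).card : ℝ) ≤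
      2 * 128 ^ l * (3 ^ g * Real.exp (-(21 / 2) * L)) := by
  classical
  have hkpos : (0 : ℝ) < k := by exact_mod_cast hk
  -- double counting
  have h1 : (∑ χ : Fin g → Fin 3, (unb k pk grp χ j u l : ℝ)) ≤
      (1024 * k) ^ l * (3 ^ g * Real.exp (-(21 / 2) * L)) := by
    have e1 : (∑ χ : Fin g → Fin 3, (unb k pk grp χ j u l : ℝ)) =
        ∑ w : List.Vector (Fin (1024 * k)) l,
          (((univ : Finset (Fin g → Fin 3)).filter fun χ =>
            freeDeg pk grp χ j u w.toList < 256 * k).card : ℝ) := by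
      simp only [unb, card_filter, Nat.cast_sum]
      rw [sum_comm]
    rw [e1]
    calc _ ≤ ∑ _w : List.Vector (Fin (1024 * k)) l, (3 ^ g * Real.exp (-(21 / 2) * L)) := by
          refine sum_le_sum fun w _ => ?_
          refine bad_count hk hL grp (pk (endp pk u w.toList)) (Q _)
            (grps pk grp u w.toList) ?_ j
          refine (grps_card_le pk grp u w.toList).trans ?_
          rw [List.Vector.toList_length]
          exact hl.le
      _ = _ := by
          rw [sum_const, card_univ, card_vector, Fintype.card_fin, nsmul_eq_mul]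
          push_cast
          ring
  -- Markov
  have h2 : (((univ : Finset (Fin g → Fin 3)).filter fun χ =>
      (8 * k) ^ l < 2 * unb k pk grp χ j u l).card : ℝ) * (8 * k) ^ l ≤
      2 * ∑ χ : Fin g → Fin 3, (unb k pk grp χ j u l : ℝ) := by
    rw [mul_sum, ← nsmul_eq_mul, ← sum_const]
    calc _ ≤ ∑ χ ∈ (univ : Finset (Fin g → Fin 3)).filter fun χ =>
          (8 * k) ^ l < 2 * unb k pk grp χ j u l, 2 * (unb k pk grp χ j u l : ℝ) := by
          refine sum_le_sum fun χ hχ => ?_
          have h3 := (mem_filter.1 hχ).2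
          exact_mod_cast h3.le
      _ ≤ _ := sum_le_sum_of_subset_of_nonneg (filter_subset _ _) (fun _ _ _ => by positivity)
  have h8 : (0 : ℝ) < (8 * k) ^ l := by positivity
  rw [← le_div_iff₀ h8] at h2
  refine h2.trans ?_
  rw [div_le_iff₀ h8]
  have e2 : ((1024 : ℝ) * k) ^ l = 128 ^ l * (8 * k) ^ l := by
    rw [← mul_pow]; congr 1; ring
  calc 2 * ∑ χ : Fin g → Fin 3, (unb k pk grp χ j u l : ℝ)
      ≤ 2 * ((1024 * k) ^ l * (3 ^ g * Real.exp (-(21 / 2) * L))) :=
        mul_le_mul_of_nonneg_left h1 (by norm_num)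
    _ = _ := by rw [e2]; ring

private theorem geom_le (L : ℕ) : ∑ l ∈ range L, (128 : ℝ) ^ l ≤ 128 ^ L := by
  induction L with
  | zero => simp
  | succ L ih =>
    rw [sum_range_succ, pow_succ]
    have : (0 : ℝ) < 128 ^ L := by positivity
    linarith

private theorem exp_bound {L : ℕ} (hL : 1 ≤ L) :
    2 * (128 : ℝ) ^ L * Real.exp (-(21 / 2) * L) ≤ 1 / 50 := by
  have h1 : Real.exp (-(21 / 2) * L) = (Real.exp (-(21 / 2))) ^ L := by
    rw [← Real.exp_nat_mul]; congr 1; ring
  rw [h1, mul_assoc, ← mul_pow]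
  have h2 : 128 * Real.exp (-(21 / 2)) ≤ 1 / 100 := by
    have h3 : (12800 : ℝ) ≤ Real.exp (21 / 2) := by
      have h4 : Real.exp 10 ≤ Real.exp (21 / 2) := Real.exp_le_exp.2 (by norm_num)
      have h5 : Real.exp 10 = (Real.exp 1) ^ 10 := by
        rw [← Real.exp_nat_mul]; norm_num
      have h6 : (2.7 : ℝ) ^ 10 ≤ (Real.exp 1) ^ 10 :=
        pow_le_pow_left₀ (by norm_num) (by have := Real.exp_one_gt_d9; linarith) 10
      have h7 : (12800 : ℝ) ≤ 2.7 ^ 10 := by norm_num
      linarith
    rw [Real.exp_neg]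
    rw [← div_eq_mul_inv, div_le_iff₀ (Real.exp_pos _)]
    linarith
  have h3 : (128 * Real.exp (-(21 / 2))) ^ L ≤ (128 * Real.exp (-(21 / 2))) ^ 1 :=
    pow_le_pow_of_le_one (by positivity) (h2.trans (by norm_num)) hL
  rw [pow_one] at h3
  linarith

/-- the number of partitions which are bad for some walk -/
private theorem bad_count_all {k L : ℕ} (hk : 1 ≤ k) (hL : 1 ≤ L)
    (grp : Fin s → Fin g) (pk : Fin n → Fin (1024 * k) → Fin n × Fin s)
    (Q : ∀ x, ∀ F : Finset (Fin g), F.card ≤ L →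
      (univ.filter fun i => grp (pk x i).2 ∈ F).card < k) (u : Fin n) (j : Fin 3) :
    (((univ : Finset (Fin g → Fin 3)).filter fun χ =>
      ∃ l < L, (8 * k) ^ l < 2 * unb k pk grp χ j u l).card : ℝ) ≤ 3 ^ g * (1 / 50) := by
  classical
  have h1 : ((univ : Finset (Fin g → Fin 3)).filter fun χ =>
      ∃ l < L, (8 * k) ^ l < 2 * unb k pk grp χ j u l) ⊆
      (range L).biUnion fun l => (univ : Finset (Fin g → Fin 3)).filter fun χ =>
        (8 * k) ^ l < 2 * unb k pk grp χ j u l := by
    intro χ hχ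
    obtain ⟨l, hl, h⟩ := (mem_filter.1 hχ).2
    exact mem_biUnion.2 ⟨l, mem_range.2 hl, mem_filter.2 ⟨mem_univ _, h⟩⟩
  have h2 : (((univ : Finset (Fin g → Fin 3)).filter fun χ =>
      ∃ l < L, (8 * k) ^ l < 2 * unb k pk grp χ j u l).card : ℝ) ≤
      ∑ l ∈ range L, (((univ : Finset (Fin g → Fin 3)).filter fun χ =>
        (8 * k) ^ l < 2 * unb k pk grp χ j u l).card : ℝ) := by
    exact_mod_cast (card_le_card h1).trans card_biUnion_le
  refine h2.trans ?_
  calc _ ≤ ∑ l ∈ range L, (2 * 128 ^ l * (3 ^ g * Real.exp (-(21 / 2) * L)) : ℝ) :=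
        sum_le_sum fun l hl => bad_count_l hk hL grp pk Q u j (mem_range.1 hl)
    _ = 2 * (∑ l ∈ range L, (128 : ℝ) ^ l) * Real.exp (-(21 / 2) * L) * 3 ^ g := by
        rw [← sum_mul, ← mul_sum]; ring
    _ ≤ 2 * 128 ^ L * Real.exp (-(21 / 2) * L) * 3 ^ g := by
        have := geom_le L
        gcongr
    _ ≤ 1 / 50 * 3 ^ g := mul_le_mul_of_nonneg_right (exp_bound hL) (by positivity)
    _ = _ := by ring

private theorem bad_count_two (hg : 96 ≤ g) :
    (((univ : Finset (Fin g → Fin 3)).filter fun χ =>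
      ((univ.filter fun f => χ f = 2).card : ℝ) < g / 4).card : ℝ) ≤ 3 ^ g * (1 / 2) := by
  have hch := chernoff_count (Γ := Fin g) (fun _ => (1 : ℝ)) 1 g (g / 4) (1 / 4)
    (fun _ => zero_le_one) (fun _ => le_rfl) (by simp) (by norm_num) 2
  rw [Fintype.card_fin] at hch
  have e1 : ∀ χ : Fin g → Fin 3, ∑ f ∈ univ.filter (fun f => χ f = 2), (1 : ℝ) =
      ((univ.filter fun f => χ f = 2).card : ℝ) := by
    intro χ
    rw [sum_const, nsmul_eq_mul, mul_one]
  simp only [e1] at hch
  refine hch.trans (mul_le_mul_of_nonneg_left ?_ (by positivity))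
  have hg' : (96 : ℝ) ≤ g := by exact_mod_cast hg
  have h1 : (1 : ℝ) / 4 * (g / 4) - 1 / 4 * g / 3 + (1 / 4) ^ 2 * 1 * g / 6 ≤ -1 := by
    have : (1 : ℝ) / 4 * (g / 4) - 1 / 4 * g / 3 + (1 / 4) ^ 2 * 1 * g / 6 = - g / 96 := by ring
    rw [this]
    linarith
  refine (Real.exp_le_exp.2 h1).trans ?_
  rw [Real.exp_neg]
  have h2 := Real.exp_one_gt_d9
  rw [one_div]
  exact inv_anti₀ (by norm_num) (by linarith)

/-- There is a good partition.
(For a fixed walk `w` of length `< L` and end `x`, the number of `χ` for which it has small free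
degree is at most `3 ^ g * exp (- 10 L)`: let `a f` be the number of picks at `x` with group `f` if
`f` is not used by `w` and `a f ≤ k / L`, and `0` otherwise; by `Q` there are less than `L` groups
with more than `k / L` picks, so `S = ∑ f, a f ≥ 1024 k - 2 k`, and apply `chernoff_count` with
`m = k / L`, `t = 256 k`, `lam = L / (4 k)`.  Then average over `χ` the sum over `l` of
`2 * unb / (8 k) ^ l`, and use `chernoff_count` with `a = 1` for the class `2`.) -/
theorem exists_partition {k L : ℕ} (hk : 1 ≤ k) (hL : 1 ≤ L) (hg : 96 ≤ g)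
    (grp : Fin s → Fin g) (pk : Fin n → Fin (1024 * k) → Fin n × Fin s)
    (Q : ∀ x, ∀ F : Finset (Fin g), F.card ≤ L →
      (univ.filter fun i => grp (pk x i).2 ∈ F).card < k) (u v : Fin n) :
    ∃ χ : Fin g → Fin 3, (∀ l < L, 2 * unb k pk grp χ 0 u l ≤ (8 * k) ^ l) ∧
      (∀ l < L, 2 * unb k pk grp χ 1 v l ≤ (8 * k) ^ l) ∧
      (g : ℝ) / 4 ≤ ((univ.filter fun f => χ f = 2).card : ℝ) := by
  classical
  have b1 := bad_count_all hk hL grp pk Q u 0
  have b2 := bad_count_all hk hL grp pk Q v 1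
  have b3 := bad_count_two hg
  by_contra hcon
  push Not at hcon
  set B1 := (univ : Finset (Fin g → Fin 3)).filter fun χ =>
      ∃ l < L, (8 * k) ^ l < 2 * unb k pk grp χ 0 u l
  set B2 := (univ : Finset (Fin g → Fin 3)).filter fun χ =>
      ∃ l < L, (8 * k) ^ l < 2 * unb k pk grp χ 1 v l
  set B3 := (univ : Finset (Fin g → Fin 3)).filter fun χ =>
      ((univ.filter fun f => χ f = 2).card : ℝ) < g / 4
  have hcov : (univ : Finset (Fin g → Fin 3)) ⊆ B1 ∪ (B2 ∪ B3) := by
    intro χ _
    by_cases h1 : χ ∈ B1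
    · exact mem_union_left _ h1
    by_cases h2 : χ ∈ B2
    · exact mem_union_right _ (mem_union_left _ h2)
    refine mem_union_right _ (mem_union_right _ (mem_filter.2 ⟨mem_univ _, ?_⟩))
    refine hcon χ ?_ ?_
    · intro l hl
      by_contra h
      exact h1 (mem_filter.2 ⟨mem_univ _, l, hl, not_le.1 h⟩)
    · intro l hl
      by_contra h
      exact h2 (mem_filter.2 ⟨mem_univ _, l, hl, not_le.1 h⟩)
  have h1 : (3 : ℝ) ^ g ≤ (B1.card : ℝ) + ((B2.card : ℝ) + B3.card) := by
    have h2 := (card_le_card hcov).trans ((card_union_le _ _).trans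
      (Nat.add_le_add_left (card_union_le _ _) _))
    rw [card_univ, Fintype.card_fun, Fintype.card_fin, Fintype.card_fin] at h2
    exact_mod_cast h2
  have h3 : (0 : ℝ) < 3 ^ g := by positivity
  linarith

end Rbc
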