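import Pool.Agent.Lib.Rbc.Defs

/-! JOB DANGER: the invariants of the minimum degree strategy of Gebauer and Szabo. -/

namespace Rbc

open Finset

variable {n s : ℕ}

/-- The number of coloured edges of `Bk` at the vertex `v`. -/
def dg (Bk : Finset (Sym2 (Fin n) × Fin s)) (v : Fin n) : ℕ :=
  (Bk.filter fun e => v ∈ e.1).card

/-- The number of coloured edges of `Bk` which have an end in `J`. -/
def touch (Bk : Finset (Sym2 (Fin n) × Fin s)) (J : Finset (Fin n)) : ℕ :=
  (Bk.filter fun e => ∃ v ∈ J, v ∈ e.1).card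

/-- The invariants. `Act` is the set of active vertices, `cnt v` is the number of times Maker has
served `v`, `Bk` is the set of Breaker's coloured edges. -/
structure DangerInv (b m0 : ℕ) (G1 G2 : ℕ → ℝ) (sX sY : ℝ) (Act : Finset (Fin n))
    (cnt : Fin n → ℕ) (Bk : Finset (Sym2 (Fin n) × Fin s)) : Prop where
  X : ∀ J ⊆ Act, J.Nonempty → J.card ≤ m0 →
    (touch Bk J : ℝ) ≤ 2 * b * (∑ v ∈ J, (cnt v : ℝ)) + J.card * G1 J.card + sX
  Y : ∀ J ⊆ Act, J.Nonempty → m0 ≤ J.card →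
    (∑ v ∈ J, (dg Bk v : ℝ)) ≤ 2 * b * (∑ v ∈ J, (cnt v : ℝ)) + J.card * G2 J.card + sY

theorem DangerInv.init {b m0 : ℕ} {G1 G2 : ℕ → ℝ} (h1 : ∀ j, 0 ≤ G1 j) (h2 : ∀ j, 0 ≤ G2 j) :
    DangerInv (s := s) b m0 G1 G2 b (2 * b) (univ : Finset (Fin n)) (fun _ => 0) ∅ := by
  constructor
  · intro J _ _ _
    have h := h1 J.card
    have h' : (0 : ℝ) ≤ J.card * G1 J.card := by positivity
    simp only [touch, filter_empty, card_empty, Nat.cast_zero, sum_const_zero, mul_zero, zero_add]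
    positivity
  · intro J _ _ _
    have h := h2 J.card
    simp only [dg, filter_empty, card_empty, Nat.cast_zero, sum_const_zero, mul_zero, zero_add]
    positivity

theorem touch_union_le (B T : Finset (Sym2 (Fin n) × Fin s)) (J : Finset (Fin n)) :
    touch (B ∪ T) J ≤ touch B J + T.card := by
  unfold touch
  rw [filter_union]
  exact (card_union_le _ _).trans (Nat.add_le_add_left (card_filter_le _ _) _)

theorem dg_union_le (B T : Finset (Sym2 (Fin n) × Fin s)) (v : Fin n) :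
    dg (B ∪ T) v ≤ dg B v + dg T v := by
  unfold dg
  rw [filter_union]
  exact card_union_le _ _

theorem card_mem_sym2_le (e : Sym2 (Fin n)) : (univ.filter fun v : Fin n => v ∈ e).card ≤ 2 := by
  induction e using Sym2.ind with
  | _ a c =>
    have : (univ.filter fun v : Fin n => v ∈ s(a, c)) ⊆ {a, c} := by
      intro v hv
      simp only [mem_filter, mem_univ, true_and, Sym2.mem_iff] at hv
      simpa using hv
    exact (card_le_card this).trans card_le_two

theorem sum_dg_le (T : Finset (Sym2 (Fin n) × Fin s)) (J : Finset (Fin n)) :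
    ∑ v ∈ J, dg T v ≤ 2 * T.card := by
  have h1 : ∑ v ∈ J, dg T v ≤ ∑ v : Fin n, dg T v :=
    sum_le_sum_of_subset (subset_univ _)
  have h2 : ∑ v : Fin n, dg T v = ∑ e ∈ T, (univ.filter fun v : Fin n => v ∈ e.1).card := by
    simp only [dg, card_filter]
    rw [sum_comm]
  have h3 : ∑ e ∈ T, (univ.filter fun v : Fin n => v ∈ e.1).card ≤ ∑ _e ∈ T, 2 :=
    sum_le_sum fun e _ => card_mem_sym2_le e.1
  rw [sum_const, smul_eq_mul] at h3
  omega

theorem touch_le_sum_dg (B : Finset (Sym2 (Fin n) × Fin s)) (J : Finset (Fin n)) :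
    touch B J ≤ ∑ v ∈ J, dg B v := by
  have : (B.filter fun e => ∃ v ∈ J, v ∈ e.1) ⊆ J.biUnion fun v => B.filter fun e => v ∈ e.1 := by
    intro e he
    simp only [mem_filter] at he
    obtain ⟨h1, v, h2, h3⟩ := he
    simp only [mem_biUnion, mem_filter]
    exact ⟨v, h2, h1, h3⟩
  exact (card_le_card this).trans card_biUnion_le

/-- coloured edges at `x` with the other end in `J` -/
theorem touch_insert (B : Finset (Sym2 (Fin n) × Fin s)) (hloop : ∀ e ∈ B, ¬ e.1.IsDiag)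
    (J : Finset (Fin n)) {x : Fin n} (hx : x ∉ J) :
    touch B J + dg B x ≤ touch B (insert x J) + s * J.card := by
  classical
  have h1 : (B.filter fun e => ∃ v ∈ insert x J, v ∈ e.1) =
      (B.filter fun e => ∃ v ∈ J, v ∈ e.1) ∪ (B.filter fun e => x ∈ e.1) := by
    ext e
    simp only [mem_filter, mem_union, mem_insert]
    constructor
    · rintro ⟨h, v, rfl | hv, h2⟩
      · exact Or.inr ⟨h, h2⟩
      · exact Or.inl ⟨h, v, hv, h2⟩
    · rintro (⟨h, v, hv, h2⟩ | ⟨h, h2⟩)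
      · exact ⟨h, v, Or.inr hv, h2⟩
      · exact ⟨h, x, Or.inl rfl, h2⟩
  have h2 := card_union_add_card_inter (B.filter fun e => ∃ v ∈ J, v ∈ e.1)
    (B.filter fun e => x ∈ e.1)
  have h3 : ((B.filter fun e => ∃ v ∈ J, v ∈ e.1) ∩ (B.filter fun e => x ∈ e.1)).card ≤
      s * J.card := by
    have hsub : ((B.filter fun e => ∃ v ∈ J, v ∈ e.1) ∩ (B.filter fun e => x ∈ e.1)) ⊆
        (J ×ˢ (univ : Finset (Fin s))).image fun p => (s(x, p.1), p.2) := by
      intro e he
      simp only [mem_inter, mem_filter] at he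
      obtain ⟨⟨hB, v, hv, hve⟩, _, hxe⟩ := he
      have hne : x ≠ v := by rintro rfl; exact hx hv
      have : e.1 = s(x, v) := (Sym2.mem_and_mem_iff hne).1 ⟨hxe, hve⟩
      refine mem_image.2 ⟨(v, e.2), by simp [hv], ?_⟩
      ext1
      · exact this.symm
      · rfl
    refine (card_le_card hsub).trans (card_image_le.trans ?_)
    rw [card_product, card_univ, Fintype.card_fin, mul_comm]
  unfold touch dg
  rw [h1]
  omega

/-- Maker serves the vertex `x` of maximum danger. -/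
theorem DangerInv.serve {b m0 : ℕ} {G1 G2 : ℕ → ℝ}
    (hG1 : ∀ j, 1 ≤ j → j < m0 → G1 (j + 1) + (b + s * j) / (j + 1) ≤ G1 j)
    (hG2 : ∀ j, m0 ≤ j → j < n → G2 (j + 1) + 2 * b / (j + 1) ≤ G2 j)
    (hG : G2 m0 ≤ G1 m0) (hm0 : 1 ≤ m0)
    {Act : Finset (Fin n)} {cnt : Fin n → ℕ} {Bk : Finset (Sym2 (Fin n) × Fin s)}
    (hloop : ∀ e ∈ Bk, ¬ e.1.IsDiag)
    (h : DangerInv b m0 G1 G2 b (2 * b) Act cnt Bk) {x : Fin n} (hx : x ∈ Act)
    (hmax : ∀ y ∈ Act, (dg Bk y : ℝ) - 2 * b * cnt y ≤ dg Bk x - 2 * b * cnt x)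
    {cnt' : Fin n → ℕ} (hcx : cnt' x = cnt x + 1) (hc : ∀ y, y ≠ x → cnt' y = cnt y)
    {Act' : Finset (Fin n)} (hA : Act' ⊆ Act) :
    DangerInv b m0 G1 G2 0 0 Act' cnt' Bk := by
  classical
  -- the sums of the new counters
  have hin : ∀ J : Finset (Fin n), x ∈ J →
      ∑ v ∈ J, (cnt' v : ℝ) = ∑ v ∈ J, (cnt v : ℝ) + 1 := by
    intro J hJ
    rw [← Finset.add_sum_erase J _ hJ, ← Finset.add_sum_erase J _ hJ, hcx]
    have : ∑ v ∈ J.erase x, (cnt' v : ℝ) = ∑ v ∈ J.erase x, (cnt v : ℝ) :=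
      sum_congr rfl fun v hv => by rw [hc v (ne_of_mem_erase hv)]
    rw [this]; push_cast; ring
  have hout : ∀ J : Finset (Fin n), x ∉ J →
      ∑ v ∈ J, (cnt' v : ℝ) = ∑ v ∈ J, (cnt v : ℝ) := by
    intro J hJ
    refine sum_congr rfl fun v hv => ?_
    rw [hc v (fun e => hJ (e ▸ hv))]
  -- the maximum is at least the average
  have havg : ∀ J : Finset (Fin n), J ⊆ Act →
      ∑ v ∈ J, (dg Bk v : ℝ) - 2 * b * ∑ v ∈ J, (cnt v : ℝ) ≤
        J.card * ((dg Bk x : ℝ) - 2 * b * cnt x) := by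
    intro J hJ
    have h1 : ∑ v ∈ J, ((dg Bk v : ℝ) - 2 * b * cnt v) ≤
        ∑ _v ∈ J, ((dg Bk x : ℝ) - 2 * b * cnt x) := sum_le_sum fun v hv => hmax v (hJ hv)
    rw [sum_sub_distrib, sum_const, nsmul_eq_mul, ← mul_sum] at h1
    exact h1
  -- the Y part for sets not containing x
  have hYout : ∀ J ⊆ Act, J.Nonempty → m0 ≤ J.card → x ∉ J →
      ∑ v ∈ J, (dg Bk v : ℝ) ≤ 2 * b * (∑ v ∈ J, (cnt v : ℝ)) + J.card * G2 J.card := by
    intro J hJ hne hm hxJ
    have hsub : insert x J ⊆ Act := insert_subset hx hJ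
    have hcard : (insert x J).card = J.card + 1 := card_insert_of_notMem hxJ
    have hlt : J.card < n := by
      have := card_le_univ (insert x J)
      rw [Fintype.card_fin] at this
      omega
    have h1 := h.Y (insert x J) hsub (insert_nonempty _ _) (by omega)
    rw [hcard, sum_insert hxJ, sum_insert hxJ] at h1
    have h2 := havg J hJ
    have h3 := hG2 J.card hm hlt
    have hj : (1 : ℝ) ≤ J.card := by exact_mod_cast hne.card_pos
    have hj0 : (0 : ℝ) < (J.card : ℝ) + 1 := by linarith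
    set j : ℝ := (J.card : ℝ) with hjdef
    set Y : ℝ := ∑ v ∈ J, (dg Bk v : ℝ) - 2 * b * ∑ v ∈ J, (cnt v : ℝ) with hY
    set D : ℝ := (dg Bk x : ℝ) - 2 * b * cnt x with hD
    have h4 : D + Y ≤ (j + 1) * G2 (J.card + 1) + 2 * b := by
      rw [hD, hY]
      push_cast at h1
      linarith
    have h5 : Y * (j + 1) ≤ j * ((j + 1) * G2 (J.card + 1) + 2 * b) := by
      have : Y * (j + 1) = Y + j * Y := by ring
      have h6 : j * (D + Y) ≤ j * ((j + 1) * G2 (J.card + 1) + 2 * b) :=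
        mul_le_mul_of_nonneg_left h4 (by linarith)
      linarith [mul_add j D Y]
    have h6 : j * ((j + 1) * G2 (J.card + 1) + 2 * b) ≤ (j * G2 J.card) * (j + 1) := by
      have h7 : (G2 (J.card + 1) + 2 * b / (j + 1)) * (j + 1) ≤ G2 J.card * (j + 1) :=
        mul_le_mul_of_nonneg_right h3 hj0.le
      have h8 : (G2 (J.card + 1) + 2 * b / (j + 1)) * (j + 1) =
          (j + 1) * G2 (J.card + 1) + 2 * b := by
        field_simp
      rw [h8] at h7
      have h9 := mul_le_mul_of_nonneg_left h7 (show (0 : ℝ) ≤ j by linarith)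
      linarith [mul_assoc j (G2 J.card) (j + 1)]
    have h7 : Y ≤ j * G2 J.card := le_of_mul_le_mul_right (h5.trans h6) hj0
    linarith
  constructor
  · intro J hJ' hne hm
    have hJ : J ⊆ Act := hJ'.trans hA
    by_cases hxJ : x ∈ J
    · rw [hin J hxJ]
      have h1 := h.X J hJ hne hm
      have hb : (0 : ℝ) ≤ b := Nat.cast_nonneg b
      linarith
    · rw [hout J hxJ]
      rcases hm.lt_or_eq with hlt | heq
      · have hsub : insert x J ⊆ Act := insert_subset hx hJ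
        have hcard : (insert x J).card = J.card + 1 := card_insert_of_notMem hxJ
        have h1 := h.X (insert x J) hsub (insert_nonempty _ _) (by omega)
        rw [hcard, sum_insert hxJ] at h1
        have h2 := havg J hJ
        have h3 := hG1 J.card hne.card_pos hlt
        have ht : (touch Bk J : ℝ) + dg Bk x ≤ touch Bk (insert x J) + s * J.card := by
          exact_mod_cast touch_insert Bk hloop J hxJ
        have ht2 : (touch Bk J : ℝ) ≤ ∑ v ∈ J, (dg Bk v : ℝ) := by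
          exact_mod_cast touch_le_sum_dg Bk J
        have hj : (1 : ℝ) ≤ J.card := by exact_mod_cast hne.card_pos
        have hj0 : (0 : ℝ) < (J.card : ℝ) + 1 := by linarith
        set j : ℝ := (J.card : ℝ) with hjdef
        set X : ℝ := (touch Bk J : ℝ) - 2 * b * ∑ v ∈ J, (cnt v : ℝ) with hX
        set D : ℝ := (dg Bk x : ℝ) - 2 * b * cnt x with hD
        have h4 : D + X ≤ (j + 1) * G1 (J.card + 1) + (b + s * j) := by
          rw [hD, hX]
          push_cast at h1
          linarith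
        have h5 : X ≤ j * D := by rw [hX]; linarith
        have h6 : X * (j + 1) ≤ j * ((j + 1) * G1 (J.card + 1) + (b + s * j)) := by
          have h7 : j * (D + X) ≤ j * ((j + 1) * G1 (J.card + 1) + (b + s * j)) :=
            mul_le_mul_of_nonneg_left h4 (by linarith)
          have : X * (j + 1) = X + j * X := by ring
          linarith [mul_add j D X]
        have h7 : j * ((j + 1) * G1 (J.card + 1) + (b + s * j)) ≤ (j * G1 J.card) * (j + 1) := by
          have h8 : (G1 (J.card + 1) + (b + s * j) / (j + 1)) * (j + 1) ≤ G1 J.card * (j + 1) :=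
            mul_le_mul_of_nonneg_right h3 hj0.le
          have h9 : (G1 (J.card + 1) + (b + s * j) / (j + 1)) * (j + 1) =
              (j + 1) * G1 (J.card + 1) + (b + s * j) := by
            field_simp
          rw [h9] at h8
          have h10 := mul_le_mul_of_nonneg_left h8 (show (0 : ℝ) ≤ j by linarith)
          linarith [mul_assoc j (G1 J.card) (j + 1)]
        have h8 : X ≤ j * G1 J.card := le_of_mul_le_mul_right (h6.trans h7) hj0
        linarith
      · have h1 := hYout J hJ hne heq.ge hxJ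
        have ht2 : (touch Bk J : ℝ) ≤ ∑ v ∈ J, (dg Bk v : ℝ) := by
          exact_mod_cast touch_le_sum_dg Bk J
        have h2 : (J.card : ℝ) * G2 J.card ≤ J.card * G1 J.card := by
          rw [heq]
          exact mul_le_mul_of_nonneg_left hG (Nat.cast_nonneg _)
        linarith
  · intro J hJ' hne hm
    have hJ : J ⊆ Act := hJ'.trans hA
    by_cases hxJ : x ∈ J
    · rw [hin J hxJ]
      have h1 := h.Y J hJ hne hm
      have hb : (0 : ℝ) ≤ b := Nat.cast_nonneg b
      linarith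
    · rw [hout J hxJ]
      have h1 := hYout J hJ hne hm hxJ
      linarith

/-- Breaker claims at most `b` edges. -/
theorem DangerInv.breaker {b m0 : ℕ} {G1 G2 : ℕ → ℝ}
    {Act : Finset (Fin n)} {cnt : Fin n → ℕ} {Bk T : Finset (Sym2 (Fin n) × Fin s)}
    (h : DangerInv b m0 G1 G2 0 0 Act cnt Bk) (hT : T.card ≤ b) (hloop : ∀ e ∈ T, ¬ e.1.IsDiag) :
    DangerInv b m0 G1 G2 b (2 * b) Act cnt (Bk ∪ T) := by
  have hT' : (T.card : ℝ) ≤ b := by exact_mod_cast hT
  constructor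
  · intro J hJ hne hm
    have h1 := h.X J hJ hne hm
    have h2 : (touch (Bk ∪ T) J : ℝ) ≤ touch Bk J + T.card := by
      exact_mod_cast touch_union_le Bk T J
    linarith
  · intro J hJ hne hm
    have h1 := h.Y J hJ hne hm
    have h2 : ∑ v ∈ J, (dg (Bk ∪ T) v : ℝ) ≤ ∑ v ∈ J, ((dg Bk v : ℝ) + dg T v) :=
      sum_le_sum fun v _ => by exact_mod_cast dg_union_le Bk T v
    rw [sum_add_distrib] at h2
    have h3 : ∑ v ∈ J, (dg T v : ℝ) ≤ 2 * T.card := by exact_mod_cast sum_dg_le T J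
    linarith

theorem sum_inv_Ioc_le {m : ℕ} (hm : 1 ≤ m) (k : ℕ) :
    ∑ i ∈ Ioc m (m + k), (1 : ℝ) / i ≤ Real.log (((m + k : ℕ) : ℝ) / m) := by
  have hm0 : (0 : ℝ) < m := by exact_mod_cast hm
  induction k with
  | zero => simp
  | succ k ih =>
    have h1 : Ioc m (m + (k + 1)) = insert (m + k + 1) (Ioc m (m + k)) := by
      ext i; simp only [mem_Ioc, mem_insert]; omega
    rw [h1, sum_insert (by simp)]
    have hk0 : (0 : ℝ) < ((m + k : ℕ) : ℝ) := by
      have : 0 < m + k := by omega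
      exact_mod_cast this
    have hk1 : (0 : ℝ) < ((m + k : ℕ) : ℝ) + 1 := by linarith
    have h2 : (1 : ℝ) / ((m + k + 1 : ℕ) : ℝ) ≤
        Real.log ((((m + k : ℕ) : ℝ) + 1) / ((m + k : ℕ) : ℝ)) := by
      have h3 := Real.one_sub_inv_le_log_of_pos (div_pos hk1 hk0)
      refine le_trans (le_of_eq ?_) h3
      rw [Nat.cast_succ, inv_div]
      field_simp
      ring
    have h3 : Real.log (((m + (k + 1) : ℕ) : ℝ) / m) =
        Real.log ((((m + k : ℕ) : ℝ) + 1) / ((m + k : ℕ) : ℝ)) +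
          Real.log (((m + k : ℕ) : ℝ) / m) := by
      rw [← Real.log_mul (div_pos hk1 hk0).ne' (div_pos hk0 hm0).ne']
      congr 1
      have : ((m + (k + 1) : ℕ) : ℝ) = ((m + k : ℕ) : ℝ) + 1 := by push_cast; ring
      rw [this]
      field_simp
    rw [h3]
    linarith

theorem sum_inv_Ioc_le' {m n : ℕ} (hm : 1 ≤ m) (h : m ≤ n) :
    ∑ i ∈ Ioc m n, (1 : ℝ) / i ≤ Real.log ((n : ℝ) / m) := by
  obtain ⟨k, rfl⟩ := Nat.exists_eq_add_of_le h
  exact sum_inv_Ioc_le hm k

/-- There are functions `G1, G2` as needed, with a good bound. -/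
theorem exists_G (n s b m0 : ℕ) (hm0 : 1 ≤ m0) (hm : m0 ≤ n) :
    ∃ G1 G2 : ℕ → ℝ, (∀ j, 0 ≤ G1 j) ∧ (∀ j, 0 ≤ G2 j) ∧
      (∀ j : ℕ, 1 ≤ j → j < m0 → G1 (j + 1) + ((b : ℝ) + s * j) / (j + 1) ≤ G1 j) ∧
      (∀ j : ℕ, m0 ≤ j → j < n → G2 (j + 1) + 2 * (b : ℝ) / (j + 1) ≤ G2 j) ∧
      G2 m0 ≤ G1 m0 ∧
      G1 1 + b ≤ b * (1 + Real.log n) + b * Real.log ((n : ℝ) / m0) + s * m0 := by
  have hb : (0 : ℝ) ≤ b := Nat.cast_nonneg b
  have hs : (0 : ℝ) ≤ s := Nat.cast_nonneg s
  let G2 : ℕ → ℝ := fun j => ∑ i ∈ Ioc j n, 2 * (b : ℝ) / i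
  let G1 : ℕ → ℝ := fun j => G2 m0 + ∑ i ∈ Ioc j m0, ((b : ℝ) + s * ((i : ℝ) - 1)) / i
  have h2 : ∀ j, 0 ≤ G2 j := fun j => sum_nonneg fun i _ => by positivity
  have hterm : ∀ j, ∀ i ∈ Ioc j m0, 0 ≤ ((b : ℝ) + s * ((i : ℝ) - 1)) / i := by
    intro j i hi
    have hi1 : (1 : ℝ) ≤ i := by
      have := (mem_Ioc.1 hi).1
      exact_mod_cast (show 1 ≤ i by omega)
    have : (0 : ℝ) ≤ s * ((i : ℝ) - 1) := mul_nonneg hs (by linarith)
    positivity
  have h1 : ∀ j, 0 ≤ G1 j := fun j => add_nonneg (h2 m0) (sum_nonneg (hterm j))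
  refine ⟨G1, G2, h1, h2, ?_, ?_, ?_, ?_⟩
  · intro j hj hjm
    have e : Ioc j m0 = insert (j + 1) (Ioc (j + 1) m0) := by
      ext i; simp only [mem_Ioc, mem_insert]; omega
    have : G1 j = G1 (j + 1) + ((b : ℝ) + s * j) / (j + 1) := by
      simp only [G1]
      rw [e, sum_insert (by simp)]
      push_cast
      ring
    exact this.ge
  · intro j hj hjn
    have e : Ioc j n = insert (j + 1) (Ioc (j + 1) n) := by
      ext i; simp only [mem_Ioc, mem_insert]; omega
    have : G2 j = G2 (j + 1) + 2 * (b : ℝ) / (j + 1) := by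
      simp only [G2]
      rw [e, sum_insert (by simp)]
      push_cast
      ring
    exact this.ge
  · simp [G1]
  · have hA := sum_inv_Ioc_le' hm0 hm
    have hB := sum_inv_Ioc_le' le_rfl (hm0.trans hm)
    rw [Nat.cast_one, div_one] at hB
    have e1 : G2 m0 = 2 * b * ∑ i ∈ Ioc m0 n, (1 : ℝ) / i := by
      simp only [G2]
      rw [mul_sum]
      exact sum_congr rfl fun i _ => by ring
    have e2 : ∑ i ∈ Ioc 1 m0, ((b : ℝ) + s * ((i : ℝ) - 1)) / i ≤
        b * ∑ i ∈ Ioc 1 m0, (1 : ℝ) / i + s * m0 := by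
      have h3 : ∑ i ∈ Ioc 1 m0, ((b : ℝ) + s * ((i : ℝ) - 1)) / i ≤
          ∑ i ∈ Ioc 1 m0, (b * ((1 : ℝ) / i) + s) := by
        refine sum_le_sum fun i hi => ?_
        have hi1 : (1 : ℝ) ≤ i := by
          have := (mem_Ioc.1 hi).1
          exact_mod_cast (show 1 ≤ i by omega)
        have hi0 : (0 : ℝ) < i := by linarith
        rw [div_le_iff₀ hi0]
        have : (b * ((1 : ℝ) / i) + s) * i = b + s * i := by field_simp
        rw [this]
        linarith [mul_sub (s : ℝ) i 1]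
      rw [sum_add_distrib, ← mul_sum, sum_const, nsmul_eq_mul, Nat.card_Ioc] at h3
      have h4 : ((m0 - 1 : ℕ) : ℝ) * s ≤ s * m0 := by
        rw [mul_comm]
        refine mul_le_mul_of_nonneg_left ?_ hs
        exact_mod_cast Nat.sub_le m0 1
      linarith
    have e3 : ∑ i ∈ Ioc 1 m0, (1 : ℝ) / i + ∑ i ∈ Ioc m0 n, (1 : ℝ) / i =
        ∑ i ∈ Ioc 1 n, (1 : ℝ) / i := by
      rw [← sum_union]
      · congr 1
        ext i; simp only [mem_union, mem_Ioc]; omega
      · rw [disjoint_left]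
        intro i hi hi'
        simp only [mem_Ioc] at hi hi'
        omega
    have e4 : G1 1 + b ≤ b * (1 + ∑ i ∈ Ioc 1 n, (1 : ℝ) / i) +
        b * ∑ i ∈ Ioc m0 n, (1 : ℝ) / i + s * m0 := by
      simp only [G1]
      rw [e1, ← e3]
      linarith [mul_add (b : ℝ) (∑ i ∈ Ioc 1 m0, (1 : ℝ) / i) (∑ i ∈ Ioc m0 n, (1 : ℝ) / i)]
    have e5 := mul_le_mul_of_nonneg_left hA hb
    have e6 := mul_le_mul_of_nonneg_left hB hb
    linarith

end Rbc
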