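import Mathlib

/-!
# The `(1 : b)` Maker-Breaker rainbow-connectivity game: definitions

The board is the set of edges of `s` copies of the complete graph `K_n`; copy `i` has colour `i`.
-/

namespace Rbc

open Finset

section Game

variable {α : Type*} [DecidableEq α]

/-- `MakerWins W b M R`: in the `(1 : b)` Maker-Breaker game in which Maker wins iff the set of
elements claimed by her at the end satisfies `W`, Maker has a winning strategy from the position
in which she has claimed `M`, the set `R` is the set of unclaimed elements, and it is her turn.
Each round Maker claims one element `e`, and then Breaker claims `b` elements (or all the remaining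
elements, if there are less than `b` of them).  The play ends when every element is claimed. -/
inductive MakerWins (W : Finset α → Prop) (b : ℕ) : Finset α → Finset α → Prop
  | done {M : Finset α} (h : W M) : MakerWins W b M ∅
  | step {M R : Finset α} (e : α) (he : e ∈ R)
      (h : ∀ T ⊆ R.erase e, T.card = min b (R.erase e).card →
        MakerWins W b (insert e M) (R.erase e \ T)) : MakerWins W b M R

/-- `BreakerWins W b M R`: Breaker has a winning strategy from the same position (it is Maker's
turn).  The function `σ` tells Breaker which set to claim after Maker's move `e`. -/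
inductive BreakerWins (W : Finset α → Prop) (b : ℕ) : Finset α → Finset α → Prop
  | done {M : Finset α} (h : ¬ W M) : BreakerWins W b M ∅
  | step {M R : Finset α} (hR : R.Nonempty) (σ : α → Finset α)
      (hσ : ∀ e ∈ R, σ e ⊆ R.erase e ∧ (σ e).card = min b (R.erase e).card)
      (h : ∀ e ∈ R, BreakerWins W b (insert e M) (R.erase e \ σ e)) : BreakerWins W b M R

end Game

/-- The board of the rainbow-connectivity game: pairs `(e, i)` where `e` is an edge of `K_n`
(a non-diagonal unordered pair of vertices) and `i` is one of the `s` colours. -/
def board (n s : ℕ) : Finset (Sym2 (Fin n) × Fin s) :=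
  Finset.univ.filter fun e => ¬ e.1.IsDiag

/-- `u` and `v` are joined by a rainbow path all of whose edges belong to `M`: a path `p` of
`K_n` from `u` to `v` and a choice `col` of colours for the edges, such that distinct edges of the
path have distinct colours and each edge with its colour belongs to `M`. -/
def RainbowJoined {n s : ℕ} (M : Finset (Sym2 (Fin n) × Fin s)) (u v : Fin n) : Prop :=
  ∃ (p : (⊤ : SimpleGraph (Fin n)).Walk u v) (col : Sym2 (Fin n) → Fin s),
    p.IsPath ∧ Set.InjOn col {e | e ∈ p.edges} ∧ ∀ e ∈ p.edges, (e, col e) ∈ M

/-- Maker's goal: any two vertices are joined by a rainbow path. -/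
def RainbowConnected {n s : ℕ} (M : Finset (Sym2 (Fin n) × Fin s)) : Prop :=
  ∀ u v : Fin n, RainbowJoined M u v

/-- Breaker has a winning strategy in the `(1 : b)` rainbow-connectivity game with `s` colours on
`n` vertices. -/
def BreakerWinsGame (n s b : ℕ) : Prop :=
  BreakerWins (RainbowConnected (n := n) (s := s)) b ∅ (board n s)

/-- Maker has a winning strategy in the `(1 : b)` rainbow-connectivity game with `s` colours on
`n` vertices. -/
def MakerWinsGame (n s b : ℕ) : Prop :=
  MakerWins (RainbowConnected (n := n) (s := s)) b ∅ (board n s)

/-- The threshold bias: the least bias `b ≥ 1` with which Breaker wins. -/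
noncomputable def thresholdBias (n s : ℕ) : ℕ :=
  sInf {b : ℕ | 1 ≤ b ∧ BreakerWinsGame n s b}

/-- `RW M u F v`: there is a walk from `u` to `v` using edges of `M`, with pairwise distinct
colours, whose set of colours is `F`. -/
inductive RW {n s : ℕ} (M : Finset (Sym2 (Fin n) × Fin s)) :
    Fin n → Finset (Fin s) → Fin n → Prop
  | nil (u : Fin n) : RW M u ∅ u
  | snoc {u v w : Fin n} {F : Finset (Fin s)} (c : Fin s) (h : RW M u F v) (hvw : v ≠ w)
      (hc : c ∉ F) (hM : (s(v, w), c) ∈ M) : RW M u (insert c F) w

end Rbc
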