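import Mathlib

/-! A step of the method of conditional expectations. -/

namespace Rbc

open Finset

theorem derand_step {ι β : Type*} [DecidableEq β] (alive : Finset ι) (act : ι → Prop)
    [DecidablePred act]
    (w : ι → ℝ) (hw : ∀ i ∈ alive, 0 ≤ w i) (Fr : Finset β) (hFr : Fr.Nonempty)
    (T : ι → Finset β) (θ ρ p : ι → ℝ) (hρ0 : ∀ i ∈ alive, 0 < ρ i)
    (hρ : ∀ i ∈ alive, 1 + (θ i - 1) * p i ≤ ρ i) (hθ : ∀ i ∈ alive, 1 ≤ θ i)
    (hT : ∀ i ∈ alive, act i → ((Fr.filter (· ∈ T i)).card : ℝ) ≤ p i * Fr.card) :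
    ∃ e ∈ Fr, ∑ i ∈ alive, w i * (if act i then (if e ∈ T i then θ i else 1) / ρ i else 1) ≤
      ∑ i ∈ alive, w i := by
  apply Finset.exists_le_of_sum_le hFr
  rw [Finset.sum_comm]
  rw [Finset.sum_comm (s := Fr) (t := alive)]
  apply Finset.sum_le_sum
  intro i hi
  rw [← Finset.mul_sum, Finset.sum_const, nsmul_eq_mul]
  rw [mul_comm (Fr.card : ℝ) (w i)]
  apply mul_le_mul_of_nonneg_left _ (hw i hi)
  by_cases ha : act i
  · simp only [ha, if_true]
    rw [← Finset.sum_div, div_le_iff₀ (hρ0 i hi)]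
    have h1 : ∑ e ∈ Fr, (if e ∈ T i then θ i else 1)
        = (Fr.card : ℝ) + (θ i - 1) * (Fr.filter (· ∈ T i)).card := by
      have : ∀ e ∈ Fr, (if e ∈ T i then θ i else 1) = 1 + (θ i - 1) * (if e ∈ T i then 1 else 0) := by
        intro e _
        split_ifs <;> ring
      rw [Finset.sum_congr rfl this, Finset.sum_add_distrib, Finset.sum_const, nsmul_eq_mul,
        ← Finset.mul_sum, Finset.sum_boole]
      ring
    rw [h1]
    have h2 := hT i hi ha
    have h3 : 0 ≤ θ i - 1 := by linarith [hθ i hi]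
    have h4 : (θ i - 1) * (Fr.filter (· ∈ T i)).card ≤ (θ i - 1) * (p i * Fr.card) :=
      mul_le_mul_of_nonneg_left h2 h3
    have h5 : (1 + (θ i - 1) * p i) * Fr.card ≤ ρ i * Fr.card :=
      mul_le_mul_of_nonneg_right (hρ i hi) (Nat.cast_nonneg _)
    linarith
  · simp [ha]

end Rbc
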