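import Pool.Agent.Lib.Rbc.Defs

/-! General facts on the game (determinacy, bias monotonicity), rainbow walks. -/

namespace Rbc

open Finset

section Game

variable {α : Type*} [DecidableEq α]

theorem card_sdiff_lt {R T : Finset α} {e : α} (he : e ∈ R) : (R.erase e \ T).card < R.card :=
  lt_of_le_of_lt (card_le_card sdiff_subset) (card_erase_lt_of_mem he)

/-- Determinacy. -/
theorem breakerWins_iff (W : Finset α → Prop) (b : ℕ) (M R : Finset α) :
    BreakerWins W b M R ↔ ¬ MakerWins W b M R := by
  constructor
  · intro h
    induction h with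
    | done h =>
      intro hm
      cases hm with
      | done h' => exact h h'
      | step e he _ => exact absurd he (notMem_empty e)
    | step hR σ hσ _ ih =>
      intro hm
      cases hm with
      | done h' => exact not_nonempty_empty hR
      | step e he h' => exact ih e he (h' (σ e) (hσ e he).1 (hσ e he).2)
  · intro h
    induction hk : R.card using Nat.strong_induction_on generalizing M R with
    | _ k ih =>
      rcases R.eq_empty_or_nonempty with rfl | hR
      · exact BreakerWins.done fun hW => h (MakerWins.done hW)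
      · have key : ∀ e : α, ∃ T : Finset α, e ∈ R → (T ⊆ R.erase e ∧
            T.card = min b (R.erase e).card ∧ ¬ MakerWins W b (insert e M) (R.erase e \ T)) := by
          intro e
          by_cases he : e ∈ R
          · by_contra hc
            push Not at hc
            exact h (MakerWins.step e he fun T hT hT' => (hc T).2 hT hT')
          · exact ⟨∅, fun h' => absurd h' he⟩
        choose σ hσ using key
        refine BreakerWins.step hR σ (fun e he => ⟨(hσ e he).1, (hσ e he).2.1⟩) fun e he => ?_
        exact ih _ (hk ▸ card_sdiff_lt he) _ _ (hσ e he).2.2 rfl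

/-- If Maker's set already satisfies the monotone property `W`, then she wins. -/
theorem MakerWins.of_done {W : Finset α → Prop} (hW : ∀ A B : Finset α, A ⊆ B → W A → W B)
    (b : ℕ) {M : Finset α} (h : W M) (R : Finset α) : MakerWins W b M R := by
  induction hk : R.card using Nat.strong_induction_on generalizing M R with
  | _ k ih =>
    rcases R.eq_empty_or_nonempty with rfl | ⟨e, he⟩
    · exact MakerWins.done h
    · exact MakerWins.step e he fun T _ _ =>
        ih _ (hk ▸ card_sdiff_lt he) (hW _ _ (subset_insert e M) h) _ rfl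

theorem MakerWins.union {W : Finset α → Prop} (hW : ∀ A B : Finset α, A ⊆ B → W A → W B)
    {b : ℕ} {M R : Finset α} (h : MakerWins W b M R) : W (M ∪ R) := by
  induction h with
  | done h => rwa [union_empty]
  | @step M R e he _ ih =>
    obtain ⟨T, hT, hc⟩ := exists_subset_card_eq (min_le_right b (R.erase e).card)
    refine hW _ _ ?_ (ih T hT hc)
    intro x hx
    rw [mem_union, mem_insert, mem_sdiff, mem_erase] at hx
    rw [mem_union]
    rcases hx with (rfl | hx) | hx
    · exact Or.inr he
    · exact Or.inl hx
    · exact Or.inr hx.1.2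

/-- Bias monotonicity and harmlessness of extra moves for Maker. -/
theorem MakerWins.mono {W : Finset α → Prop} (hW : ∀ A B : Finset α, A ⊆ B → W A → W B)
    {b b' : ℕ} (hb : b ≤ b') {M R : Finset α} (h : MakerWins W b' M R) :
    ∀ {M' R' : Finset α}, M ⊆ M' → M ∪ R ⊆ M' ∪ R' → MakerWins W b M' R' := by
  induction h with
  | done h =>
    intro M' R' hM _
    exact MakerWins.of_done hW b (hW _ _ hM h) R'
  | @step M R e he hT ih =>
    intro M' R' hM hR
    rcases R'.eq_empty_or_nonempty with rfl | hR'
    · rw [union_empty] at hR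
      exact MakerWins.done (hW _ _ hR (MakerWins.union hW (MakerWins.step e he hT)))
    · obtain ⟨e', he', hee⟩ : ∃ e' ∈ R', e ∈ insert e' M' := by
        by_cases h1 : e ∈ R'
        · exact ⟨e, h1, mem_insert_self _ _⟩
        · obtain ⟨e', he'⟩ := hR'
          refine ⟨e', he', mem_insert_of_mem ?_⟩
          have := hR (mem_union_right M he)
          rw [mem_union] at this
          tauto
      refine MakerWins.step e' he' fun T' hT' hc' => ?_
      obtain ⟨T, h1, h2, h3⟩ : ∃ T : Finset α, T' ∩ R.erase e ⊆ T ∧ T ⊆ R.erase e ∧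
          T.card = min b' (R.erase e).card := by
        refine exists_subsuperset_card_eq inter_subset_right ?_ (min_le_right _ _)
        refine le_min ?_ (card_le_card inter_subset_right)
        calc (T' ∩ R.erase e).card ≤ T'.card := card_le_card inter_subset_left
          _ ≤ b := hc' ▸ min_le_left _ _
          _ ≤ b' := hb
      refine ih T h2 h3 ?_ ?_
      · intro x hx
        rw [mem_insert] at hx
        rcases hx with rfl | hx
        · exact hee
        · exact mem_insert_of_mem (hM hx)
      · intro x hx
        rw [mem_union, mem_insert, mem_sdiff] at hx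
        rcases hx with (rfl | hx) | ⟨hx, hxT⟩
        · exact mem_union_left _ hee
        · exact mem_union_left _ (mem_insert_of_mem (hM hx))
        · have hx' := hR (mem_union_right M (mem_of_mem_erase hx))
          rw [mem_union] at hx'
          rcases hx' with hx' | hx'
          · exact mem_union_left _ (mem_insert_of_mem hx')
          · by_cases hxe : x = e'
            · exact mem_union_left _ (hxe ▸ mem_insert_self _ _)
            · refine mem_union_right _ (mem_sdiff.2 ⟨mem_erase.2 ⟨hxe, hx'⟩, fun hxT' => hxT ?_⟩)
              exact h1 (mem_inter.2 ⟨hxT', hx⟩)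

theorem BreakerWins.mono {W : Finset α → Prop} (hW : ∀ A B : Finset α, A ⊆ B → W A → W B)
    {b b' : ℕ} (hb : b ≤ b') {M R : Finset α} (h : BreakerWins W b M R) :
    BreakerWins W b' M R := by
  rw [breakerWins_iff] at h ⊢
  exact fun h' => h (h'.mono hW hb Subset.rfl Subset.rfl)

end Game

variable {n s : ℕ}

theorem rainbowConnected_mono (A B : Finset (Sym2 (Fin n) × Fin s)) (h : A ⊆ B)
    (hA : RainbowConnected A) : RainbowConnected B := by
  intro u v
  obtain ⟨p, col, h1, h2, h3⟩ := hA u v
  exact ⟨p, col, h1, h2, fun e he => h (h3 e he)⟩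

theorem RW.mono {A B : Finset (Sym2 (Fin n) × Fin s)} (h : A ⊆ B) {u v : Fin n}
    {F : Finset (Fin s)} (hA : RW A u F v) : RW B u F v := by
  induction hA with
  | nil => exact RW.nil u
  | snoc c _ hvw hc hM ih => exact RW.snoc c ih hvw hc (h hM)

theorem RW.trans {M : Finset (Sym2 (Fin n) × Fin s)} {u v w : Fin n} {F G : Finset (Fin s)}
    (h1 : RW M u F v) (h2 : RW M v G w) (hd : Disjoint F G) : RW M u (F ∪ G) w := by
  induction h2 with
  | nil => rwa [union_empty]
  | @snoc b c G k _ hvw hc hM ih =>
    rw [union_insert]
    rw [disjoint_insert_right] at hd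
    refine RW.snoc k (ih hd.2) hvw ?_ hM
    rw [mem_union, not_or]
    exact ⟨hd.1, hc⟩

theorem RW.symm {M : Finset (Sym2 (Fin n) × Fin s)} {u v : Fin n} {F : Finset (Fin s)}
    (h : RW M u F v) : RW M v F u := by
  induction h with
  | nil => exact RW.nil u
  | @snoc v w F c _ hvw hc hM ih =>
    have h1 : RW M w (insert c ∅) v :=
      RW.snoc c (RW.nil w) hvw.symm (notMem_empty c) (by rw [Sym2.eq_swap]; exact hM)
    have h2 := h1.trans ih (by simpa using hc)
    rwa [insert_union, empty_union] at h2

/-- A rainbow walk contains a rainbow path. -/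
theorem RW.joined (hs : 1 ≤ s) {M : Finset (Sym2 (Fin n) × Fin s)} {u v : Fin n}
    {F : Finset (Fin s)} (h : RW M u F v) : RainbowJoined M u v := by
  suffices H : ∃ (p : (⊤ : SimpleGraph (Fin n)).Walk u v) (col : Sym2 (Fin n) → Fin s),
      p.IsPath ∧ Set.InjOn col {e | e ∈ p.edges} ∧
        ∀ e ∈ p.edges, (e, col e) ∈ M ∧ col e ∈ F by
    obtain ⟨p, col, h1, h2, h3⟩ := H
    exact ⟨p, col, h1, h2, fun e he => (h3 e he).1⟩
  induction h with
  | nil =>
    refine ⟨SimpleGraph.Walk.nil, fun _ => ⟨0, hs⟩, SimpleGraph.Walk.IsPath.nil, ?_, ?_⟩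
    · intro e he
      simp at he
    · intro e he
      simp at he
  | @snoc v w F c _ hvw hc hM ih =>
    obtain ⟨p, col, h1, h2, h3⟩ := ih
    by_cases hw : w ∈ p.support
    · refine ⟨p.takeUntil w hw, col, h1.takeUntil hw, ?_, ?_⟩
      · exact h2.mono fun e he => p.edges_takeUntil_subset_edges hw he
      · intro e he
        have := h3 e (p.edges_takeUntil_subset_edges hw he)
        exact ⟨this.1, mem_insert_of_mem this.2⟩
    · have hadj : (⊤ : SimpleGraph (Fin n)).Adj v w := by simpa using hvw
      have hne : ∀ e ∈ p.edges, e ≠ s(v, w) := by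
        rintro e he rfl
        exact hw (p.snd_mem_support_of_mem_edges he)
      have hmem : ∀ e, e ∈ (p.concat hadj).edges ↔ e ∈ p.edges ∨ e = s(v, w) := by
        intro e
        rw [SimpleGraph.Walk.edges_concat, List.concat_eq_append, List.mem_append,
          List.mem_singleton]
      refine ⟨p.concat hadj, Function.update col s(v, w) c, h1.concat hw hadj, ?_, ?_⟩
      · intro e he e' he' hee
        rw [Set.mem_ofPred_eq, hmem] at he he'
        rcases he with he | rfl <;> rcases he' with he' | rfl
        · rw [Function.update_of_ne (hne e he), Function.update_of_ne (hne e' he')] at hee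
          exact h2 he he' hee
        · rw [Function.update_of_ne (hne e he), Function.update_self] at hee
          exact absurd (hee ▸ (h3 e he).2) hc
        · rw [Function.update_of_ne (hne e' he'), Function.update_self] at hee
          exact absurd (hee ▸ (h3 e' he').2) hc
        · rfl
      · intro e he
        rw [hmem] at he
        rcases he with he | rfl
        · rw [Function.update_of_ne (hne e he)]
          exact ⟨(h3 e he).1, mem_insert_of_mem (h3 e he).2⟩
        · rw [Function.update_self]
          exact ⟨hM, mem_insert_self _ _⟩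

/-- An isolated vertex prevents connectivity. -/
theorem not_rainbowConnected (hn : 2 ≤ n) {M : Finset (Sym2 (Fin n) × Fin s)} (v : Fin n)
    (h : ∀ e ∈ M, v ∉ e.1) : ¬ RainbowConnected M := by
  intro hM
  have : Nontrivial (Fin n) := Fin.nontrivial_iff_two_le.2 hn
  obtain ⟨u, hu⟩ := exists_ne v
  obtain ⟨p, col, -, -, h3⟩ := hM v u
  cases p with
  | nil => exact hu rfl
  | @cons _ x _ ha p' =>
    have := h3 s(v, x) (by simp)
    exact h _ this (Sym2.mem_mk_left v x)

theorem threshold_nonempty (hn : 3 ≤ n) (hs : 1 ≤ s) :
    {b : ℕ | 1 ≤ b ∧ BreakerWinsGame n s b}.Nonempty := by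
  have hB : (board n s).Nonempty := by
    refine ⟨(s(⟨0, by omega⟩, ⟨1, by omega⟩), ⟨0, hs⟩), ?_⟩
    simp [board]
  refine ⟨(board n s).card, hB.card_pos, ?_⟩
  refine BreakerWins.step hB (fun e => (board n s).erase e) (fun e he => ⟨Subset.rfl, ?_⟩) ?_
  · rw [min_eq_right (card_le_card (erase_subset _ _))]
  · intro e he
    rw [sdiff_self]
    refine BreakerWins.done ?_
    obtain ⟨v, hv⟩ : ∃ v : Fin n, v ∉ e.1 := by
      obtain ⟨⟨a, b⟩, c⟩ := e
      have hcard : ({a, b} : Finset (Fin n)).card < (univ : Finset (Fin n)).card := by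
        rw [card_univ, Fintype.card_fin]
        exact lt_of_le_of_lt card_le_two hn
      obtain ⟨v, -, hv⟩ := exists_mem_notMem_of_card_lt_card hcard
      refine ⟨v, ?_⟩
      rw [mem_insert, mem_singleton] at hv
      show ¬ v ∈ s(a, b)
      rw [Sym2.mem_iff]
      exact hv
    refine not_rainbowConnected (by omega) v ?_
    intro e' he'
    rw [mem_insert] at he'
    rcases he' with rfl | he'
    · exact hv
    · exact absurd he' (notMem_empty e')

/-- Specification of the threshold bias. -/
theorem threshold_spec (hn : 3 ≤ n) (hs : 1 ≤ s) (b : ℕ) (hb : 1 ≤ b) :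
    BreakerWinsGame n s b ↔ thresholdBias n s ≤ b := by
  constructor
  · intro h
    exact Nat.sInf_le ⟨hb, h⟩
  · intro h
    have := Nat.sInf_mem (threshold_nonempty hn hs)
    exact BreakerWins.mono rainbowConnected_mono h this.2

/-- `1 ≤ thresholdBias` for `n ≥ 3`. -/
theorem one_le_threshold (hn : 3 ≤ n) (hs : 1 ≤ s) : 1 ≤ thresholdBias n s :=
  (Nat.sInf_mem (threshold_nonempty hn hs)).1

end Rbc
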