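import Pool.Agent.Lib.Rbc.MakerMain
import Pool.Agent.Lib.Rbc.Breaker
import Pool.Agent.Lib.Rbc.Asym

/-! The limit. -/

namespace Rbc

open Finset Filter

theorem eventually_maker (ε : ℝ) (h0 : 0 < ε) (h1 : ε < 1) (s : ℕ → ℕ)
    (hs : Tendsto (fun n : ℕ => (s n : ℝ) / Real.log n) atTop atTop) :
    ∀ᶠ n : ℕ in atTop, ∀ b : ℕ, (b : ℝ) ≤ (1 - ε) * (s n * n / Real.log n) →
      MakerWinsGame n (s n) b := by
  set a : ℝ := (ε / 2) ^ 2 / 64 with ha
  set β : ℝ := a / 64 with hβ
  set c : ℝ := a * β / 8 with hc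
  have ha0 : 0 < a := by rw [ha]; positivity
  have hβ0 : 0 < β := by rw [hβ]; positivity
  have hc0 : 0 < c := by rw [hc]; positivity
  have ha1 : a ≤ 1 / 64 := by
    rw [ha]
    nlinarith
  have haε : a ≤ ε / 64 := by
    rw [ha]
    nlinarith
  have hβ1 : β ≤ 1 := by rw [hβ]; linarith
  have hc1 : c ≤ 1 := by
    rw [hc]
    nlinarith
  have hcε : c ≤ ε / 16 := by
    have : a * β ≤ a * 1 := mul_le_mul_of_nonneg_left hβ1 ha0.le
    rw [hc]
    linarith
  have hd0 : 0 < ε / 2 := by positivity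
  have e1 := asymM1 a (ε / 2) c ha0 hd0 (by linarith) hc0 hc1
  have e2 := asymM2 ε h0 h1 a β c ha0 ha1 hβ hc hcε s hs
  have e3 : ∀ᶠ n : ℕ in atTop, 1 ≤ s n := by
    filter_upwards [hs.eventually_gt_atTop 0] with n hn
    by_contra hcon
    have : s n = 0 := by omega
    rw [this] at hn
    simp at hn
  filter_upwards [e1, e2, e3, eventually_ge_atTop 1] with n hn1 hn2 hn3 hn4 b hb
  obtain ⟨g, k, L, hgl, hlg, hg96, hgn, hk, hka, hkc, hk16, hL, hL2, hq, hQ⟩ := hn1
  obtain ⟨m0, hm0, hm0n, hall⟩ := hn2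
  obtain ⟨i1, i2, i3, i4⟩ := hall g k b hgl (by omega) hkc hb
  exact maker_wins_num ε a β h0 h1 ha hβ hn4 hn3 hg96 hgn hk hka hk16 hL hL2 hq hQ hm0 hm0n
    i1 i2 i3 i4

theorem threshold_limit (s : ℕ → ℕ)
    (hs : Tendsto (fun n : ℕ => (s n : ℝ) / Real.log n) atTop atTop) :
    Tendsto (fun n : ℕ => (thresholdBias n (s n) : ℝ) * Real.log n / (s n * n)) atTop (nhds 1) := by
  rw [Metric.tendsto_nhds]
  intro ε' hε'
  set ε : ℝ := min (ε' / 4) (1 / 2) with hε
  have h0 : 0 < ε := by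
    rw [hε]
    exact lt_min (by positivity) (by norm_num)
  have h1 : ε < 1 := lt_of_le_of_lt (min_le_right _ _) (by norm_num)
  have h2 : ε ≤ ε' / 4 := min_le_left _ _
  have e3 : ∀ᶠ n : ℕ in atTop, 1 ≤ s n := by
    filter_upwards [hs.eventually_gt_atTop 0] with n hn
    by_contra hcon
    have : s n = 0 := by omega
    rw [this] at hn
    simp at hn
  have e4 : ∀ᶠ n : ℕ in atTop, Real.log n ≤ ε * n := by
    have h := (Real.isLittleO_log_id_atTop.bound h0)
    have h' := tendsto_natCast_atTop_atTop.eventually h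
    filter_upwards [h', eventually_ge_atTop 1] with n hn hn1
    have hl : 0 ≤ Real.log n := Real.log_natCast_nonneg n
    rw [Real.norm_of_nonneg hl, id, Real.norm_of_nonneg (Nat.cast_nonneg n)] at hn
    exact hn
  filter_upwards [eventually_maker ε h0 h1 s hs, asymB ε h0 h1, e3, e4, eventually_ge_atTop 3]
    with n hM hB hs1 hlog hn3
  have hnR : (0 : ℝ) < n := by
    have : 0 < n := by omega
    exact_mod_cast this
  have hsR : (1 : ℝ) ≤ s n := by exact_mod_cast hs1
  have hsn : (0 : ℝ) < s n * n := by positivity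
  have hlR : 0 < Real.log n := by
    apply Real.log_pos
    have : 1 < n := by omega
    exact_mod_cast this
  set t := thresholdBias n (s n) with ht
  have ht1 : 1 ≤ t := one_le_threshold hn3 hs1
  have hlow : (1 - ε) * (s n * n / Real.log n) < t := by
    by_contra hcon
    rw [not_lt] at hcon
    have h3 := hM t hcon
    have h4 : BreakerWinsGame n (s n) t := (threshold_spec hn3 hs1 t ht1).mpr le_rfl
    exact (breakerWins_iff _ _ _ _).mp h4 h3
  have hup : (t : ℝ) ≤ (1 + ε) * (s n * n / Real.log n) + 1 := by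
    set b := ⌈(1 + ε) * (s n * n / Real.log n)⌉₊ with hb
    have hpos : 0 < (1 + ε) * (s n * n / Real.log n) := by positivity
    have hb1 : 1 ≤ b := Nat.one_le_iff_ne_zero.mpr (by
      rw [hb]
      exact (Nat.ceil_pos.mpr hpos).ne')
    obtain ⟨m, hm1, hm2, hm3, hm4⟩ := hB (s n) b hs1 (Nat.le_ceil _)
    have h3 := breaker_wins hm1 hm2 hs1 hm3 hm4
    have h4 : t ≤ b := (threshold_spec hn3 hs1 b hb1).mp h3
    have h5 : (b : ℝ) < (1 + ε) * (s n * n / Real.log n) + 1 := Nat.ceil_lt_add_one hpos.le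
    have h6 : (t : ℝ) ≤ b := by exact_mod_cast h4
    linarith
  have hx1 : 1 - ε < (t : ℝ) * Real.log n / (s n * n) := by
    rw [lt_div_iff₀ hsn]
    have := mul_lt_mul_of_pos_right hlow hlR
    have h3 : (1 - ε) * (s n * n / Real.log n) * Real.log n = (1 - ε) * (s n * n) := by
      field_simp
    rw [h3] at this
    exact this
  have hx2 : (t : ℝ) * Real.log n / (s n * n) ≤ 1 + 2 * ε := by
    rw [div_le_iff₀ hsn]
    have := mul_le_mul_of_nonneg_right hup hlR.le
    have h3 : ((1 + ε) * (s n * n / Real.log n) + 1) * Real.log n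
        = (1 + ε) * (s n * n) + Real.log n := by
      field_simp
    rw [h3] at this
    have h4 : ε * n ≤ ε * (s n * n) := by
      apply mul_le_mul_of_nonneg_left _ h0.le
      nlinarith
    linarith
  rw [Real.dist_eq, abs_lt]
  constructor
  · linarith
  · linarith

end Rbc
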