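import Pool.Agent.Lib.Rbc.Defs

/-! JOB POT: the sums of the initial potentials. -/

namespace Rbc

open Finset

/-- The usual bound of binomial coefficients. -/
theorem choose_le_exp (n r : ℕ) (hr : 1 ≤ r) :
    (n.choose r : ℝ) ≤ (Real.exp 1 * n / r) ^ r := by
  have hr0 : (0 : ℝ) < r := by exact_mod_cast hr
  have h1 : (n.choose r : ℝ) ≤ (n : ℝ) ^ r / (r.factorial : ℝ) := Nat.choose_le_pow_div r n
  have h2 : (r : ℝ) ^ r / (r.factorial : ℝ) ≤ Real.exp r :=
    Real.pow_div_factorial_le_exp _ hr0.le _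
  have h3 : (n : ℝ) ^ r / (r.factorial : ℝ) = ((n : ℝ) / r) ^ r * ((r : ℝ) ^ r / r.factorial) := by
    have : (r : ℝ) ^ r ≠ 0 := pow_ne_zero _ hr0.ne'
    rw [div_pow]
    field_simp
  have h4 : (Real.exp 1 * n / r) ^ r = ((n : ℝ) / r) ^ r * Real.exp r := by
    rw [mul_div_assoc, mul_pow, ← Real.exp_nat_mul, mul_one, mul_comm]
  rw [h4]
  rw [h3] at h1
  exact h1.trans (mul_le_mul_of_nonneg_left h2 (by positivity))

theorem choose_mono_half (n : ℕ) {i j : ℕ} (hij : i ≤ j) (hj : 2 * j ≤ n) :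
    n.choose i ≤ n.choose j := by
  induction hij with
  | refl => exact le_rfl
  | @step m hm ih =>
    exact (ih (by omega)).trans (Nat.choose_le_succ_of_lt_half_left (by omega))

/-- The bound for one size of `A`. -/
theorem potE_one {n k a : ℕ} (hk : 1 ≤ k) (ha : 1 ≤ a) (d : ℝ) (hd0 : 0 < d) (hd1 : d ≤ 1)
    (h : (16 * k * a : ℝ) ≤ d ^ 2 / 64 * n) :
    (n.choose a : ℝ) * (n.choose (16 * k * a) : ℝ) * ((2 : ℝ) ^ (1024 * k * a) *
        (16 * k * a / (d * n)) ^ (256 * k * a)) ≤ 1 / 8 * (1 / 8) ^ a := by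
  have hk0 : (1 : ℝ) ≤ k := by exact_mod_cast hk
  have ha0 : (1 : ℝ) ≤ a := by exact_mod_cast ha
  have hka : (1 : ℝ) ≤ k * a := by nlinarith
  have hn0 : (0 : ℝ) < n := by
    by_contra hc
    have : (n : ℝ) = 0 := le_antisymm (not_lt.1 hc) (Nat.cast_nonneg _)
    rw [this] at h
    nlinarith
  have hd2 : d ^ 2 ≤ 1 := pow_le_one₀ hd0.le hd1
  set N : ℕ := 16 * k * a with hN
  have hNc : (N : ℝ) = 16 * k * a := by rw [hN]; push_cast; ring
  have hN16 : 16 ≤ N := by
    have : 1 ≤ k * a := Nat.mul_pos hk ha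
    rw [hN, mul_assoc]
    omega
  have haN : a ≤ N := by
    rw [hN]
    exact Nat.le_mul_of_pos_left a (by positivity)
  have h16 : 16 * a ≤ N := by
    rw [hN, mul_assoc]
    exact Nat.mul_le_mul_left _ (Nat.le_mul_of_pos_left a hk)
  have hNn : 64 * N ≤ n := by
    have : (64 : ℝ) * N ≤ n := by
      rw [hNc]
      nlinarith
    exact_mod_cast this
  have hN0 : (0 : ℝ) < N := by
    rw [hNc]
    nlinarith
  set r : ℝ := N / n with hr
  have hr0 : 0 < r := div_pos hN0 hn0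
  have hrd : r ≤ d ^ 2 / 64 := by
    rw [hr, div_le_iff₀ hn0, hNc]
    exact h
  have c1 : (n.choose N : ℝ) ≤ (Real.exp 1 / r) ^ N := by
    have := choose_le_exp n N (by omega)
    have e : Real.exp 1 * n / N = Real.exp 1 / r := by
      rw [hr]
      field_simp
    rwa [e] at this
  have c2 : (n.choose a : ℝ) ≤ (Real.exp 1 / r) ^ N := by
    refine le_trans ?_ c1
    exact_mod_cast choose_mono_half n haN (by omega)
  have e1 : ((2 : ℝ) ^ (1024 * k * a) * (16 * k * a / (d * n)) ^ (256 * k * a)) =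
      (2 ^ 64 * (r / d) ^ 16) ^ N := by
    have e2 : 1024 * k * a = 64 * N := by rw [hN]; ring
    have e3 : 256 * k * a = 16 * N := by rw [hN]; ring
    have e4 : (16 * k * a / (d * n) : ℝ) = r / d := by
      rw [hr, hNc]
      field_simp
    rw [e2, e3, e4, pow_mul (2 : ℝ) 64 N, pow_mul (r / d) 16 N, ← mul_pow]
  rw [e1]
  have e5 : (n.choose a : ℝ) * (n.choose N : ℝ) * (2 ^ 64 * (r / d) ^ 16) ^ N ≤
      (Real.exp 1 / r * (Real.exp 1 / r) * (2 ^ 64 * (r / d) ^ 16)) ^ N := by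
    rw [mul_pow (Real.exp 1 / r * (Real.exp 1 / r)), mul_pow (Real.exp 1 / r)]
    have t1 : (n.choose a : ℝ) * (n.choose N : ℝ) ≤ (Real.exp 1 / r) ^ N * (Real.exp 1 / r) ^ N :=
      mul_le_mul c2 c1 (Nat.cast_nonneg _) (by positivity)
    exact mul_le_mul_of_nonneg_right t1 (by positivity)
  refine e5.trans ?_
  have e6 : Real.exp 1 / r * (Real.exp 1 / r) * (2 ^ 64 * (r / d) ^ 16) ≤ 1 / 8 := by
    have x1 : Real.exp 1 ^ 2 ≤ 8 := by
      have := Real.exp_one_lt_d9
      have := Real.exp_pos 1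
      nlinarith
    have x2 : Real.exp 1 / r * (Real.exp 1 / r) * (2 ^ 64 * (r / d) ^ 16) =
        Real.exp 1 ^ 2 * (2 ^ 64 * (r ^ 14 / d ^ 16)) := by
      field_simp
    rw [x2]
    have x3 : r ^ 14 ≤ (d ^ 2 / 64) ^ 14 := pow_le_pow_left₀ hr0.le hrd _
    have x4 : r ^ 14 / d ^ 16 ≤ 1 / 64 ^ 14 := by
      rw [div_le_iff₀ (by positivity)]
      refine x3.trans ?_
      rw [div_pow, ← pow_mul, div_mul_eq_mul_div, one_mul]
      have x5 : d ^ (2 * 14) ≤ d ^ 16 := pow_le_pow_of_le_one hd0.le hd1 (by norm_num)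
      exact div_le_div_of_nonneg_right x5 (by positivity)
    calc Real.exp 1 ^ 2 * (2 ^ 64 * (r ^ 14 / d ^ 16)) ≤ 8 * (2 ^ 64 * (1 / 64 ^ 14)) := by
          gcongr
      _ ≤ 1 / 8 := by norm_num
  have e7 : (Real.exp 1 / r * (Real.exp 1 / r) * (2 ^ 64 * (r / d) ^ 16)) ^ N ≤ (1 / 8) ^ N :=
    pow_le_pow_left₀ (by positivity) e6 _
  refine e7.trans ?_
  have e8 : (1 / 8 : ℝ) ^ N ≤ (1 / 8) ^ (1 + a) :=
    pow_le_pow_of_le_one (by norm_num) (by norm_num) (by omega)
  refine e8.trans ?_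
  rw [pow_add, pow_one]

/-- The sum of the potentials of the expansion events.
(For `|A| = a`, `r = 16 k a / n ≤ d ^ 2 / 64`: use `Nat.choose n j ≤ (e n / j) ^ j` for `j = a` and
`j = K a`, `K = 16 k`; the total for a given `a` is at most
`((e K / r) ^ (1 / K) * (e / r) * 2 ^ 64 * (r / d) ^ 16) ^ (K a) ≤ (2 ^ 68 r ^ 14 / d ^ 16) ^ (K a)
≤ 2 ^ (-16 K a)`.) -/
theorem potE {n k : ℕ} (hk : 1 ≤ k) (d : ℝ) (hd0 : 0 < d) (hd1 : d ≤ 1) :
    ∑ p ∈ (univ : Finset (Finset (Fin n) × Finset (Fin n))).filter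
      (fun p => p.1.Nonempty ∧ (16 * k * p.1.card : ℝ) ≤ d ^ 2 / 64 * n ∧
        p.2.card = 16 * k * p.1.card),
      ((2 : ℝ) ^ (1024 * k * p.1.card) *
        (16 * k * p.1.card / (d * n)) ^ (256 * k * p.1.card)) ≤ 1 / 4 := by
  classical
  set S := (univ : Finset (Finset (Fin n) × Finset (Fin n))).filter
      (fun p => p.1.Nonempty ∧ (16 * k * p.1.card : ℝ) ≤ d ^ 2 / 64 * n ∧
        p.2.card = 16 * k * p.1.card) with hS
  have hmap : ∀ p ∈ S, p.1.card ∈ range (n + 1) := by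
    intro p _
    rw [mem_range]
    have := card_le_univ p.1
    rw [Fintype.card_fin] at this
    omega
  rw [← Finset.sum_fiberwise_of_maps_to hmap]
  have key : ∀ a ∈ range (n + 1), ∑ p ∈ S with p.1.card = a,
      ((2 : ℝ) ^ (1024 * k * p.1.card) *
        (16 * k * p.1.card / (d * n)) ^ (256 * k * p.1.card)) ≤ 1 / 8 * (1 / 8) ^ a := by
    intro a _
    by_cases hne : (S.filter fun p => p.1.card = a).Nonempty
    · obtain ⟨q, hq⟩ := hne
      rw [mem_filter, hS, mem_filter] at hq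
      obtain ⟨⟨-, hq1, hq2, hq3⟩, hqa⟩ := hq
      have ha : 1 ≤ a := by
        rw [← hqa]
        exact hq1.card_pos
      rw [hqa] at hq2
      have h1 : ∑ p ∈ S with p.1.card = a,
          ((2 : ℝ) ^ (1024 * k * p.1.card) *
            (16 * k * p.1.card / (d * n)) ^ (256 * k * p.1.card)) =
          ∑ p ∈ S with p.1.card = a,
          ((2 : ℝ) ^ (1024 * k * a) * (16 * k * a / (d * n)) ^ (256 * k * a)) := by
        refine Finset.sum_congr rfl fun p hp => ?_
        rw [(mem_filter.1 hp).2]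
      rw [h1, sum_const, nsmul_eq_mul]
      have h2 : (S.filter fun p => p.1.card = a).card ≤ n.choose a * n.choose (16 * k * a) := by
        have h3 : (S.filter fun p => p.1.card = a) ⊆
            powersetCard a (univ : Finset (Fin n)) ×ˢ
              powersetCard (16 * k * a) (univ : Finset (Fin n)) := by
          intro p hp
          rw [mem_filter, hS, mem_filter] at hp
          obtain ⟨⟨-, -, -, hp3⟩, hpa⟩ := hp
          rw [mem_product, mem_powersetCard, mem_powersetCard]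
          exact ⟨⟨subset_univ _, hpa⟩, subset_univ _, by rw [hp3, hpa]⟩
        have h4 := card_le_card h3
        rwa [card_product, card_powersetCard, card_powersetCard, card_univ, Fintype.card_fin] at h4
      have h5 : ((S.filter fun p => p.1.card = a).card : ℝ) ≤
          (n.choose a : ℝ) * (n.choose (16 * k * a) : ℝ) := by exact_mod_cast h2
      have h6 := potE_one hk ha d hd0 hd1 hq2
      refine le_trans (mul_le_mul_of_nonneg_right h5 ?_) h6
      positivity
    · rw [not_nonempty_iff_eq_empty] at hne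
      rw [hne, sum_empty]
      positivity
  refine (sum_le_sum key).trans ?_
  rw [← mul_sum]
  have hg : ∑ a ∈ range (n + 1), (1 / 8 : ℝ) ^ a ≤ 2 := by
    rw [geom_sum_eq (by norm_num)]
    have : (0 : ℝ) ≤ (1 / 8) ^ (n + 1) := by positivity
    rw [div_le_iff_of_neg (by norm_num)]
    linarith
  linarith

/-- The sum of the potentials of the linking events. -/
theorem potL {n g k : ℕ} (hn : 1 ≤ n) (hg : g ≤ n) (a : ℝ) (ha0 : 0 < a) (ha1 : a ≤ 1)
    (hk : 1 / a ^ 2 ≤ k) :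
    ∑ p ∈ (univ : Finset (Finset (Fin n) × Finset (Fin n) × Finset (Fin g))).filter
      (fun p => a * n / 4 ≤ (p.1.card : ℝ)),
      (((2 - a / 32) / 2) ^ (1024 * k * p.1.card) : ℝ) ≤ 1 / 4 := by
  have hterm : ∀ p ∈ (univ : Finset (Finset (Fin n) × Finset (Fin n) × Finset (Fin g))).filter
      (fun p => a * n / 4 ≤ (p.1.card : ℝ)),
      (((2 - a / 32) / 2) ^ (1024 * k * p.1.card) : ℝ) ≤ Real.exp (-4) ^ n := by
    intro p hp
    have hp1 := (mem_filter.1 hp).2
    have h1 : (2 - a / 32) / 2 = 1 - a / 64 := by ring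
    have h2 : 1 - a / 64 ≤ Real.exp (-(a / 64)) := by
      have := Real.add_one_le_exp (-(a / 64))
      linarith
    have h3 : (1 - a / 64) ^ (1024 * k * p.1.card) ≤
        Real.exp (-(a / 64)) ^ (1024 * k * p.1.card) :=
      pow_le_pow_left₀ (by linarith) h2 _
    rw [h1]
    refine h3.trans ?_
    rw [← Real.exp_nat_mul, ← Real.exp_nat_mul]
    apply Real.exp_le_exp.2
    push_cast
    have h4 : 1 ≤ (k : ℝ) * a ^ 2 := by
      rwa [div_le_iff₀ (by positivity)] at hk
    have hn0 : (0 : ℝ) ≤ n := Nat.cast_nonneg n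
    have hk0 : (0 : ℝ) ≤ k := Nat.cast_nonneg k
    have h5 : (n : ℝ) * 1 ≤ n * ((k : ℝ) * a ^ 2) := mul_le_mul_of_nonneg_left h4 hn0
    have h6 : (k : ℝ) * a * (a * n / 4) ≤ k * a * p.1.card :=
      mul_le_mul_of_nonneg_left hp1 (by positivity)
    nlinarith
  refine (sum_le_card_nsmul _ _ _ hterm).trans ?_
  rw [nsmul_eq_mul]
  have hcard : (((univ : Finset (Finset (Fin n) × Finset (Fin n) × Finset (Fin g))).filter
      (fun p => a * n / 4 ≤ (p.1.card : ℝ))).card : ℝ) ≤ 8 ^ n := by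
    have h1 := card_filter_le (univ : Finset (Finset (Fin n) × Finset (Fin n) × Finset (Fin g)))
      (fun p => a * n / 4 ≤ (p.1.card : ℝ))
    have h2 : (univ : Finset (Finset (Fin n) × Finset (Fin n) × Finset (Fin g))).card =
        2 ^ n * (2 ^ n * 2 ^ g) := by
      rw [card_univ, Fintype.card_prod, Fintype.card_prod, Fintype.card_finset,
        Fintype.card_finset, Fintype.card_fin, Fintype.card_fin]
    have h3 : 2 ^ n * (2 ^ n * 2 ^ g) ≤ 8 ^ n := by
      calc 2 ^ n * (2 ^ n * 2 ^ g) ≤ 2 ^ n * (2 ^ n * 2 ^ n) := by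
            gcongr
            norm_num
        _ = 8 ^ n := by rw [← mul_pow, ← mul_pow]; norm_num
    rw [h2] at h1
    exact_mod_cast h1.trans h3
  have hexp : Real.exp (-4) ≤ 1 / 32 := by
    have h1 : Real.exp (-4) = (Real.exp 4)⁻¹ := Real.exp_neg 4
    have h2 : (32 : ℝ) ≤ Real.exp 4 := by
      have h3 : Real.exp 4 = Real.exp 1 ^ 4 := by
        rw [← Real.exp_nat_mul]
        norm_num
      rw [h3]
      have h4 : (2.7 : ℝ) ≤ Real.exp 1 := by
        have := Real.exp_one_gt_d9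
        linarith
      calc (32 : ℝ) ≤ 2.7 ^ 4 := by norm_num
        _ ≤ Real.exp 1 ^ 4 := pow_le_pow_left₀ (by norm_num) h4 _
    rw [h1, one_div]
    exact inv_anti₀ (by norm_num) h2
  calc _ ≤ (8 : ℝ) ^ n * (1 / 32) ^ n := by
        gcongr
    _ = (1 / 4) ^ n := by rw [← mul_pow]; norm_num
    _ ≤ (1 / 4) ^ 1 := pow_le_pow_of_le_one (by norm_num) (by norm_num) hn
    _ = 1 / 4 := by norm_num

end Rbc
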