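import Pool.Agent.Lib.Rbc.Game
import Pool.Agent.Lib.Rbc.Chernoff

/-! Expansion and the rainbow path. -/

namespace Rbc

open Finset

variable {n s g : ℕ}

/-- The walk coded by a list uses distinct groups, all in class `j`. -/
def GoodW {D : ℕ} (pk : Fin n → Fin D → Fin n × Fin s) (grp : Fin s → Fin g) (χ : Fin g → Fin 3)
    (j : Fin 3) (u : Fin n) : List (Fin D) → Prop
  | [] => True
  | i :: w => GoodW pk grp χ j u w ∧ χ (grp (pk (endp pk u w) i).2) = j ∧
      grp (pk (endp pk u w) i).2 ∉ grps pk grp u w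

/-- The groups used by a good walk belong to the class. -/
theorem GoodW.class {D : ℕ} {pk : Fin n → Fin D → Fin n × Fin s} {grp : Fin s → Fin g}
    {χ : Fin g → Fin 3} {j : Fin 3} {u : Fin n} :
    ∀ {w : List (Fin D)}, GoodW pk grp χ j u w → ∀ f ∈ grps pk grp u w, χ f = j
  | [], _, f, hf => by simp [grps] at hf
  | i :: w, h, f, hf => by
    rw [grps, mem_insert] at hf
    rcases hf with rfl | hf
    · exact h.2.1
    · exact h.1.class f hf

/-- A good walk is a rainbow walk. -/
theorem GoodW.rw {D : ℕ} {pk : Fin n → Fin D → Fin n × Fin s} {grp : Fin s → Fin g}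
    {χ : Fin g → Fin 3} {j : Fin 3} {u : Fin n} {M : Finset (Sym2 (Fin n) × Fin s)}
    (hne : ∀ x i, (pk x i).1 ≠ x) (hM : ∀ x i, (s(x, (pk x i).1), (pk x i).2) ∈ M) :
    ∀ {w : List (Fin D)}, GoodW pk grp χ j u w →
      ∃ F, RW M u F (endp pk u w) ∧ ∀ c ∈ F, grp c ∈ grps pk grp u w
  | [], _ => ⟨∅, RW.nil u, by simp⟩
  | i :: w, h => by
    obtain ⟨F, h1, h2⟩ := h.1.rw hne hM
    refine ⟨insert (pk (endp pk u w) i).2 F,
      RW.snoc _ h1 (Ne.symm (hne _ i)) (fun hc => h.2.2 (h2 _ hc)) (hM _ i), fun c hc => ?_⟩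
    rw [grps, mem_insert]
    rcases mem_insert.1 hc with rfl | hc
    · exact Or.inl rfl
    · exact Or.inr (h2 c hc)

/-- The ends of the good walks of length `l`. -/
noncomputable def ends {D : ℕ} (pk : Fin n → Fin D → Fin n × Fin s) (grp : Fin s → Fin g)
    (χ : Fin g → Fin 3) (j : Fin 3) (u : Fin n) (l : ℕ) : Finset (Fin n) := by
  classical
  exact univ.filter fun x =>
    ∃ w : List (Fin D), w.length = l ∧ GoodW pk grp χ j u w ∧ endp pk u w = x

theorem mem_ends {D : ℕ} {pk : Fin n → Fin D → Fin n × Fin s} {grp : Fin s → Fin g}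
    {χ : Fin g → Fin 3} {j : Fin 3} {u : Fin n} {l : ℕ} {x : Fin n} :
    x ∈ ends pk grp χ j u l ↔
      ∃ w : List (Fin D), w.length = l ∧ GoodW pk grp χ j u w ∧ endp pk u w = x := by
  classical
  simp [ends]

/-- Many ends of good walks have a good walk with large free degree. -/
theorem ends_free {k : ℕ} (grp : Fin s → Fin g)
    (pk : Fin n → Fin (1024 * k) → Fin n × Fin s) (χ : Fin g → Fin 3) (j : Fin 3)
    (u : Fin n) (l : ℕ) :
    ∃ A : Finset (Fin n), (ends pk grp χ j u l).card ≤ A.card + unb k pk grp χ j u l ∧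
      ∀ x ∈ A, ∃ w : List (Fin (1024 * k)), w.length = l ∧ GoodW pk grp χ j u w ∧
        endp pk u w = x ∧ 256 * k ≤ freeDeg pk grp χ j u w := by
  classical
  let P : Fin n → Prop := fun x => ∃ w : List (Fin (1024 * k)), w.length = l ∧
    GoodW pk grp χ j u w ∧ endp pk u w = x ∧ 256 * k ≤ freeDeg pk grp χ j u w
  refine ⟨(ends pk grp χ j u l).filter P, ?_, fun x hx => (mem_filter.1 hx).2⟩
  have h1 : ((ends pk grp χ j u l).filter fun x => ¬ P x).card ≤ unb k pk grp χ j u l := by
    have h2 : ∀ x ∈ (ends pk grp χ j u l).filter fun x => ¬ P x,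
        ∃ w : List.Vector (Fin (1024 * k)) l, freeDeg pk grp χ j u w.toList < 256 * k ∧
          endp pk u w.toList = x := by
      intro x hx
      obtain ⟨hx1, hx2⟩ := mem_filter.1 hx
      obtain ⟨w, hw1, hw2, hw3⟩ := mem_ends.1 hx1
      refine ⟨⟨w, hw1⟩, ?_, hw3⟩
      by_contra hc
      exact hx2 ⟨w, hw1, hw2, hw3, not_lt.1 hc⟩
    rw [unb]
    refine card_le_card_of_surjOn (fun w => endp pk u w.toList) fun x hx => ?_
    obtain ⟨w, hw1, hw2⟩ := h2 x (mem_coe.1 hx)
    exact ⟨w, mem_coe.2 (mem_filter.2 ⟨mem_univ _, hw1⟩), hw2⟩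
  have h3 := card_filter_add_card_filter_not (s := ends pk grp χ j u l) P
  omega

/-- Growth. -/
theorem growth {k L : ℕ} (hk : 1 ≤ k) (grp : Fin s → Fin g)
    (pk : Fin n → Fin (1024 * k) → Fin n × Fin s) (a : ℝ)
    (Ex : ∀ A B : Finset (Fin n), A.Nonempty → (16 * k * A.card : ℝ) ≤ a * n →
      B.card ≤ 16 * k * A.card →
      ∑ x ∈ A, (univ.filter fun i => (pk x i).1 ∈ B).card < 256 * k * A.card)
    (hn : n < (8 * k) ^ L) (hK : (16 * k : ℝ) ≤ a * n / 2) (χ : Fin g → Fin 3) (j : Fin 3)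
    (u : Fin n) (hU : ∀ l < L, 2 * unb k pk grp χ j u l ≤ (8 * k) ^ l) :
    ∃ A : Finset (Fin n), a * n / 2 ≤ A.card ∧
      ∀ x ∈ A, ∃ w : List (Fin (1024 * k)), GoodW pk grp χ j u w ∧ endp pk u w = x := by
  classical
  by_contra hcon
  have hsmall : ∀ l, ((ends pk grp χ j u l).card : ℝ) < a * n / 2 := by
    intro l
    by_contra hl
    refine hcon ⟨ends pk grp χ j u l, not_lt.1 hl, fun x hx => ?_⟩
    obtain ⟨w, -, hw2, hw3⟩ := mem_ends.1 hx
    exact ⟨w, hw2, hw3⟩
  have hk0 : (0 : ℝ) < 16 * k := by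
    have : (1 : ℝ) ≤ k := by exact_mod_cast hk
    linarith
  have key : ∀ l ≤ L, (8 * k) ^ l ≤ (ends pk grp χ j u l).card := by
    intro l
    induction l with
    | zero =>
      intro _
      rw [pow_zero, Nat.one_le_iff_ne_zero, Ne, card_eq_zero, ← Ne, ← nonempty_iff_ne_empty]
      exact ⟨u, mem_ends.2 ⟨[], rfl, trivial, rfl⟩⟩
    | succ l ih =>
      intro hl
      have ih' := ih (by omega)
      obtain ⟨A, hA1, hA2⟩ := ends_free grp pk χ j u l
      have hU' := hU l (by omega)
      have hA : (8 * k) ^ l ≤ 2 * A.card := by omega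
      have hsum : ∀ A' ⊆ A, 256 * k * A'.card ≤
          ∑ x ∈ A', (univ.filter fun i => (pk x i).1 ∈ ends pk grp χ j u (l + 1)).card := by
        intro A' hA'
        rw [mul_comm, ← smul_eq_mul]
        refine card_nsmul_le_sum _ _ _ fun x hx => ?_
        obtain ⟨w, hw1, hw2, hw3, hw4⟩ := hA2 x (hA' hx)
        refine hw4.trans (card_le_card fun i hi => ?_)
        simp only [mem_filter, mem_univ, true_and] at hi ⊢
        rw [hw3] at hi
        refine mem_ends.2 ⟨i :: w, by simp [hw1], ⟨hw2, ?_, ?_⟩, ?_⟩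
        · rw [hw3]; exact hi.2
        · rw [hw3]; exact hi.1
        · rw [endp, hw3]
      by_cases hc : (16 * k * A.card : ℝ) ≤ a * n
      · by_contra hlt
        have hApos : A.Nonempty := by
          rw [nonempty_iff_ne_empty, Ne, ← card_eq_zero]
          have : 0 < (8 * k) ^ l := by positivity
          omega
        have h1 : (ends pk grp χ j u (l + 1)).card ≤ 16 * k * A.card := by
          have h2 : (8 * k) ^ (l + 1) ≤ 16 * k * A.card := by
            calc (8 * k) ^ (l + 1) = 8 * k * (8 * k) ^ l := by ring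
              _ ≤ 8 * k * (2 * A.card) := Nat.mul_le_mul_left _ hA
              _ = 16 * k * A.card := by ring
          omega
        exact absurd (Ex A _ hApos hc h1) (not_lt.2 (hsum A Subset.rfl))
      · exfalso
        rw [not_le] at hc
        have hm1 : ⌊a * n / (16 * k)⌋₊ ≤ A.card := by
          rw [← Nat.cast_le (α := ℝ)]
          have h0 : (0 : ℝ) ≤ a * n / (16 * k) := by
            apply div_nonneg _ hk0.le
            linarith
          refine (Nat.floor_le h0).trans ?_
          rw [div_le_iff₀ hk0]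
          linarith
        obtain ⟨A', hA', hcard⟩ := exists_subset_card_eq hm1
        have h0 : (0 : ℝ) ≤ a * n / (16 * k) := by
          apply div_nonneg _ hk0.le
          linarith
        have h2 : (16 * k * A'.card : ℝ) ≤ a * n := by
          have := Nat.floor_le h0
          rw [hcard]
          rw [le_div_iff₀ hk0] at this
          linarith
        have h3 : a * n / 2 ≤ (16 * k * A'.card : ℝ) := by
          have := Nat.lt_floor_add_one (a * n / (16 * k))
          rw [div_lt_iff₀ hk0] at this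
          rw [hcard]
          linarith
        have h4 : A'.Nonempty := by
          rw [nonempty_iff_ne_empty]
          rintro rfl
          simp only [card_empty, Nat.cast_zero, mul_zero] at h3
          linarith
        have h5 : (ends pk grp χ j u (l + 1)).card ≤ 16 * k * A'.card := by
          have h6 := hsmall (l + 1)
          rw [← Nat.cast_le (α := ℝ)]
          push_cast
          linarith
        exact absurd (Ex A' _ h4 h2 h5) (not_lt.2 (hsum A' hA'))
  have h1 := key L le_rfl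
  have h2 : (ends pk grp χ j u L).card ≤ n := by
    simpa using card_le_univ (ends pk grp χ j u L)
  omega

/-- The structural theorem: the picks yield rainbow walks between all pairs of vertices. -/
theorem struct {k L : ℕ} (hk : 1 ≤ k) (hL : 1 ≤ L) (hg : 96 ≤ g) (grp : Fin s → Fin g)
    (pk : Fin n → Fin (1024 * k) → Fin n × Fin s) (a : ℝ)
    (M : Finset (Sym2 (Fin n) × Fin s))
    (hne : ∀ x i, (pk x i).1 ≠ x) (hM : ∀ x i, (s(x, (pk x i).1), (pk x i).2) ∈ M)
    (Q : ∀ x, ∀ F : Finset (Fin g), F.card ≤ L →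
      (univ.filter fun i => grp (pk x i).2 ∈ F).card < k)
    (Ex : ∀ A B : Finset (Fin n), A.Nonempty → (16 * k * A.card : ℝ) ≤ a * n →
      B.card ≤ 16 * k * A.card →
      ∑ x ∈ A, (univ.filter fun i => (pk x i).1 ∈ B).card < 256 * k * A.card)
    (High : Finset (Fin n)) (hHigh : (High.card : ℝ) ≤ a * n / 4)
    (Lk : ∀ A B : Finset (Fin n), ∀ G : Finset (Fin g), a * n / 4 ≤ A.card → a * n / 2 ≤ B.card →
      (g : ℝ) / 4 ≤ G.card → Disjoint A High →
      ∃ x ∈ A, ∃ i, (pk x i).1 ∈ B ∧ grp (pk x i).2 ∈ G)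
    (hn : n < (8 * k) ^ L) (hK : (16 * k : ℝ) ≤ a * n / 2) (u v : Fin n) :
    ∃ F, RW M u F v := by
  classical
  obtain ⟨χ, h0, h1, h2⟩ := exists_partition hk hL hg grp pk Q u v
  obtain ⟨A0, hA1, hA2⟩ := growth hk grp pk a Ex hn hK χ 0 u h0
  obtain ⟨B, hB1, hB2⟩ := growth hk grp pk a Ex hn hK χ 1 v h1
  have hA3 : a * n / 4 ≤ ((A0 \ High).card : ℝ) := by
    have h3 : A0.card ≤ (A0 \ High).card + High.card := by
      have := le_card_sdiff High A0
      omega
    have h4 : (A0.card : ℝ) ≤ (A0 \ High).card + High.card := by exact_mod_cast h3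
    linarith
  obtain ⟨x, hx, i, hi1, hi2⟩ := Lk (A0 \ High) B _ hA3 hB1 h2 sdiff_disjoint
  obtain ⟨w0, hw0, hx0⟩ := hA2 x (mem_sdiff.1 hx).1
  obtain ⟨w1, hw1, hx1⟩ := hB2 _ hi1
  obtain ⟨F0, hF0, hG0⟩ := hw0.rw hne hM
  obtain ⟨F1, hF1, hG1⟩ := hw1.rw hne hM
  rw [hx0] at hF0
  rw [hx1] at hF1
  have hi2' : χ (grp (pk x i).2) = 2 := (mem_filter.1 hi2).2
  have hc : (pk x i).2 ∉ F0 := by
    intro hc
    have := hw0.class _ (hG0 _ hc)
    rw [hi2'] at this
    exact absurd this (by decide)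
  have h3 := RW.snoc (pk x i).2 hF0 (Ne.symm (hne x i)) hc (hM x i)
  refine ⟨_, h3.trans hF1.symm ?_⟩
  rw [disjoint_left]
  intro c hc0 hc1
  have h4 := hw1.class _ (hG1 _ hc1)
  rcases mem_insert.1 hc0 with rfl | hc0
  · rw [hi2'] at h4
    exact absurd h4 (by decide)
  · have h5 := hw0.class _ (hG0 _ hc0)
    rw [h4] at h5
    exact absurd h5 (by decide)

end Rbc
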