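import Pool.Agent.Lib.Rbc.Strategy
import Pool.Agent.Lib.Rbc.Struct
import Pool.Agent.Lib.Rbc.Pot

/-! Maker wins: the instantiation of the strategy. -/

namespace Rbc

open Finset

/-- The group of a colour. -/
def grp (s g : ℕ) (hg : 0 < g) : Fin s → Fin g := fun c => ⟨c.1 % g, Nat.mod_lt _ hg⟩

theorem grp_fiber (s g : ℕ) (hg : 0 < g) (i : Fin g) :
    s / g ≤ (univ.filter fun c => grp s g hg c = i).card ∧
      (univ.filter fun c => grp s g hg c = i).card ≤ s / g + 1 := by
  have h1 : (univ.filter fun c => grp s g hg c = i).card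
      = Nat.count (fun x => x ≡ i.1 [MOD g]) s := by
    rw [Nat.count_eq_card_filter_range]
    apply Finset.card_bij (fun c _ => c.1)
    · intro c hc
      rw [Finset.mem_filter] at hc ⊢
      refine ⟨Finset.mem_range.mpr c.2, ?_⟩
      have := congrArg Fin.val hc.2
      unfold grp at this
      simp only at this
      unfold Nat.ModEq
      rw [this, Nat.mod_eq_of_lt i.2]
    · intro c _ c' _ h
      exact Fin.ext h
    · intro x hx
      rw [Finset.mem_filter, Finset.mem_range] at hx
      refine ⟨⟨x, hx.1⟩, ?_, rfl⟩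
      rw [Finset.mem_filter]
      refine ⟨Finset.mem_univ _, ?_⟩
      apply Fin.ext
      show x % g = i.1
      have := hx.2
      unfold Nat.ModEq at this
      rw [this, Nat.mod_eq_of_lt i.2]
  rw [h1, Nat.count_modEq_card s hg]
  constructor
  · exact Nat.le_add_right _ _
  · apply Nat.add_le_add_left
    split_ifs <;> omega

theorem grp_pre (s g : ℕ) (hg : 0 < g) (F : Finset (Fin g)) :
    (univ.filter fun c => grp s g hg c ∈ F).card =
      ∑ i ∈ F, (univ.filter fun c => grp s g hg c = i).card := by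
  rw [Finset.card_eq_sum_card_fiberwise (f := grp s g hg) (t := F)]
  · apply Finset.sum_congr rfl
    intro i hi
    congr 1
    ext c
    simp only [Finset.mem_filter, Finset.mem_univ, true_and]
    constructor
    · rintro ⟨_, h⟩
      exact h
    · intro h
      exact ⟨h ▸ hi, h⟩
  · intro c hc
    have := (Finset.mem_filter.mp (Finset.mem_coe.mp hc)).2
    exact this

theorem grp_pre_le (s g : ℕ) (hg : 0 < g) (F : Finset (Fin g)) :
    ((univ.filter fun c => grp s g hg c ∈ F).card : ℝ) ≤ F.card * ((s : ℝ) / g + 1) := by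
  rw [grp_pre]
  push_cast
  rw [← nsmul_eq_mul]
  apply Finset.sum_le_card_nsmul
  intro i _
  have h1 := (grp_fiber s g hg i).2
  have h2 : ((univ.filter fun c => grp s g hg c = i).card : ℝ) ≤ ((s / g : ℕ) : ℝ) + 1 := by
    exact_mod_cast h1
  have h3 : ((s / g : ℕ) : ℝ) ≤ (s : ℝ) / g := Nat.cast_div_le
  linarith

theorem grp_pre_ge (s g : ℕ) (hg : 0 < g) (F : Finset (Fin g)) :
    F.card * ((s : ℝ) / g - 1) ≤ ((univ.filter fun c => grp s g hg c ∈ F).card : ℝ) := by
  rw [grp_pre]
  push_cast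
  rw [← nsmul_eq_mul]
  apply Finset.card_nsmul_le_sum
  intro i _
  have h1 := (grp_fiber s g hg i).1
  have h2 : ((s / g : ℕ) : ℝ) ≤ ((univ.filter fun c => grp s g hg c = i).card : ℝ) := by
    exact_mod_cast h1
  have h3 : (s : ℝ) / g < ((s / g : ℕ) : ℝ) + 1 := by
    rw [div_lt_iff₀ (by exact_mod_cast hg)]
    have h4 := Nat.lt_div_mul_add (a := s) hg
    have h5 : (s : ℝ) < ((s / g * g + g : ℕ) : ℝ) := by exact_mod_cast h4
    push_cast at h5
    linarith
  linarith

/-- Enumeration of the picks. -/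
theorem exists_pk {n s D : ℕ} (P : Fin n → Finset (Fin n × Fin s)) (hP : ∀ x, (P x).card = D) :
    ∃ pk : Fin n → Fin D → Fin n × Fin s, (∀ x i, pk x i ∈ P x) ∧
      ∀ (x : Fin n) (pr : Fin n × Fin s → Prop) [DecidablePred pr],
        (univ.filter fun i => pr (pk x i)).card = ((P x).filter pr).card := by
  refine ⟨fun x i => ((Finset.equivFinOfCardEq (hP x)).symm i).1, ?_, ?_⟩
  · intro x i
    exact ((Finset.equivFinOfCardEq (hP x)).symm i).2
  · intro x pr _
    apply Finset.card_bij (fun i _ => ((Finset.equivFinOfCardEq (hP x)).symm i).1)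
    · intro i hi
      rw [Finset.mem_filter] at hi ⊢
      exact ⟨((Finset.equivFinOfCardEq (hP x)).symm i).2, hi.2⟩
    · intro i _ j _ h
      exact (Finset.equivFinOfCardEq (hP x)).symm.injective (Subtype.ext h)
    · intro q hq
      rw [Finset.mem_filter] at hq
      refine ⟨Finset.equivFinOfCardEq (hP x) ⟨q, hq.1⟩, ?_, ?_⟩
      · rw [Finset.mem_filter]
        simp [hq.2]
      · simp

/-- Index type of the spread events. -/
abbrev IQ (n g L : ℕ) := {p : Fin n × Finset (Fin g) // p.2.card ≤ L}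

/-- Index type of the expansion events. -/
abbrev IE (n k : ℕ) (a : ℝ) := {p : Finset (Fin n) × Finset (Fin n) //
  p.1.Nonempty ∧ (16 * k * p.1.card : ℝ) ≤ a * n ∧ p.2.card = 16 * k * p.1.card}

/-- Index type of the linking events. -/
abbrev IL (n g : ℕ) (a : ℝ) := {p : Finset (Fin n) × Finset (Fin n) × Finset (Fin g) //
  a * n / 4 ≤ (p.1.card : ℝ) ∧ a * n / 2 ≤ (p.2.1.card : ℝ) ∧ (g : ℝ) / 4 ≤ (p.2.2.card : ℝ)}

theorem maker_wins_num {n s g k L b m0 : ℕ} (ε a β : ℝ) (h0 : 0 < ε) (h1 : ε < 1)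
    (ha : a = (ε / 2) ^ 2 / 64) (hβ : β = a / 64) (hn : 1 ≤ n) (hs : 1 ≤ s)
    (hg : 96 ≤ g) (hgn : g ≤ n) (hk : 1 ≤ k) (hka : 1 / a ^ 2 ≤ k)
    (hka2 : (16 * k : ℝ) ≤ a * n / 2) (hL : 1 ≤ L) (hL2 : n < (8 * k) ^ L)
    (hq : 2 * (L : ℝ) / (g * (ε / 2)) < 1)
    (hQ : (n : ℝ) * 2 ^ g * (2 ^ (1024 * k) * (2 * L / (g * (ε / 2))) ^ k) ≤ 1 / 4)
    (hm0 : 1 ≤ m0) (hm0n : m0 ≤ n)
    (hfree : ε / 2 * (s * n) ≤ s * (n - 1) - (2 * b * (1024 * k) +
      (b * (1 + Real.log n) + b * Real.log ((n : ℝ) / m0) + s * m0)) - 1024 * k * n)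
    (hhigh : 2 * ((b : ℝ) * (1024 * k * n)) ≤ a * n / 4 * (β * (s * n)))
    (hlink : a / 32 * (s * n) ≤ (a * n / 2 - 1) * (g / 4 * (s / g - 1)) - β * (s * n) -
      1024 * k * n)
    (hsg : (s : ℝ) / g + 1 ≤ 2 * s / g) : MakerWinsGame n s b := by
  classical
  obtain ⟨G1, G2, hG1n, hG2n, hG1, hG2, hG, hGb⟩ := exists_G n s b m0 hm0 hm0n
  have hg0 : 0 < g := by omega
  have hgR : (0 : ℝ) < g := by exact_mod_cast hg0
  have hnR : (0 : ℝ) < n := by exact_mod_cast hn
  have hsR : (0 : ℝ) < s := by exact_mod_cast hs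
  have hkR : (0 : ℝ) < k := by exact_mod_cast hk
  have hLR : (0 : ℝ) < L := by exact_mod_cast hL
  have ha0 : 0 < a := by rw [ha]; positivity
  have ha1 : a ≤ 1 := by
    rw [ha]
    nlinarith
  have hβ0 : 0 < β := by rw [hβ]; positivity
  set d : ℝ := ε / 2 with hd
  have hd0 : 0 < d := by positivity
  have hd1 : d ≤ 1 := by linarith
  have hq0 : 0 < 2 * (L : ℝ) / (g * d) := by positivity
  -- events
  let A : IQ n g L ⊕ IE n k a ⊕ IL n g a → Finset (Fin n) :=
    Sum.elim (fun p => {p.1.1}) (Sum.elim (fun p => p.1.1) (fun p => p.1.1))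
  let T : IQ n g L ⊕ IE n k a ⊕ IL n g a → Finset (Fin n × Fin s) :=
    Sum.elim (fun p => univ.filter fun q => grp s g hg0 q.2 ∈ p.1.2)
      (Sum.elim (fun p => univ.filter fun q => q.1 ∈ p.1.2)
        (fun p => univ.filter fun q => ¬ (q.1 ∈ p.1.2.1 ∧ grp s g hg0 q.2 ∈ p.1.2.2)))
  let pp : IQ n g L ⊕ IE n k a ⊕ IL n g a → ℝ :=
    Sum.elim (fun _ => 2 * (L : ℝ) / (g * d))
      (Sum.elim (fun p => 16 * k * p.1.1.card / (d * n)) (fun _ => 1 - a / 32))
  let θ : IQ n g L ⊕ IE n k a ⊕ IL n g a → ℝ :=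
    Sum.elim (fun _ => 1 / (2 * (L : ℝ) / (g * d)))
      (Sum.elim (fun p => 1 / (16 * k * p.1.1.card / (d * n))) (fun _ => 2))
  let ρ : IQ n g L ⊕ IE n k a ⊕ IL n g a → ℝ :=
    Sum.elim (fun _ => 2) (Sum.elim (fun _ => 2) (fun _ => 2 - a / 32))
  let τ : IQ n g L ⊕ IE n k a ⊕ IL n g a → ℕ :=
    Sum.elim (fun _ => k) (Sum.elim (fun p => 256 * k * p.1.1.card)
      (fun p => 1024 * k * p.1.1.card))
  let low : IQ n g L ⊕ IE n k a ⊕ IL n g a → Prop :=
    Sum.elim (fun _ => False) (Sum.elim (fun _ => False) (fun _ => True))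
  have hpE0 : ∀ p : IE n k a, (0 : ℝ) < 16 * k * p.1.1.card / (d * n) := by
    intro p
    have : (0 : ℝ) < p.1.1.card := by exact_mod_cast p.2.1.card_pos
    positivity
  have hpE1 : ∀ p : IE n k a, (16 : ℝ) * k * p.1.1.card / (d * n) ≤ 1 := by
    intro p
    rw [div_le_one (by positivity)]
    refine p.2.2.1.trans ?_
    apply mul_le_mul_of_nonneg_right _ hnR.le
    rw [ha]
    nlinarith
  have hθ : ∀ i, 1 ≤ θ i := by
    rintro (p | p | p)
    · show 1 ≤ 1 / (2 * (L : ℝ) / (g * d))
      rw [le_div_iff₀ hq0, one_mul]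
      exact hq.le
    · show (1 : ℝ) ≤ 1 / (16 * k * p.1.1.card / (d * n))
      rw [le_div_iff₀ (hpE0 p), one_mul]
      exact hpE1 p
    · show (1 : ℝ) ≤ 2
      norm_num
  have hρ : ∀ i, 1 + (θ i - 1) * pp i ≤ ρ i := by
    rintro (p | p | p)
    · show 1 + (1 / (2 * (L : ℝ) / (g * d)) - 1) * (2 * (L : ℝ) / (g * d)) ≤ 2
      rw [sub_mul, one_mul, one_div, inv_mul_cancel₀ hq0.ne']
      linarith
    · show 1 + (1 / (16 * k * p.1.1.card / (d * n)) - 1) * (16 * k * p.1.1.card / (d * n)) ≤ (2 : ℝ)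
      rw [sub_mul, one_mul, one_div, inv_mul_cancel₀ (hpE0 p).ne']
      linarith [hpE0 p]
    · show 1 + ((2 : ℝ) - 1) * (1 - a / 32) ≤ 2 - a / 32
      linarith
  have hρ0 : ∀ i, 0 < ρ i := by
    rintro (p | p | p)
    · show (0 : ℝ) < 2
      norm_num
    · show (0 : ℝ) < 2
      norm_num
    · show (0 : ℝ) < 2 - a / 32
      linarith
  have hmin : 0 < d * (s * n) := by positivity
  have hfree' : d * (s * n) ≤ s * (n - 1) - (2 * b * ((1024 * k : ℕ) : ℝ) + (G1 1 + b))
      - ((1024 * k : ℕ) : ℝ) * n := by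
    push_cast
    linarith
  have hT : ∀ i, ∀ x ∈ A i, ∀ Fr ⊆ allP n s x, d * (s * n) ≤ Fr.card →
      (low i → ((allP n s x \ Fr).card : ℝ) ≤ β * (s * n) + ((1024 * k : ℕ) : ℝ) * n) →
      ((Fr.filter (· ∈ T i)).card : ℝ) ≤ pp i * Fr.card := by
    rintro (p | p | p) x hx Fr hFr hmf hlow
    · show ((Fr.filter (· ∈ univ.filter fun q : Fin n × Fin s => grp s g hg0 q.2 ∈ p.1.2)).card : ℝ)
        ≤ 2 * (L : ℝ) / (g * d) * Fr.card
      have e1 : (Fr.filter (· ∈ univ.filter fun q : Fin n × Fin s => grp s g hg0 q.2 ∈ p.1.2)).card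
          ≤ ((univ : Finset (Fin n)) ×ˢ (univ.filter fun c => grp s g hg0 c ∈ p.1.2)).card := by
        apply Finset.card_le_card
        intro q hq
        have := (Finset.mem_filter.mp hq).2
        rw [Finset.mem_filter] at this
        rw [Finset.mem_product]
        exact ⟨Finset.mem_univ _, Finset.mem_filter.mpr ⟨Finset.mem_univ _, this.2⟩⟩
      rw [Finset.card_product, Finset.card_univ, Fintype.card_fin] at e1
      have e2 := grp_pre_le s g hg0 p.1.2
      have e3 : ((p.1.2).card : ℝ) ≤ L := by exact_mod_cast p.2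
      calc ((Fr.filter (· ∈ univ.filter fun q : Fin n × Fin s => grp s g hg0 q.2 ∈ p.1.2)).card : ℝ)
          ≤ (n : ℝ) * (univ.filter fun c => grp s g hg0 c ∈ p.1.2).card := by exact_mod_cast e1
        _ ≤ (n : ℝ) * (L * (2 * s / g)) := by
            apply mul_le_mul_of_nonneg_left _ hnR.le
            refine e2.trans ?_
            apply mul_le_mul e3 hsg (by positivity) hLR.le
        _ = 2 * (L : ℝ) / (g * d) * (d * (s * n)) := by
            field_simp
        _ ≤ 2 * (L : ℝ) / (g * d) * Fr.card := mul_le_mul_of_nonneg_left hmf hq0.le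
    · show ((Fr.filter (· ∈ univ.filter fun q : Fin n × Fin s => q.1 ∈ p.1.2)).card : ℝ)
        ≤ 16 * k * p.1.1.card / (d * n) * Fr.card
      have e1 : (Fr.filter (· ∈ univ.filter fun q : Fin n × Fin s => q.1 ∈ p.1.2)).card
          ≤ (p.1.2 ×ˢ (univ : Finset (Fin s))).card := by
        apply Finset.card_le_card
        intro q hq
        have := (Finset.mem_filter.mp hq).2
        rw [Finset.mem_filter] at this
        rw [Finset.mem_product]
        exact ⟨this.2, Finset.mem_univ _⟩
      rw [Finset.card_product, Finset.card_univ, Fintype.card_fin, p.2.2.2] at e1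
      calc ((Fr.filter (· ∈ univ.filter fun q : Fin n × Fin s => q.1 ∈ p.1.2)).card : ℝ)
          ≤ 16 * k * p.1.1.card * s := by exact_mod_cast e1
        _ = 16 * k * p.1.1.card / (d * n) * (d * (s * n)) := by
            field_simp
        _ ≤ 16 * k * p.1.1.card / (d * n) * Fr.card :=
            mul_le_mul_of_nonneg_left hmf (hpE0 p).le
    · have hlow' := hlow trivial
      show ((Fr.filter (· ∈ univ.filter fun q : Fin n × Fin s =>
        ¬ (q.1 ∈ p.1.2.1 ∧ grp s g hg0 q.2 ∈ p.1.2.2))).card : ℝ) ≤ (1 - a / 32) * Fr.card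
      have e0 : (Fr.filter (· ∈ univ.filter fun q : Fin n × Fin s =>
        ¬ (q.1 ∈ p.1.2.1 ∧ grp s g hg0 q.2 ∈ p.1.2.2))).card +
        (Fr.filter fun q => q.1 ∈ p.1.2.1 ∧ grp s g hg0 q.2 ∈ p.1.2.2).card = Fr.card := by
        rw [← Finset.card_filter_add_card_filter_not (s := Fr)
          (fun q => q.1 ∈ p.1.2.1 ∧ grp s g hg0 q.2 ∈ p.1.2.2), add_comm]
        congr 2
        ext q
        simp
      have e1 : ((p.1.2.1.erase x) ×ˢ (univ.filter fun c => grp s g hg0 c ∈ p.1.2.2)).card ≤
          ((Fr.filter fun q => q.1 ∈ p.1.2.1 ∧ grp s g hg0 q.2 ∈ p.1.2.2) ∪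
            (allP n s x \ Fr)).card := by
        apply Finset.card_le_card
        intro q hq
        rw [Finset.mem_product, Finset.mem_erase, Finset.mem_filter] at hq
        rw [Finset.mem_union, Finset.mem_filter, Finset.mem_sdiff]
        by_cases hqF : q ∈ Fr
        · exact Or.inl ⟨hqF, hq.1.2, hq.2.2⟩
        · right
          refine ⟨?_, hqF⟩
          exact Finset.mem_filter.mpr ⟨Finset.mem_univ _, hq.1.1⟩
      have e2 := e1.trans (Finset.card_union_le _ _)
      rw [Finset.card_product] at e2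
      have e3 : (p.1.2.1.card : ℝ) - 1 ≤ (p.1.2.1.erase x).card := by
        have := Finset.pred_card_le_card_erase (s := p.1.2.1) (a := x)
        have h2 : p.1.2.1.card ≤ (p.1.2.1.erase x).card + 1 := by omega
        have h3 : (p.1.2.1.card : ℝ) ≤ (p.1.2.1.erase x).card + 1 := by exact_mod_cast h2
        linarith
      have e4 := grp_pre_ge s g hg0 p.1.2.2
      have e5 : (0 : ℝ) ≤ s / g - 1 := by
        have : (2 : ℝ) * s / g = s / g + s / g := by ring
        linarith
      have e6 : (g : ℝ) / 4 * (s / g - 1) ≤ (univ.filter fun c => grp s g hg0 c ∈ p.1.2.2).card := by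
        refine le_trans ?_ e4
        exact mul_le_mul_of_nonneg_right p.2.2.2 e5
      have e7 : (a * n / 2 - 1) * (g / 4 * (s / g - 1)) ≤
          ((p.1.2.1.erase x).card : ℝ) * (univ.filter fun c => grp s g hg0 c ∈ p.1.2.2).card := by
        apply mul_le_mul _ e6 (by positivity) (by positivity)
        linarith [p.2.2.1]
      have e8 : ((p.1.2.1.erase x).card : ℝ) * (univ.filter fun c => grp s g hg0 c ∈ p.1.2.2).card ≤
          (Fr.filter fun q => q.1 ∈ p.1.2.1 ∧ grp s g hg0 q.2 ∈ p.1.2.2).card +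
            (allP n s x \ Fr).card := by exact_mod_cast e2
      have e9 : ((Fr.filter (· ∈ univ.filter fun q : Fin n × Fin s =>
        ¬ (q.1 ∈ p.1.2.1 ∧ grp s g hg0 q.2 ∈ p.1.2.2))).card : ℝ) +
        (Fr.filter fun q => q.1 ∈ p.1.2.1 ∧ grp s g hg0 q.2 ∈ p.1.2.2).card = Fr.card := by
        exact_mod_cast e0
      have e10 : (Fr.card : ℝ) ≤ s * n := by
        have : Fr.card ≤ (univ : Finset (Fin n × Fin s)).card :=
          Finset.card_le_card (Finset.subset_univ _)
        rw [Finset.card_univ, Fintype.card_prod, Fintype.card_fin, Fintype.card_fin] at this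
        have h2 : (Fr.card : ℝ) ≤ n * s := by exact_mod_cast this
        linarith
      have e11 : a / 32 * Fr.card ≤ a / 32 * (s * n) :=
        mul_le_mul_of_nonneg_left e10 (by positivity)
      push_cast at hlow'
      linarith
  have hfin : ∀ M P, ∀ High : Finset (Fin n), (∀ x, (P x).card = 1024 * k) →
      (∀ x, ∀ q ∈ P x, q.1 ≠ x ∧ (s(x, q.1), q.2) ∈ M) →
      (High.card : ℝ) * (β * (s * n)) ≤ 2 * (b * (((1024 * k : ℕ) : ℝ) * n)) →
      (∀ i, (low i → Disjoint (A i) High) → hits (A i) (T i) P < τ i) →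
      RainbowConnected (n := n) (s := s) M := by
    intro M P High hPc hPM hHigh hev u v
    obtain ⟨pk, hpk, hpkc⟩ := exists_pk P hPc
    have hstr : ∃ F, RW M u F v := by
      refine struct (k := k) (L := L) hk hL hg (grp s g hg0) pk a M ?_ ?_ ?_ ?_ High ?_ ?_ hL2 hka2 u v
      · intro x i
        exact (hPM x _ (hpk x i)).1
      · intro x i
        exact (hPM x _ (hpk x i)).2
      · intro x F hF
        rw [hpkc x (fun q => grp s g hg0 q.2 ∈ F)]
        have h2 := hev (Sum.inl ⟨(x, F), hF⟩) (fun h => h.elim)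
        have h3 : hits {x} (univ.filter fun q : Fin n × Fin s => grp s g hg0 q.2 ∈ F) P < k := h2
        unfold hits at h3
        rw [Finset.sum_singleton] at h3
        have h4 : ((P x).filter fun q => grp s g hg0 q.2 ∈ F) =
            ((P x).filter (· ∈ univ.filter fun q : Fin n × Fin s => grp s g hg0 q.2 ∈ F)) := by
          ext q
          simp
        rw [h4]
        exact h3
      · intro A' B hA' hAn hB
        have h2 : 16 * k * A'.card ≤ Fintype.card (Fin n) := by
          rw [Fintype.card_fin]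
          have : ((16 * k * A'.card : ℕ) : ℝ) ≤ n := by
            push_cast
            refine hAn.trans ?_
            nlinarith
          exact_mod_cast this
        obtain ⟨B', hBB', hB'⟩ := Finset.exists_superset_card_eq hB h2
        have h3 := hev (Sum.inr (Sum.inl ⟨(A', B'), hA', hAn, hB'⟩)) (fun h => h.elim)
        have h4 : hits A' (univ.filter fun q : Fin n × Fin s => q.1 ∈ B') P <
          256 * k * A'.card := h3
        refine lt_of_le_of_lt ?_ h4
        unfold hits
        apply Finset.sum_le_sum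
        intro x _
        rw [hpkc x (fun q => q.1 ∈ B)]
        apply Finset.card_le_card
        intro q hq
        rw [Finset.mem_filter] at hq ⊢
        exact ⟨hq.1, Finset.mem_filter.mpr ⟨Finset.mem_univ _, hBB' hq.2⟩⟩
      · push_cast at hHigh
        have h2 : (High.card : ℝ) * (β * (s * n)) ≤ a * n / 4 * (β * (s * n)) := by linarith
        exact le_of_mul_le_mul_right h2 (by positivity)
      · intro A' B G hA' hB hG hdis
        have h3 := hev (Sum.inr (Sum.inr ⟨(A', B, G), hA', hB, hG⟩)) (fun _ => hdis)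
        have h4 : hits A' (univ.filter fun q : Fin n × Fin s =>
          ¬ (q.1 ∈ B ∧ grp s g hg0 q.2 ∈ G)) P < 1024 * k * A'.card := h3
        by_contra hcon
        push Not at hcon
        have h5 : hits A' (univ.filter fun q : Fin n × Fin s =>
          ¬ (q.1 ∈ B ∧ grp s g hg0 q.2 ∈ G)) P = 1024 * k * A'.card := by
          unfold hits
          rw [mul_comm (1024 * k) A'.card, ← smul_eq_mul, ← Finset.sum_const]
          apply Finset.sum_congr rfl
          intro x hx
          rw [← hPc x]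
          congr 1
          rw [Finset.filter_eq_self]
          intro q hq
          rw [Finset.mem_filter]
          refine ⟨Finset.mem_univ _, ?_⟩
          rintro ⟨hqB, hqG⟩
          have h6 : (univ.filter fun i => pk x i = q).card = ((P x).filter fun r => r = q).card :=
            hpkc x (fun r => r = q)
          have h7 : ((P x).filter fun r => r = q).card ≠ 0 := by
            rw [Finset.card_ne_zero]
            exact ⟨q, Finset.mem_filter.mpr ⟨hq, rfl⟩⟩
          rw [← h6, Finset.card_ne_zero] at h7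
          obtain ⟨i, hi⟩ := h7
          have h8 := (Finset.mem_filter.mp hi).2
          apply hcon x hx i
          · rw [h8]; exact hqB
          · rw [h8]; exact hqG
        omega
    obtain ⟨F, hF⟩ := hstr
    exact hF.joined hs
  unfold MakerWinsGame
  refine maker_strategy (D := 1024 * k) hG1 hG2 hG hm0 (β * (s * n)) (d * (s * n)) A T θ ρ pp τ low
    hθ hρ hρ0 hmin hfree' hT _ (fun A B hAB hA => rainbowConnected_mono A B hAB hA) hfin
    _ ∅ (board n s) (fun _ => ∅) ?_ rfl
  have hbk : bk ∅ (board n s) = ∅ := by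
    unfold bk
    simp
  refine ⟨Finset.disjoint_empty_left _, Finset.empty_subset _, Finset.Subset.refl _, ?_, ?_, ?_,
    ?_, ?_, ?_⟩
  · intro x q hq
    simp at hq
  · intro x
    simp
  · simp
  · rw [hbk]
    simp
  · rw [hbk]
    have h2 : (univ.filter fun x : Fin n => ((∅ : Finset (Fin n × Fin s)).card < 1024 * k))
        = univ := by
      apply Finset.filter_true_of_mem
      intro x _
      rw [Finset.card_empty]
      omega
    rw [h2]
    have h3 := DangerInv.init (n := n) (s := s) (b := b) (m0 := m0) hG1n hG2n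
    simpa using h3
  · intro S _
    have hwt0 : ∀ i, 0 ≤ wt (1024 * k) (A i) (T i) (θ i) (ρ i) (τ i) (fun _ => ∅) := fun i =>
      wt_nonneg _ _ _ _ (zero_le_one.trans (hθ i)) (hρ0 i).le _
    have hle : ∑ i ∈ S, wt (1024 * k) (A i) (T i) (θ i) (ρ i) (τ i) (fun _ => ∅) ≤
        ∑ i, wt (1024 * k) (A i) (T i) (θ i) (ρ i) (τ i) (fun _ => ∅) :=
      Finset.sum_le_sum_of_subset_of_nonneg (Finset.subset_univ _) (fun i _ _ => hwt0 i)
    refine lt_of_le_of_lt hle ?_
    rw [Fintype.sum_sum_type, Fintype.sum_sum_type]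
    have hwtf : ∀ (A' : Finset (Fin n)) (T' : Finset (Fin n × Fin s)) (θ' ρ' : ℝ) (τ' : ℕ),
        wt (1024 * k) A' T' θ' ρ' τ' (fun _ => ∅) = ρ' ^ (1024 * k * A'.card) / θ' ^ τ' := by
      intro A' T' θ' ρ' τ'
      unfold wt hits
      have : ∑ x ∈ A', (1024 * k - (∅ : Finset (Fin n × Fin s)).card) = 1024 * k * A'.card := by
        rw [Finset.sum_const, Finset.card_empty, Nat.sub_zero, smul_eq_mul, mul_comm]
      rw [this]
      simp
    have hsum1 : ∑ p : IQ n g L, wt (1024 * k) (A (Sum.inl p)) (T (Sum.inl p)) (θ (Sum.inl p))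
        (ρ (Sum.inl p)) (τ (Sum.inl p)) (fun _ => ∅) ≤ 1 / 4 := by
      calc _ = ∑ _p : IQ n g L, (2 ^ (1024 * k) * (2 * L / (g * d)) ^ k : ℝ) := by
            apply Finset.sum_congr rfl
            intro p _
            rw [hwtf]
            show (2 : ℝ) ^ (1024 * k * ({p.1.1} : Finset (Fin n)).card) /
              (1 / (2 * (L : ℝ) / (g * d))) ^ k = _
            rw [Finset.card_singleton, mul_one, one_div, inv_pow, div_inv_eq_mul]
        _ = (Fintype.card (IQ n g L) : ℝ) * (2 ^ (1024 * k) * (2 * L / (g * d)) ^ k) := by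
            rw [Finset.sum_const, nsmul_eq_mul, Finset.card_univ]
        _ ≤ ((n : ℝ) * 2 ^ g) * (2 ^ (1024 * k) * (2 * L / (g * d)) ^ k) := by
            apply mul_le_mul_of_nonneg_right _ (by positivity)
            have h2 : Fintype.card (IQ n g L) ≤ Fintype.card (Fin n × Finset (Fin g)) :=
              Fintype.card_subtype_le _
            rw [Fintype.card_prod, Fintype.card_finset, Fintype.card_fin, Fintype.card_fin] at h2
            exact_mod_cast h2
        _ ≤ 1 / 4 := hQ
    have hsum2 : ∑ p : IE n k a, wt (1024 * k) (A (Sum.inr (Sum.inl p))) (T (Sum.inr (Sum.inl p)))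
        (θ (Sum.inr (Sum.inl p))) (ρ (Sum.inr (Sum.inl p))) (τ (Sum.inr (Sum.inl p)))
        (fun _ => ∅) ≤ 1 / 4 := by
      refine le_trans (le_of_eq ?_) (potE (n := n) (k := k) hk d hd0 hd1)
      rw [Finset.sum_subtype (p := fun p : Finset (Fin n) × Finset (Fin n) =>
        p.1.Nonempty ∧ (16 * k * p.1.card : ℝ) ≤ a * n ∧ p.2.card = 16 * k * p.1.card)]
      · apply Finset.sum_congr rfl
        intro p _
        rw [hwtf]
        show (2 : ℝ) ^ (1024 * k * (p.1.1).card) /
              (1 / (16 * k * p.1.1.card / (d * n))) ^ (256 * k * p.1.1.card) = _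
        rw [one_div, inv_pow, div_inv_eq_mul]
      · intro p
        rw [Finset.mem_filter, ha]
        simp
    have hsum3 : ∑ p : IL n g a, wt (1024 * k) (A (Sum.inr (Sum.inr p))) (T (Sum.inr (Sum.inr p)))
        (θ (Sum.inr (Sum.inr p))) (ρ (Sum.inr (Sum.inr p))) (τ (Sum.inr (Sum.inr p)))
        (fun _ => ∅) ≤ 1 / 4 := by
      have hpos : (0 : ℝ) ≤ (2 - a / 32) / 2 := by
        have : (0 : ℝ) < 2 - a / 32 := by linarith
        positivity
      calc _ = ∑ p : IL n g a, (((2 - a / 32) / 2) ^ (1024 * k * p.1.1.card) : ℝ) := by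
            apply Finset.sum_congr rfl
            intro p _
            rw [hwtf]
            show (2 - a / 32 : ℝ) ^ (1024 * k * (p.1.1).card) /
              2 ^ (1024 * k * p.1.1.card) = _
            rw [div_pow]
        _ = ∑ p ∈ (univ : Finset (Finset (Fin n) × Finset (Fin n) × Finset (Fin g))).filter
              (fun p => a * n / 4 ≤ (p.1.card : ℝ) ∧ a * n / 2 ≤ (p.2.1.card : ℝ) ∧
                (g : ℝ) / 4 ≤ (p.2.2.card : ℝ)),
              (((2 - a / 32) / 2) ^ (1024 * k * p.1.card) : ℝ) := by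
            rw [Finset.sum_subtype (p := fun p : Finset (Fin n) × Finset (Fin n) × Finset (Fin g) =>
              a * n / 4 ≤ (p.1.card : ℝ) ∧ a * n / 2 ≤ (p.2.1.card : ℝ) ∧
                (g : ℝ) / 4 ≤ (p.2.2.card : ℝ))]
            intro p
            rw [Finset.mem_filter]
            simp
        _ ≤ ∑ p ∈ (univ : Finset (Finset (Fin n) × Finset (Fin n) × Finset (Fin g))).filter
              (fun p => a * n / 4 ≤ (p.1.card : ℝ)),
              (((2 - a / 32) / 2) ^ (1024 * k * p.1.card) : ℝ) := by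
            apply Finset.sum_le_sum_of_subset_of_nonneg
            · intro p hp
              rw [Finset.mem_filter] at hp ⊢
              exact ⟨hp.1, hp.2.1⟩
            · intro p _ _
              exact pow_nonneg hpos _
        _ ≤ 1 / 4 := potL hn hgn a ha0 ha1 hka
    linarith

end Rbc
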