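import Pool.Agent.Lib.Rbc.Game
import Pool.Agent.Lib.Rbc.Danger
import Pool.Agent.Lib.Rbc.Derand

/-! Maker's strategy. -/

namespace Rbc

open Finset

variable {n s : ℕ}

/-- Possible picks at `x`. -/
def allP (n s : ℕ) (x : Fin n) : Finset (Fin n × Fin s) := univ.filter fun q => q.1 ≠ x

/-- The number of hits of the event `(A, T)`. -/
def hits (A : Finset (Fin n)) (T : Finset (Fin n × Fin s)) (P : Fin n → Finset (Fin n × Fin s)) :
    ℕ := ∑ x ∈ A, ((P x).filter (· ∈ T)).card

/-- The potential of an event. -/
noncomputable def wt (D : ℕ) (A : Finset (Fin n)) (T : Finset (Fin n × Fin s)) (θ ρ : ℝ) (τ : ℕ)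
    (P : Fin n → Finset (Fin n × Fin s)) : ℝ :=
  θ ^ (hits A T P) * ρ ^ (∑ x ∈ A, (D - (P x).card)) / θ ^ τ

/-- Breaker's edges. -/
def bk (M R : Finset (Sym2 (Fin n) × Fin s)) : Finset (Sym2 (Fin n) × Fin s) :=
  board n s \ (M ∪ R)

/-- The invariant of Maker's strategy (at Maker's turn). -/
structure MInv {ι : Type*} [Fintype ι] [DecidableEq ι] (b D m0 : ℕ) (G1 G2 : ℕ → ℝ) (β : ℝ)
    (A : ι → Finset (Fin n)) (T : ι → Finset (Fin n × Fin s)) (θ ρ : ι → ℝ) (τ : ι → ℕ)
    (low : ι → Prop)
    (M R : Finset (Sym2 (Fin n) × Fin s)) (P : Fin n → Finset (Fin n × Fin s)) : Prop where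
  hd : Disjoint M R
  hMb : M ⊆ board n s
  hRb : R ⊆ board n s
  hP : ∀ x, ∀ q ∈ P x, q.1 ≠ x ∧ (s(x, q.1), q.2) ∈ M
  hPc : ∀ x, (P x).card ≤ D
  hMc : M.card ≤ ∑ x, (P x).card
  hBc : (bk M R).card ≤ b * ∑ x, (P x).card
  hdang : DangerInv b m0 G1 G2 b (2 * b) (univ.filter fun x => (P x).card < D)
    (fun x => (P x).card) (bk M R)
  hpot : ∀ S : Finset ι, (∀ i ∈ S, low i → ∀ x ∈ A i, (dg (bk M R) x : ℝ) ≤ β) →
    ∑ i ∈ S, wt D (A i) (T i) (θ i) (ρ i) (τ i) P < 1

/-- The edge of a pick at `x`. -/
def pe (x : Fin n) (q : Fin n × Fin s) : Sym2 (Fin n) × Fin s := (s(x, q.1), q.2)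

theorem pe_inj (x : Fin n) {q r : Fin n × Fin s} (h : pe x q = pe x r) : q = r := by
  unfold pe at h
  rw [Prod.mk.injEq] at h
  obtain ⟨h1, h2⟩ := h
  have h3 : q.1 = r.1 := by
    rw [Sym2.eq_iff] at h1
    rcases h1 with ⟨_, h⟩ | ⟨h, h'⟩
    · exact h
    · rw [h', h]
  exact Prod.ext h3 h2

theorem pe_mem_board (x : Fin n) (q : Fin n × Fin s) : pe x q ∈ board n s ↔ q.1 ≠ x := by
  unfold pe board
  rw [Finset.mem_filter]
  simp only [Finset.mem_univ, true_and, Sym2.mk_isDiag_iff]
  exact ⟨fun h h' => h h'.symm, fun h h' => h h'.symm⟩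

theorem mem_pe (x : Fin n) (q : Fin n × Fin s) : x ∈ (pe x q).1 := by
  unfold pe
  exact Sym2.mem_mk_left _ _

theorem card_allP (x : Fin n) : (allP n s x).card = (n - 1) * s := by
  have : allP n s x = (univ.erase x) ×ˢ (univ : Finset (Fin s)) := by
    ext q
    simp [allP]
  rw [this, Finset.card_product, Finset.card_erase_of_mem (Finset.mem_univ _)]
  simp

/-- Free picks at `x`. -/
def freeP (R : Finset (Sym2 (Fin n) × Fin s)) (x : Fin n) : Finset (Fin n × Fin s) :=
  (allP n s x).filter fun q => pe x q ∈ R

theorem freeP_sub (R : Finset (Sym2 (Fin n) × Fin s)) (x : Fin n) : freeP R x ⊆ allP n s x :=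
  Finset.filter_subset _ _

theorem notfree_card (M R : Finset (Sym2 (Fin n) × Fin s)) (x : Fin n) :
    (allP n s x \ freeP R x).card ≤ dg (bk M R) x + M.card := by
  have h1 : (allP n s x \ freeP R x).card ≤
      (((bk M R).filter fun e => x ∈ e.1) ∪ M).card := by
    apply Finset.card_le_card_of_injOn (pe x)
    · intro q hq
      rw [Finset.mem_coe, Finset.mem_sdiff] at hq
      obtain ⟨hq1, hq2⟩ := hq
      have hq3 : pe x q ∉ R := by
        intro h
        exact hq2 (Finset.mem_filter.mpr ⟨hq1, h⟩)
      have hq4 : pe x q ∈ board n s := by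
        rw [pe_mem_board]
        exact (Finset.mem_filter.mp hq1).2
      rw [Finset.mem_coe, Finset.mem_union, Finset.mem_filter]
      by_cases hM : pe x q ∈ M
      · exact Or.inr hM
      · left
        refine ⟨?_, mem_pe x q⟩
        unfold bk
        rw [Finset.mem_sdiff, Finset.mem_union]
        exact ⟨hq4, fun h => h.elim hM hq3⟩
    · intro q _ r _ h
      exact pe_inj x h
  exact h1.trans (Finset.card_union_le _ _)

theorem bk_step {M R T : Finset (Sym2 (Fin n) × Fin s)} {e : Sym2 (Fin n) × Fin s}
    (hM : M ⊆ board n s) (hR : R ⊆ board n s) (hd : Disjoint M R) (he : e ∈ R)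
    (hT : T ⊆ R.erase e) : bk (insert e M) (R.erase e \ T) = bk M R ∪ T := by
  ext f
  unfold bk
  simp only [Finset.mem_sdiff, Finset.mem_union, Finset.mem_insert, Finset.mem_erase]
  constructor
  · rintro ⟨h1, h2⟩
    by_cases hf : f ∈ T
    · exact Or.inr hf
    · left
      refine ⟨h1, ?_⟩
      rintro (h | h)
      · exact h2 (Or.inl (Or.inr h))
      · by_cases hfe : f = e
        · exact h2 (Or.inl (Or.inl hfe))
        · exact h2 (Or.inr ⟨⟨hfe, h⟩, hf⟩)
  · rintro (⟨h1, h2⟩ | h)
    · refine ⟨h1, ?_⟩
      rintro ((h | h) | ⟨⟨_, h⟩, _⟩)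
      · subst h
        exact h2 (Or.inr he)
      · exact h2 (Or.inl h)
      · exact h2 (Or.inr h)
    · have h3 := hT h
      rw [Finset.mem_erase] at h3
      refine ⟨hR h3.2, ?_⟩
      rintro ((h' | h') | ⟨⟨_, _⟩, h'⟩)
      · exact h3.1 h'
      · exact (Finset.disjoint_left.mp hd h') h3.2
      · exact h' h

theorem dg_mono {B B' : Finset (Sym2 (Fin n) × Fin s)} (h : B ⊆ B') (x : Fin n) :
    dg B x ≤ dg B' x := by
  unfold dg
  exact Finset.card_le_card (Finset.filter_subset_filter _ h)

theorem dg_eq_touch (B : Finset (Sym2 (Fin n) × Fin s)) (x : Fin n) : touch B {x} = dg B x := by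
  unfold touch dg
  congr 1
  ext e
  simp

theorem sum_dg_le2 (B : Finset (Sym2 (Fin n) × Fin s)) (J : Finset (Fin n)) :
    ∑ x ∈ J, dg B x ≤ 2 * B.card := by
  unfold dg
  have h1 : ∑ x ∈ J, (B.filter fun e => x ∈ e.1).card
      = ∑ e ∈ B, (J.filter fun x => x ∈ e.1).card := by
    simp only [Finset.card_filter]
    rw [Finset.sum_comm]
  rw [h1]
  calc ∑ e ∈ B, (J.filter fun x => x ∈ e.1).card ≤ ∑ _e ∈ B, 2 := by
        apply Finset.sum_le_sum
        intro e _
        obtain ⟨e1, c⟩ := e
        induction e1 using Sym2.ind with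
        | _ y z =>
          have : (J.filter fun x => x ∈ s(y, z)) ⊆ {y, z} := by
            intro x hx
            have := (Finset.mem_filter.mp hx).2
            rw [Sym2.mem_iff] at this
            simpa using this
          exact (Finset.card_le_card this).trans Finset.card_le_two
    _ = 2 * B.card := by rw [Finset.sum_const, smul_eq_mul, mul_comm]

theorem hits_update (A : Finset (Fin n)) (T : Finset (Fin n × Fin s))
    (P : Fin n → Finset (Fin n × Fin s)) (x : Fin n) (q : Fin n × Fin s) (hq : q ∉ P x) :
    hits A T (Function.update P x (insert q (P x))) =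
      hits A T P + (if x ∈ A then (if q ∈ T then 1 else 0) else 0) := by
  unfold hits
  by_cases hx : x ∈ A
  · rw [if_pos hx, ← Finset.add_sum_erase A _ hx, ← Finset.add_sum_erase A _ hx]
    have h1 : ∑ y ∈ A.erase x, ((Function.update P x (insert q (P x)) y).filter (· ∈ T)).card
        = ∑ y ∈ A.erase x, ((P y).filter (· ∈ T)).card := by
      apply Finset.sum_congr rfl
      intro y hy
      rw [Function.update_of_ne (Finset.ne_of_mem_erase hy)]
    rw [h1, Function.update_self, Finset.filter_insert]
    by_cases hT : q ∈ T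
    · rw [if_pos hT, if_pos hT, Finset.card_insert_of_notMem]
      · ring
      · intro h
        exact hq (Finset.mem_filter.mp h).1
    · rw [if_neg hT, if_neg hT]
      ring
  · rw [if_neg hx, add_zero]
    apply Finset.sum_congr rfl
    intro y hy
    rw [Function.update_of_ne]
    rintro rfl
    exact hx hy

theorem rem_update (D : ℕ) (A : Finset (Fin n))
    (P : Fin n → Finset (Fin n × Fin s)) (x : Fin n) (q : Fin n × Fin s) (hq : q ∉ P x)
    (hD : (P x).card < D) :
    ∑ y ∈ A, (D - (P y).card) =
      ∑ y ∈ A, (D - (Function.update P x (insert q (P x)) y).card) + (if x ∈ A then 1 else 0) := by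
  by_cases hx : x ∈ A
  · rw [if_pos hx, ← Finset.add_sum_erase A _ hx, ← Finset.add_sum_erase A _ hx]
    have h1 : ∑ y ∈ A.erase x, (D - (Function.update P x (insert q (P x)) y).card)
        = ∑ y ∈ A.erase x, (D - (P y).card) := by
      apply Finset.sum_congr rfl
      intro y hy
      rw [Function.update_of_ne (Finset.ne_of_mem_erase hy)]
    rw [h1, Function.update_self, Finset.card_insert_of_notMem hq]
    omega
  · rw [if_neg hx, add_zero]
    apply Finset.sum_congr rfl
    intro y hy
    rw [Function.update_of_ne]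
    rintro rfl
    exact hx hy

theorem wt_update (D : ℕ) (A : Finset (Fin n)) (T : Finset (Fin n × Fin s)) {θ ρ : ℝ} (τ : ℕ)
    (hρ : 0 < ρ)
    (P : Fin n → Finset (Fin n × Fin s)) (x : Fin n) (q : Fin n × Fin s) (hq : q ∉ P x)
    (hD : (P x).card < D) :
    wt D A T θ ρ τ (Function.update P x (insert q (P x))) =
      wt D A T θ ρ τ P * (if x ∈ A then (if q ∈ T then θ else 1) / ρ else 1) := by
  unfold wt
  rw [hits_update A T P x q hq]
  have h := rem_update D A P x q hq hD
  rw [h]
  by_cases hx : x ∈ A
  · simp only [hx, if_true]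
    by_cases hT : q ∈ T
    · simp only [hT, if_true]
      rw [pow_succ, pow_succ]
      field_simp
    · simp only [hT, if_false, add_zero]
      rw [pow_succ]
      field_simp
  · simp only [hx, if_false, add_zero, mul_one]

theorem wt_nonneg (D : ℕ) (A : Finset (Fin n)) (T : Finset (Fin n × Fin s)) {θ ρ : ℝ} (τ : ℕ)
    (hθ : 0 ≤ θ) (hρ : 0 ≤ ρ) (P : Fin n → Finset (Fin n × Fin s)) : 0 ≤ wt D A T θ ρ τ P := by
  unfold wt
  positivity

theorem maker_strategy {ι : Type*} [Fintype ι] [DecidableEq ι] {b D m0 : ℕ} {G1 G2 : ℕ → ℝ}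
    (hG1 : ∀ j, 1 ≤ j → j < m0 → G1 (j + 1) + (b + s * j) / (j + 1) ≤ G1 j)
    (hG2 : ∀ j, m0 ≤ j → j < n → G2 (j + 1) + 2 * b / (j + 1) ≤ G2 j)
    (hG : G2 m0 ≤ G1 m0) (hm0 : 1 ≤ m0) (β minFree : ℝ)
    (A : ι → Finset (Fin n)) (T : ι → Finset (Fin n × Fin s)) (θ ρ p : ι → ℝ) (τ : ι → ℕ)
    (low : ι → Prop) (hθ : ∀ i, 1 ≤ θ i) (hρ : ∀ i, 1 + (θ i - 1) * p i ≤ ρ i)
    (hρ0 : ∀ i, 0 < ρ i) (hmin : 0 < minFree)
    (hfree : minFree ≤ s * (n - 1) - (2 * b * D + (G1 1 + b)) - D * n)
    (hT : ∀ i, ∀ x ∈ A i, ∀ Fr ⊆ allP n s x, minFree ≤ Fr.card →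
      (low i → ((allP n s x \ Fr).card : ℝ) ≤ β + D * n) →
      ((Fr.filter (· ∈ T i)).card : ℝ) ≤ p i * Fr.card)
    (W : Finset (Sym2 (Fin n) × Fin s) → Prop)
    (hW : ∀ A B : Finset (Sym2 (Fin n) × Fin s), A ⊆ B → W A → W B)
    (hfin : ∀ M P, ∀ High : Finset (Fin n), (∀ x, (P x).card = D) →
      (∀ x, ∀ q ∈ P x, q.1 ≠ x ∧ (s(x, q.1), q.2) ∈ M) →
      (High.card : ℝ) * β ≤ 2 * (b * (D * n)) →
      (∀ i, (low i → Disjoint (A i) High) → hits (A i) (T i) P < τ i) → W M) :
    ∀ N : ℕ, ∀ M R P, MInv b D m0 G1 G2 β A T θ ρ τ low M R P → ∑ x, (D - (P x).card) = N →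
      MakerWins W b M R := by
  classical
  intro N
  induction N with
  | zero =>
    intro M R P h hN
    have hall : ∀ x, (P x).card = D := by
      intro x
      have h1 := h.hPc x
      have h2 : D - (P x).card = 0 := by
        have := Finset.sum_eq_zero_iff.mp hN x (Finset.mem_univ x)
        exact this
      omega
    apply MakerWins.of_done hW
    have hsumP : ∑ x, (P x).card = n * D := by
      rw [Finset.sum_congr rfl (fun x _ => hall x)]
      simp
    apply hfin M P (univ.filter fun x => β < dg (bk M R) x) hall h.hP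
    · have h1 : ((univ.filter fun x => β < dg (bk M R) x).card : ℝ) * β ≤
          ∑ x ∈ univ.filter (fun x => β < (dg (bk M R) x : ℝ)), (dg (bk M R) x : ℝ) := by
        rw [← nsmul_eq_mul]
        apply Finset.card_nsmul_le_sum
        intro x hx
        exact (Finset.mem_filter.mp hx).2.le
      have h2 : ∑ x ∈ univ.filter (fun x => β < (dg (bk M R) x : ℝ)), (dg (bk M R) x : ℝ) ≤
          2 * (bk M R).card := by
        have := sum_dg_le2 (bk M R) (univ.filter (fun x => β < (dg (bk M R) x : ℝ)))
        exact_mod_cast this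
      have h3 : ((bk M R).card : ℝ) ≤ b * (D * n) := by
        have := h.hBc
        rw [hsumP] at this
        have h4 : ((bk M R).card : ℝ) ≤ ((b * (n * D) : ℕ) : ℝ) := by exact_mod_cast this
        push_cast at h4
        linarith
      linarith
    · intro i hi
      by_contra hcon
      rw [not_lt] at hcon
      have h1 := h.hpot {i} (by
        intro i' hi' hl x hx
        rw [Finset.mem_singleton] at hi'
        subst hi'
        by_contra hc
        rw [not_le] at hc
        exact Finset.disjoint_left.mp (hi hl) hx (Finset.mem_filter.mpr ⟨Finset.mem_univ _, hc⟩))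
      rw [Finset.sum_singleton] at h1
      unfold wt at h1
      have h2 : ∑ x ∈ A i, (D - (P x).card) = 0 := by
        apply Finset.sum_eq_zero
        intro x _
        rw [hall x]
        omega
      rw [h2, pow_zero, mul_one] at h1
      have h3 : (0 : ℝ) < θ i ^ τ i := pow_pos (lt_of_lt_of_le one_pos (hθ i)) _
      rw [div_lt_one h3] at h1
      have h4 : θ i ^ τ i ≤ θ i ^ hits (A i) (T i) P := pow_le_pow_right₀ (hθ i) hcon
      linarith
  | succ N ih =>
    intro M R P h hN
    -- the active vertices
    set Act := univ.filter (fun x : Fin n => (P x).card < D) with hAct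
    have hne : Act.Nonempty := by
      by_contra hc
      rw [Finset.not_nonempty_iff_eq_empty] at hc
      have : ∑ x, (D - (P x).card) = 0 := by
        apply Finset.sum_eq_zero
        intro x _
        have : x ∉ Act := by rw [hc]; simp
        have h2 : ¬ (P x).card < D := fun h' => this (Finset.mem_filter.mpr ⟨Finset.mem_univ _, h'⟩)
        omega
      omega
    obtain ⟨x, hxA, hmax⟩ := Finset.exists_max_image Act
      (fun y => (dg (bk M R) y : ℝ) - 2 * b * (P y).card) hne
    have hxD : (P x).card < D := (Finset.mem_filter.mp hxA).2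
    -- number of free picks
    have hdx : (dg (bk M R) x : ℝ) ≤ 2 * b * D + (G1 1 + b) := by
      have h1 := h.hdang.X {x} (by simpa using hxD) (Finset.singleton_nonempty x) (by simpa using hm0)
      rw [dg_eq_touch, Finset.sum_singleton, Finset.card_singleton] at h1
      have h2 : (2 : ℝ) * b * (P x).card ≤ 2 * b * D := by
        apply mul_le_mul_of_nonneg_left _ (by positivity)
        exact_mod_cast hxD.le
      push_cast at h1
      linarith
    have hsumle : ∑ x, (P x).card ≤ n * D := by
      calc ∑ x, (P x).card ≤ ∑ _x : Fin n, D := Finset.sum_le_sum (fun x _ => h.hPc x)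
        _ = n * D := by simp
    have hMc : (M.card : ℝ) ≤ D * n := by
      have h1 := h.hMc.trans hsumle
      have h2 : (M.card : ℝ) ≤ ((n * D : ℕ) : ℝ) := by exact_mod_cast h1
      push_cast at h2
      linarith
    have hnf := notfree_card M R x
    have hn1 : 1 ≤ n := by
      have := x.2
      omega
    have hfr : minFree ≤ ((freeP R x).card : ℝ) := by
      have h1 : (allP n s x \ freeP R x).card + (freeP R x).card = (allP n s x).card :=
        Finset.card_sdiff_add_card_eq_card (freeP_sub R x)
      rw [card_allP] at h1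
      have h2 : ((allP n s x \ freeP R x).card : ℝ) + (freeP R x).card = (n - 1) * s := by
        have : (((allP n s x \ freeP R x).card + (freeP R x).card : ℕ) : ℝ)
            = (((n - 1) * s : ℕ) : ℝ) := by rw [h1]
        push_cast [Nat.cast_sub hn1] at this
        exact this
      have h3 : ((allP n s x \ freeP R x).card : ℝ) ≤ dg (bk M R) x + M.card := by
        exact_mod_cast hnf
      linarith
    have hFne : (freeP R x).Nonempty := by
      rw [← Finset.card_pos]
      have : (0 : ℝ) < (freeP R x).card := by linarith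
      exact_mod_cast this
    -- the alive events
    set alive := (univ : Finset ι).filter
      (fun i => low i → ∀ y ∈ A i, (dg (bk M R) y : ℝ) ≤ β) with halive
    obtain ⟨q, hqF, hq⟩ := derand_step alive (fun i => x ∈ A i)
      (fun i => wt D (A i) (T i) (θ i) (ρ i) (τ i) P)
      (fun i _ => wt_nonneg D (A i) (T i) (τ i) (zero_le_one.trans (hθ i)) (hρ0 i).le P)
      (freeP R x) hFne T θ ρ p (fun i _ => hρ0 i) (fun i _ => hρ i) (fun i _ => hθ i)
      (by
        intro i hi hxi
        apply hT i x hxi (freeP R x) (freeP_sub R x) hfr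
        intro hl
        have h1 := (Finset.mem_filter.mp hi).2 hl x hxi
        have h3 : ((allP n s x \ freeP R x).card : ℝ) ≤ dg (bk M R) x + M.card := by
          exact_mod_cast hnf
        linarith)
    have hqR : pe x q ∈ R := (Finset.mem_filter.mp hqF).2
    have hqne : q.1 ≠ x := by
      have := (Finset.mem_filter.mp (freeP_sub R x hqF)).2
      exact this
    have hqP : q ∉ P x := by
      intro hc
      exact Finset.disjoint_left.mp h.hd (h.hP x q hc).2 hqR
    set P' := Function.update P x (insert q (P x)) with hP'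
    have hP'x : P' x = insert q (P x) := by rw [hP', Function.update_self]
    have hP'y : ∀ y, y ≠ x → P' y = P y := by
      intro y hy
      rw [hP', Function.update_of_ne hy]
    have hP'card : ∑ y, (P' y).card = ∑ y, (P y).card + 1 := by
      rw [← Finset.add_sum_erase univ _ (Finset.mem_univ x),
        ← Finset.add_sum_erase univ (fun y => (P y).card) (Finset.mem_univ x)]
      have h1 : ∑ y ∈ univ.erase x, (P' y).card = ∑ y ∈ univ.erase x, (P y).card := by
        apply Finset.sum_congr rfl
        intro y hy
        rw [hP'y y (Finset.ne_of_mem_erase hy)]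
      rw [h1, hP'x, Finset.card_insert_of_notMem hqP]
      ring
    refine MakerWins.step (pe x q) hqR ?_
    intro T' hT' hT'c
    apply ih _ _ P'
    · have hbk := bk_step h.hMb h.hRb h.hd hqR hT'
      have hT'b : T'.card ≤ b := by
        rw [hT'c]
        exact min_le_left _ _
      refine ⟨?_, ?_, ?_, ?_, ?_, ?_, ?_, ?_, ?_⟩
      · rw [Finset.disjoint_insert_left]
        constructor
        · intro hc
          exact (Finset.mem_erase.mp (Finset.mem_sdiff.mp hc).1).1 rfl
        · exact h.hd.mono_right (Finset.sdiff_subset.trans (Finset.erase_subset _ _))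
      · exact Finset.insert_subset (h.hRb hqR) h.hMb
      · exact (Finset.sdiff_subset.trans (Finset.erase_subset _ _)).trans h.hRb
      · intro y r hr
        by_cases hy : y = x
        · subst hy
          rw [hP'x, Finset.mem_insert] at hr
          rcases hr with rfl | hr
          · exact ⟨hqne, Finset.mem_insert_self _ _⟩
          · exact ⟨(h.hP y r hr).1, Finset.mem_insert_of_mem (h.hP y r hr).2⟩
        · rw [hP'y y hy] at hr
          exact ⟨(h.hP y r hr).1, Finset.mem_insert_of_mem (h.hP y r hr).2⟩
      · intro y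
        by_cases hy : y = x
        · subst hy
          rw [hP'x, Finset.card_insert_of_notMem hqP]
          exact hxD
        · rw [hP'y y hy]
          exact h.hPc y
      · rw [hP'card]
        exact (Finset.card_insert_le _ _).trans (Nat.add_le_add_right h.hMc 1)
      · rw [hbk, hP'card]
        calc (bk M R ∪ T').card ≤ (bk M R).card + T'.card := Finset.card_union_le _ _
          _ ≤ b * ∑ y, (P y).card + b := Nat.add_le_add h.hBc hT'b
          _ = b * (∑ y, (P y).card + 1) := by ring
      · rw [hbk]
        apply DangerInv.breaker _ hT'b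
        · intro e he
          have := h.hRb ((Finset.erase_subset _ _) (hT' he))
          exact (Finset.mem_filter.mp this).2
        · apply DangerInv.serve hG1 hG2 hG hm0 (Act := Act) (cnt := fun y => (P y).card) (x := x)
          · intro e he
            have := (Finset.mem_sdiff.mp he).1
            exact (Finset.mem_filter.mp this).2
          · exact h.hdang
          · exact hxA
          · intro y hy
            exact hmax y hy
          · show (P' x).card = (P x).card + 1
            rw [hP'x, Finset.card_insert_of_notMem hqP]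
          · intro y hy
            show (P' y).card = (P y).card
            rw [hP'y y hy]
          · intro y hy
            rw [Finset.mem_filter] at hy ⊢
            refine ⟨hy.1, ?_⟩
            by_cases hyx : y = x
            · subst hyx
              exact hxD
            · rw [hP'y y hyx] at hy
              exact hy.2
      · intro S hS
        have hSal : S ⊆ alive := by
          intro i hi
          rw [halive, Finset.mem_filter]
          refine ⟨Finset.mem_univ _, ?_⟩
          intro hl y hy
          have h1 := hS i hi hl y hy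
          have h2 : dg (bk M R) y ≤ dg (bk (insert (pe x q) M) (R.erase (pe x q) \ T')) y := by
            rw [hbk]
            exact dg_mono Finset.subset_union_left y
          have h3 : (dg (bk M R) y : ℝ) ≤
            dg (bk (insert (pe x q) M) (R.erase (pe x q) \ T')) y := by exact_mod_cast h2
          linarith
        have h1 := h.hpot alive (fun i hi => (Finset.mem_filter.mp hi).2)
        calc ∑ i ∈ S, wt D (A i) (T i) (θ i) (ρ i) (τ i) P'
            ≤ ∑ i ∈ alive, wt D (A i) (T i) (θ i) (ρ i) (τ i) P' := by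
              apply Finset.sum_le_sum_of_subset_of_nonneg hSal
              intro i _ _
              exact wt_nonneg D (A i) (T i) (τ i) (zero_le_one.trans (hθ i)) (hρ0 i).le P'
          _ = ∑ i ∈ alive, wt D (A i) (T i) (θ i) (ρ i) (τ i) P *
                (if x ∈ A i then (if q ∈ T i then θ i else 1) / ρ i else 1) := by
              apply Finset.sum_congr rfl
              intro i _
              exact wt_update D (A i) (T i) (τ i) (hρ0 i) P x q hqP hxD
          _ ≤ ∑ i ∈ alive, wt D (A i) (T i) (θ i) (ρ i) (τ i) P := hq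
          _ < 1 := h1
    · have := rem_update D univ P x q hqP hxD
      rw [if_pos (Finset.mem_univ x)] at this
      rw [hN] at this
      have h5 : ∑ y, (D - (P' y).card) =
        ∑ y, (D - (Function.update P x (insert q (P x)) y).card) := rfl
      omega

end Rbc
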